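import Mathlib

/-!
# Minimal errors of deterministic and randomized non-adaptive algorithms
-/

namespace Pool.Agent.H44.MG

open MeasureTheory ENNReal

/-- Deterministic non-adaptive minimal error of the operator `S` on the set `F`: the infimum over
`n` continuous linear functionals `L 0, ..., L (n-1)` and maps `φ : ℝⁿ → Y` of the worst case
error `sup_{f ∈ F} ‖S f - φ (L 0 f, ..., L (n-1) f)‖`. -/
noncomputable def eDet {X Y : Type*} [NormedAddCommGroup X] [NormedSpace ℝ X]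
    [NormedAddCommGroup Y] [NormedSpace ℝ Y] (S : X →L[ℝ] Y) (F : Set X) (n : ℕ) : ℝ≥0∞ :=
  ⨅ (L : Fin n → (X →L[ℝ] ℝ)) (φ : (Fin n → ℝ) → Y),
    ⨆ f ∈ F, ‖S f - φ (fun i => L i f)‖ₑ

/-- Randomized non-adaptive minimal error: the functionals and the map `φ` depend on a random
element `ω` of a probability space, the error is a measurable function of the pair `(ω, f)` (with
the Borel sets of `F`), and the expected error is maximised over `f ∈ F`. -/
noncomputable def eRan {X Y : Type*} [NormedAddCommGroup X] [NormedSpace ℝ X]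
    [NormedAddCommGroup Y] [NormedSpace ℝ Y] (S : X →L[ℝ] Y) (F : Set X) (n : ℕ) : ℝ≥0∞ :=
  ⨅ (Ω : Type) (mΩ : MeasurableSpace Ω) (P : Measure Ω) (_ : IsProbabilityMeasure P)
    (L : Ω → Fin n → (X →L[ℝ] ℝ)) (φ : Ω → (Fin n → ℝ) → Y)
    (_ : @Measurable (Ω × F) ℝ≥0∞ (@Prod.instMeasurableSpace Ω F mΩ (borel F)) _
      (fun p => ‖S p.2.1 - φ p.1 (fun i => L p.1 i p.2.1)‖ₑ)),
    ⨆ f ∈ F, ∫⁻ ω, ‖S f - φ ω (fun i => L ω i f)‖ₑ ∂P

end Pool.Agent.H44.MG
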