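import Pool.Agent.H44.MG.Base

/-!
# Definitions: triangular systems, the test points, the density
-/

namespace Pool.Agent.H44.MG

open MeasureTheory ENNReal

/-- A triangular system of length `D` and size `d`. -/
structure Sys {X Y : Type*} [NormedAddCommGroup X] [NormedSpace ℝ X]
    [NormedAddCommGroup Y] [NormedSpace ℝ Y] (S : X →L[ℝ] Y) (F : Set X) (D : ℕ) (d : ℝ) where
  f : Fin D → X
  g : Fin D → X
  y : Fin D → (Y →L[ℝ] ℝ)
  hf : ∀ k, f k ∈ F
  hg : ∀ k, g k ∈ F
  hy : ∀ i, ‖y i‖ ≤ 1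
  tri : ∀ i k, i < k → y i (S (f k - g k)) = 0
  diag : ∀ k, y k (S (f k - g k)) = d
  bd : ∀ k, ‖S (f k - g k)‖ ≤ d

section

variable {X Y : Type*} [NormedAddCommGroup X] [NormedSpace ℝ X]
  [NormedAddCommGroup Y] [NormedSpace ℝ Y] {S : X →L[ℝ] Y} {F : Set X} {D : ℕ} {d : ℝ}

/-- The matrix of a system. -/
def Sys.mat (s : Sys S F D d) : Matrix (Fin D) (Fin D) ℝ :=
  Matrix.of fun i k => s.y i (S (s.f k - s.g k))

/-- The test points. -/
noncomputable def Sys.pt (s : Sys S F D d) (c0 : X) (w ξ : Fin D → ℝ) : X :=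
  (1 - ∑ k, w k) • c0 + ∑ k, (w k / 2) • (s.f k + s.g k) + ∑ k, (ξ k / 2) • (s.f k - s.g k)

/-- The vector of the values of a functional at the differences. -/
noncomputable def Sys.nvec (s : Sys S F D d) (N : X →L[ℝ] ℝ) : EuclideanSpace ℝ (Fin D) :=
  WithLp.toLp 2 (fun k => N (s.f k - s.g k))

end

/-- The rows of a matrix as vectors of a Euclidean space. -/
noncomputable def row {D : ℕ} (T : Matrix (Fin D) (Fin D) ℝ) (i : Fin D) :
    EuclideanSpace ℝ (Fin D) := WithLp.toLp 2 (fun k => T i k)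

/-- clipping to `[-1, 1]` -/
noncomputable def clip (x : ℝ) : ℝ := max (-1) (min 1 x)

/-- The density `(315/256) (1 - x²)⁴` on `[-1, 1]`. -/
noncomputable def dens (x : ℝ) : ℝ := if |x| < 1 then 315 / 256 * (1 - x ^ 2) ^ 4 else 0

/-- The product measure with this density. -/
noncomputable def muD (D : ℕ) : Measure (Fin D → ℝ) :=
  volume.withDensity (fun x => ENNReal.ofReal (∏ k, dens (x k)))

end Pool.Agent.H44.MG
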