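import Pool.Agent.H44.MG.Defs

/-!
# Definitions for the second theorem: the prior with random weights, families of directions
-/

namespace Pool.Agent.H44.MG

open MeasureTheory ENNReal

/-- The weight of the coordinate `k`. -/
noncomputable def wt (W : ℝ) {D : ℕ} (b : Fin D → Bool) (k : Fin D) : ℝ :=
  (if b k then W else 1) / (8 * D)

/-- The probability of `b` (independent coordinates, `true` with probability `1 / W`). -/
noncomputable def pb (W : ℝ) {D : ℕ} (b : Fin D → Bool) : ℝ :=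
  ∏ k, (if b k then 1 / W else 1 - 1 / W)

/-- `b` is admissible: at most `4 D / W` coordinates are `true`. -/
def Adm (W : ℝ) {D : ℕ} (b : Fin D → Bool) : Prop :=
  W * ((Finset.univ.filter (fun k => b k = true)).card : ℝ) ≤ 4 * D

/-- The expectation with respect to `b` and `x`. -/
noncomputable def EE (W : ℝ) {D : ℕ} (h : (Fin D → Bool) → (Fin D → ℝ) → ℝ) : ℝ :=
  ∑ b, pb W b * ∫ x, h b x * ∏ k, dens (x k)

/-- The shift of the variables `x`. -/
noncomputable def sh (A W : ℝ) {D : ℕ} (θ : Fin D → ℝ) (b : Fin D → Bool) (k : Fin D) : ℝ :=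
  A * θ k / (if b k then W else 1)

/-- A family of `q` directions which are nearly orthogonal, with disjoint sets
`K_i = {k | η ≤ |A θ_i k|}` of large coordinates. -/
structure Fam (A η ε : ℝ) {D q : ℕ} (θ : Fin q → Fin D → ℝ) : Prop where
  unit : ∀ i, ∑ k, θ i k ^ 2 = 1
  corr : ∀ i j, i ≠ j → |∑ k, θ i k * θ j k| ≤ ε
  disj : ∀ i j, i ≠ j → ∀ k, ¬ (η ≤ |A * θ i k| ∧ η ≤ |A * θ j k|)
  spill : ∀ i j, i ≠ j →
    ∑ k ∈ Finset.univ.filter (fun k => η ≤ |A * θ i k|), θ j k ^ 2 ≤ ε ^ 2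

/-! ### One coordinate -/

/-- the probability of the good interval `|x| ≤ 1 - 2|δ|` -/
noncomputable def gg (δ : ℝ) : ℝ := ∫ x, if |x| ≤ 1 - 2 * |δ| then dens x else 0

/-- the normalised indicator function of the good interval -/
noncomputable def sg (δ x : ℝ) : ℝ := if |x| ≤ 1 - 2 * |δ| then 1 / gg δ else 0

/-- the density (with respect to `dens`) of the shifted measure -/
noncomputable def rh (δ x : ℝ) : ℝ :=
  if |x - δ| ≤ 1 - 2 * |δ| then dens (x - δ) / (gg δ * dens x) else 0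

/-- expectation of a function of one coordinate `(b, x)` -/
noncomputable def ec (W : ℝ) (F : Bool → ℝ → ℝ) : ℝ :=
  (1 - 1 / W) * (∫ x, F false x * dens x) + 1 / W * (∫ x, F true x * dens x)

noncomputable def fac (A η W θ : ℝ) (b : Bool) : ℝ :=
  if η ≤ |A * θ| then (if b then W else 0) else 1

noncomputable def sgk (A η W θ : ℝ) (b : Bool) (x : ℝ) : ℝ :=
  fac A η W θ b * sg (A * θ / (if b then W else 1)) x

noncomputable def rhk (A η W θ : ℝ) (b : Bool) (x : ℝ) : ℝ :=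
  fac A η W θ b * rh (A * θ / (if b then W else 1)) x

/-- The properties of the functions `sgk` and `rhk` which are used for the second moments. -/
structure GoodG (A η W C κ : ℝ) (G : ℝ → Bool → ℝ → ℝ) : Prop where
  meas : ∀ θ b, Measurable (G θ b)
  nonneg : ∀ θ b x, |θ| ≤ 1 → 0 ≤ G θ b x
  bdd : ∃ B, ∀ θ b x, |θ| ≤ 1 → |G θ b x| ≤ B
  mean : ∀ θ, |θ| ≤ 1 → ec W (G θ) = 1
  ss : ∀ θ θ', |θ| ≤ 1 → |θ'| ≤ 1 → |A * θ| < η → |A * θ'| < η →
    ec W (fun b x => G θ b x * G θ' b x) ≤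
      1 + κ * (A ^ 2 * (θ * θ')) + C * η * (A ^ 2 * (θ ^ 2 + θ' ^ 2))
  ls : ∀ θ θ', |θ| ≤ 1 → |θ'| ≤ 1 → η ≤ |A * θ| → |A * θ'| < η →
    ec W (fun b x => G θ b x * G θ' b x) ≤
      1 + C * (A ^ 2 * |θ * θ'|) + C * η * (A ^ 2 * (θ ^ 2 + θ' ^ 2))
  ds : ∀ θ, |θ| ≤ 1 → |A * θ| < η → ec W (fun b x => G θ b x ^ 2) ≤ 1 + C * (A ^ 2 * θ ^ 2)
  dl : ∀ θ, |θ| ≤ 1 → η ≤ |A * θ| → ec W (fun b x => G θ b x ^ 2) ≤ C * W

/-- measurable and bounded -/
def Nice {D : ℕ} (h : (Fin D → Bool) → (Fin D → ℝ) → ℝ) : Prop :=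
  (∀ b, Measurable (h b)) ∧ ∃ B, ∀ b x, |h b x| ≤ B

end Pool.Agent.H44.MG
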