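import Mathlib

/-!
# FNA : the final inequality for real numbers

`d ^ (4n) = ∏_{k < 2n} lam k ≤ ∏_{m < n} lam (2m) ^ 2` (pair the factors `2m` and `2m + 1`) and
`lam (2m) ≤ 2n R m ^ 2 / (m + 1)`, so
`d ^ (4n) ≤ ((2n)^n / n!)² (∏ R m) ^ 4`, and `(2n)^n / n! ≤ (2e)^n` (`n ^ n / n! ≤ e ^ n`), `2 e ≤ 6`.
-/

namespace Pool.Agent.H44.MG

theorem FNA_pair (f : ℕ → ℝ) (n : ℕ) :
    ∏ k ∈ Finset.range (2 * n), f k = ∏ m ∈ Finset.range n, (f (2 * m) * f (2 * m + 1)) := by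
  induction n with
  | zero => simp
  | succ n ih =>
    rw [Nat.mul_succ, Finset.prod_range_succ, Finset.prod_range_succ, ih, Finset.prod_range_succ,
      mul_assoc]

theorem FNA_fact (n : ℕ) : ((2 * n : ℝ)) ^ n ≤ 6 ^ n * (n.factorial : ℝ) := by
  have h1 := Real.pow_div_factorial_le_exp (n : ℝ) (Nat.cast_nonneg n) n
  have hf : (0 : ℝ) < n.factorial := by exact_mod_cast Nat.factorial_pos n
  rw [div_le_iff₀ hf] at h1
  have h2 : Real.exp (n : ℝ) ≤ 3 ^ n := by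
    have h3 : Real.exp (n : ℝ) = Real.exp 1 ^ n := by
      rw [← Real.exp_nat_mul]; simp
    rw [h3]
    exact pow_le_pow_left₀ (Real.exp_pos 1).le Real.exp_one_lt_three.le n
  calc ((2 * n : ℝ)) ^ n = 2 ^ n * (n : ℝ) ^ n := by rw [mul_pow]
    _ ≤ 2 ^ n * (3 ^ n * n.factorial) := by
        apply mul_le_mul_of_nonneg_left _ (by positivity)
        exact h1.trans (mul_le_mul_of_nonneg_right h2 hf.le)
    _ = 6 ^ n * (n.factorial : ℝ) := by
        rw [← mul_assoc, ← mul_pow]; norm_num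

theorem final_real {n : ℕ} {d : ℝ} (hd : 0 ≤ d) (lam : Fin (2 * n) → ℝ) (ha : Antitone lam)
    (h0 : ∀ k, 0 ≤ lam k) (hp : ∏ k, lam k = d ^ (4 * n)) (R : ℕ → ℝ) (hR : ∀ m, 0 ≤ R m)
    (h : ∀ (m : ℕ) (hm : 2 * m < 2 * n), (m + 1) * lam ⟨2 * m, hm⟩ ≤ 2 * n * R m ^ 2) :
    d ^ (2 * n) ≤ 6 ^ n * (∏ m ∈ Finset.range n, R m) ^ 2 := by
  set f : ℕ → ℝ := fun k => if hk : k < 2 * n then lam ⟨k, hk⟩ else 0 with hf
  have hprod : ∏ k, lam k = ∏ k ∈ Finset.range (2 * n), f k := by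
    rw [Finset.prod_range]
    apply Finset.prod_congr rfl
    intro k _
    simp [hf]
  rw [hprod, FNA_pair] at hp
  have hle : ∏ m ∈ Finset.range n, (f (2 * m) * f (2 * m + 1)) ≤
      ∏ m ∈ Finset.range n, (2 * n * R m ^ 2 / (m + 1)) ^ 2 := by
    apply Finset.prod_le_prod
    · intro m hm
      rw [Finset.mem_range] at hm
      have h1 : 2 * m < 2 * n := by omega
      have h2 : 2 * m + 1 < 2 * n := by omega
      simp only [hf, dif_pos h1, dif_pos h2]
      exact mul_nonneg (h0 _) (h0 _)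
    · intro m hm
      rw [Finset.mem_range] at hm
      have h1 : 2 * m < 2 * n := by omega
      have h2 : 2 * m + 1 < 2 * n := by omega
      simp only [hf, dif_pos h1, dif_pos h2]
      have h3 : lam ⟨2 * m + 1, h2⟩ ≤ lam ⟨2 * m, h1⟩ := by
        apply ha
        exact Fin.mk_le_mk.2 (Nat.le_succ _)
      have h4 := h m h1
      have h5 : lam ⟨2 * m, h1⟩ ≤ 2 * n * R m ^ 2 / (m + 1) := by
        rw [le_div_iff₀ (by positivity)]
        linarith
      have h6 := h0 ⟨2 * m, h1⟩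
      have h7 := h0 ⟨2 * m + 1, h2⟩
      rw [sq]
      exact mul_le_mul h5 (h3.trans h5) h7 (h6.trans h5)
  rw [hp] at hle
  have heq : ∏ m ∈ Finset.range n, (2 * n * R m ^ 2 / ((m : ℝ) + 1)) ^ 2 =
      ((2 * n : ℝ) ^ n * (∏ m ∈ Finset.range n, R m) ^ 2 / n.factorial) ^ 2 := by
    rw [Finset.prod_pow, Finset.prod_div_distrib, Finset.prod_mul_distrib, Finset.prod_const,
      Finset.card_range, Finset.prod_pow]
    congr 2
    rw [← Finset.prod_range_add_one_eq_factorial]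
    push_cast
    rfl
  rw [heq] at hle
  have hfac : (0 : ℝ) < n.factorial := by exact_mod_cast Nat.factorial_pos n
  have h8 : (d ^ (2 * n)) ^ 2 ≤
      ((2 * n : ℝ) ^ n * (∏ m ∈ Finset.range n, R m) ^ 2 / n.factorial) ^ 2 := by
    have : (d ^ (2 * n)) ^ 2 = d ^ (4 * n) := by
      rw [← pow_mul]
      congr 1
      ring
    rw [this]
    exact hle
  have h9 := le_of_sq_le_sq h8 (by positivity)
  refine h9.trans ?_
  rw [div_le_iff₀ hfac]
  have h10 := mul_le_mul_of_nonneg_right (FNA_fact n)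
    (sq_nonneg (∏ m ∈ Finset.range n, R m))
  linarith

end Pool.Agent.H44.MG
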