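import Pool.Agent.H44.MG.Defs

/-!
# RED : from randomized algorithms to a prior and a deterministic algorithm

Take an algorithm `(Ω, P, L, φ)` with `sup_{f ∈ F} ∫⁻ error dP < ρ`. The function
`(ω, θ) ↦ error (ω, G θ)` is measurable, so by Tonelli
`∫⁻ ω, ∫⁻ θ, error dμ dP = ∫⁻ θ, ∫⁻ ω, error dP dμ < ρ` (μ is a probability measure), and there is `ω`
with `∫⁻ θ, error (ω, G θ) dμ < ρ`.
-/

namespace Pool.Agent.H44.MG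

open MeasureTheory ENNReal

variable {X Y : Type*} [NormedAddCommGroup X] [NormedSpace ℝ X]
  [NormedAddCommGroup Y] [NormedSpace ℝ Y] {S : X →L[ℝ] Y} {F : Set X}

theorem exists_det {Θ : Type} [MeasurableSpace Θ] (μ : Measure Θ) [IsProbabilityMeasure μ]
    (G : Θ → F) (hG : @Measurable Θ F _ (borel F) G) {m : ℕ} {ρ : ℝ≥0∞}
    (h : eRan S F m < ρ) :
    ∃ (N : Fin m → (X →L[ℝ] ℝ)) (φ : (Fin m → ℝ) → Y),
      Measurable (fun θ => ‖S (G θ).1 - φ (fun j => N j (G θ).1)‖ₑ) ∧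
      ∫⁻ θ, ‖S (G θ).1 - φ (fun j => N j (G θ).1)‖ₑ ∂μ < ρ := by
  unfold eRan at h
  simp only [iInf_lt_iff] at h
  obtain ⟨Ω, mΩ, P, hP, L, φ, hm, hlt⟩ := h
  letI : MeasurableSpace F := borel F
  have hm' : Measurable (fun p : Ω × Θ => ‖S (G p.2).1 - φ p.1 (fun j => L p.1 j (G p.2).1)‖ₑ) :=
    hm.comp (measurable_fst.prodMk (hG.comp measurable_snd))
  have h1 : ∫⁻ ω, ∫⁻ θ, ‖S (G θ).1 - φ ω (fun j => L ω j (G θ).1)‖ₑ ∂μ ∂P < ρ := by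
    rw [lintegral_lintegral_swap hm'.aemeasurable]
    refine lt_of_le_of_lt ?_ hlt
    calc ∫⁻ θ, ∫⁻ ω, ‖S (G θ).1 - φ ω (fun j => L ω j (G θ).1)‖ₑ ∂P ∂μ
        ≤ ∫⁻ _, (⨆ f ∈ F, ∫⁻ ω, ‖S f - φ ω (fun i => L ω i f)‖ₑ ∂P) ∂μ :=
          lintegral_mono fun θ => le_iSup₂_of_le (G θ).1 (G θ).2 le_rfl
      _ = _ := by simp
  obtain ⟨ω, hω⟩ : ∃ ω, ∫⁻ θ, ‖S (G θ).1 - φ ω (fun j => L ω j (G θ).1)‖ₑ ∂μ < ρ := by
    by_contra hall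
    push Not at hall
    have h2 : ρ ≤ ∫⁻ ω, ∫⁻ θ, ‖S (G θ).1 - φ ω (fun j => L ω j (G θ).1)‖ₑ ∂μ ∂P := by
      calc ρ = ∫⁻ _, ρ ∂P := by simp
        _ ≤ _ := lintegral_mono hall
    exact absurd h1 (not_lt.2 h2)
  exact ⟨L ω, φ ω, hm'.comp measurable_prodMk_left, hω⟩

end Pool.Agent.H44.MG
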