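import Pool.Agent.H44.MG.PRD

/-!
# TPL : the two point lemma

Put `P x = ∏ dens (x k)`. By translation invariance `∫⁻ h (x + v) P (x + v) dx = ∫⁻ h P dx`, so
`2 ∫⁻ h P ≥ ∫⁻ (h x + h (x + v)) min (P x) (P (x + v)) dx ≥ τ ∫⁻ min (P x) (P (x + v)) dx`: if the minimum is
not zero then `x` and `x + v` lie in the cube.
-/

namespace Pool.Agent.H44.MG

open MeasureTheory ENNReal

theorem TPL_dens_nonneg (x : ℝ) : 0 ≤ dens x := by
  unfold dens
  split_ifs with h
  · rw [abs_lt] at h
    have : 0 ≤ 1 - x ^ 2 := by nlinarith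
    positivity
  · exact le_refl _

theorem TPL_dens_meas : Measurable dens := by
  unfold dens
  exact Measurable.ite (measurableSet_lt (by fun_prop) measurable_const) (by fun_prop)
    measurable_const

theorem TPL_prod_nonneg {D : ℕ} (x : Fin D → ℝ) : 0 ≤ ∏ k, dens (x k) :=
  Finset.prod_nonneg fun k _ => TPL_dens_nonneg _

theorem TPL_prod_meas (D : ℕ) : Measurable (fun x : Fin D → ℝ => ∏ k, dens (x k)) :=
  Finset.measurable_prod _ fun k _ => TPL_dens_meas.comp (measurable_pi_apply k)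

theorem TPL_prod_pos {D : ℕ} {x : Fin D → ℝ} (h : ∏ k, dens (x k) ≠ 0) (k : Fin D) :
    |x k| ≤ 1 := by
  by_contra hk
  push Not at hk
  apply h
  apply Finset.prod_eq_zero (Finset.mem_univ k)
  unfold dens
  rw [if_neg (by linarith)]

theorem two_point {D : ℕ} (h : (Fin D → ℝ) → ℝ≥0∞) (hm : Measurable h) (v : Fin D → ℝ)
    (hv : ∑ k, v k ^ 2 ≤ 1 / 24) (τ : ℝ) (hτ : 0 ≤ τ)
    (hh : ∀ x : Fin D → ℝ, (∀ k, |x k| ≤ 1) → (∀ k, |x k + v k| ≤ 1) →
      ENNReal.ofReal τ ≤ h x + h (x + v)) :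
    ENNReal.ofReal (9 / 64 * τ) ≤ ∫⁻ x, h x ∂(muD D) := by
  set P : (Fin D → ℝ) → ℝ := fun x => ∏ k, dens (x k) with hP
  have hPm : Measurable P := TPL_prod_meas D
  have hPn : ∀ x, 0 ≤ P x := fun x => TPL_prod_nonneg x
  have hPi : Integrable P := integrable_prod_dens D
  have e1 : ∫⁻ x, h x ∂(muD D) = ∫⁻ x, ENNReal.ofReal (P x) * h x := by
    unfold muD
    rw [lintegral_withDensity_eq_lintegral_mul _ hPm.ennreal_ofReal hm]
    rfl
  have e2 : ∫⁻ x, ENNReal.ofReal (P (x + v)) * h (x + v) =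
      ∫⁻ x, ENNReal.ofReal (P x) * h x :=
    lintegral_add_right_eq_self (fun x => ENNReal.ofReal (P x) * h x) v
  have hPv : Measurable fun x : Fin D → ℝ => P (x + v) := hPm.comp (measurable_add_const v)
  have hhv : Measurable fun x : Fin D → ℝ => h (x + v) := hm.comp (measurable_add_const v)
  have key : ENNReal.ofReal τ * ∫⁻ x, ENNReal.ofReal (min (P x) (P (x + v))) ≤
      2 * ∫⁻ x, h x ∂(muD D) := by
    rw [two_mul, e1]
    nth_rewrite 2 [← e2]
    rw [← lintegral_add_left (by exact (hPm.ennreal_ofReal).mul hm), ← lintegral_const_mul']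
    · apply lintegral_mono
      intro x
      show ENNReal.ofReal τ * ENNReal.ofReal (min (P x) (P (x + v))) ≤
        ENNReal.ofReal (P x) * h x + ENNReal.ofReal (P (x + v)) * h (x + v)
      by_cases h0 : min (P x) (P (x + v)) = 0
      · rw [h0]
        simp
      · have hx : P x ≠ 0 := fun h1 => h0 (by rw [h1]; exact min_eq_left (hPn _))
        have hxv : P (x + v) ≠ 0 := fun h1 => h0 (by rw [h1]; exact min_eq_right (hPn _))
        have h1 := hh x (fun k => TPL_prod_pos hx k) (fun k => TPL_prod_pos hxv k)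
        calc ENNReal.ofReal τ * ENNReal.ofReal (min (P x) (P (x + v)))
            ≤ (h x + h (x + v)) * ENNReal.ofReal (min (P x) (P (x + v))) := by gcongr
          _ = ENNReal.ofReal (min (P x) (P (x + v))) * h x +
              ENNReal.ofReal (min (P x) (P (x + v))) * h (x + v) := by ring
          _ ≤ _ := by
            gcongr
            · exact min_le_left _ _
            · exact min_le_right _ _
    · exact ENNReal.ofReal_ne_top
  have hmin : Integrable (fun x : Fin D → ℝ => min (P x) (P (x + v))) :=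
    hPi.inf (hPi.comp_add_right v)
  have e3 : ENNReal.ofReal (9 / 32) ≤ ∫⁻ x, ENNReal.ofReal (min (P x) (P (x + v))) := by
    rw [← ofReal_integral_eq_lintegral_ofReal hmin
      (Filter.Eventually.of_forall fun x => le_min (hPn _) (hPn _))]
    exact ENNReal.ofReal_le_ofReal (min_dens v hv)
  have h4 : 2 * ENNReal.ofReal (9 / 64 * τ) ≤ 2 * ∫⁻ x, h x ∂(muD D) := by
    refine le_trans ?_ (le_trans (mul_le_mul_right e3 (ENNReal.ofReal τ)) key)
    rw [← ENNReal.ofReal_mul hτ, show (2 : ℝ≥0∞) = ENNReal.ofReal 2 by simp,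
      ← ENNReal.ofReal_mul (by norm_num)]
    apply ENNReal.ofReal_le_ofReal
    linarith
  exact (ENNReal.mul_le_mul_iff_right (by norm_num) (by norm_num)).1 h4

end Pool.Agent.H44.MG
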