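import Pool.Agent.H44.MG.PTM
import Pool.Agent.H44.MG.RED
import Pool.Agent.H44.MG.TPL

/-!
# LOW : the rows of the matrix are close to a subspace of small dimension

`w k = 1 / D`, `ξ k = clip (x k) / D`, `Θ = Fin D → ℝ` with the measure `muD D`, `G x = pt c0 w ξ` (in
`F` by `pt_mem`; continuous, so Borel measurable). Take `N`, `φ` from `exists_det` and let `K` be the span
of the vectors `nvec (N j)`. For a row `t = row s.mat i` put `u = Kᗮ.starProjection t`. If `u = 0` there
is nothing to do. Otherwise `v = u / (√24 ‖u‖)` satisfies `∑ v k ^ 2 = 1 / 24`, `v ⟂ nvec (N j)` and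
`∑ s.mat i k * v k = ⟪t, v⟫ = ‖u‖ / √24`. `two_point` with
`τ = ‖u‖ / (2 √24 D)` (`Sys.two_err` applied to `ξ`, `v / D`) gives `(9/64) τ ≤ ρ`, and
`64 · 2 · √24 / 9 ≤ 70`.
-/

namespace Pool.Agent.H44.MG

open MeasureTheory ENNReal Module

variable {X Y : Type*} [NormedAddCommGroup X] [NormedSpace ℝ X]
  [NormedAddCommGroup Y] [NormedSpace ℝ Y] {S : X →L[ℝ] Y} {F : Set X} {D : ℕ} {d : ℝ}

theorem exists_close (s : Sys S F D d) (hF : Convex ℝ F) (hne : F.Nonempty) (hD : 0 < D)
    {m : ℕ} {ρ : ℝ} (hρ : eRan S F m < ENNReal.ofReal ρ) :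
    ∃ K : Submodule ℝ (EuclideanSpace ℝ (Fin D)), finrank ℝ K ≤ m ∧
      ∀ i, ‖Kᗮ.starProjection (row s.mat i)‖ ≤ 70 * D * ρ := by
  obtain ⟨c0, hc0⟩ := hne
  have hDr : (0 : ℝ) < D := by exact_mod_cast hD
  have hρ0 : 0 < ρ := by
    by_contra hcon
    rw [ENNReal.ofReal_of_nonpos (not_lt.mp hcon)] at hρ
    exact absurd hρ (by simp)
  set w : Fin D → ℝ := fun _ => 1 / D with hwdef
  set ξ : (Fin D → ℝ) → Fin D → ℝ := fun x k => clip (x k) / D with hξdef
  have hw1 : ∑ k, w k ≤ 1 := by
    simp only [hwdef, Finset.sum_const, Finset.card_univ, Fintype.card_fin, nsmul_eq_mul]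
    rw [mul_one_div_cancel hDr.ne']
  have hξw : ∀ x k, |ξ x k| ≤ w k := by
    intro x k
    simp only [hξdef, hwdef, abs_div, abs_of_pos hDr]
    exact div_le_div_of_nonneg_right (abs_clip_le _) hDr.le
  have hcont : Continuous fun x : Fin D → ℝ => s.pt c0 w (ξ x) := by
    refine (s.continuous_pt c0 w).comp ?_
    refine continuous_pi fun k => ?_
    exact (continuous_clip.comp (continuous_apply k)).div_const _
  let G : (Fin D → ℝ) → F := fun x => ⟨s.pt c0 w (ξ x), s.pt_mem hF hc0 hw1 (hξw x)⟩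
  have hG : @Measurable (Fin D → ℝ) F _ (borel F) G := by
    let _ : MeasurableSpace F := borel F
    have _ : BorelSpace F := ⟨rfl⟩
    exact (hcont.subtype_mk _).measurable
  obtain ⟨N, φ, hmeas, hlt⟩ := exists_det (muD D) G hG hρ
  refine ⟨Submodule.span ℝ (Set.range fun j => s.nvec (N j)), ?_, ?_⟩
  · have := finrank_range_le_card (R := ℝ) (b := fun j => s.nvec (N j))
    simpa [Set.finrank] using this
  intro i
  set K := Submodule.span ℝ (Set.range fun j => s.nvec (N j)) with hK
  set t := row s.mat i with ht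
  set u := Kᗮ.starProjection t with hu
  by_cases hu0 : u = 0
  · rw [hu0, norm_zero]; positivity
  have hun : 0 < ‖u‖ := norm_pos_iff.mpr hu0
  set q : ℝ := Real.sqrt 24 with hq
  have hq0 : 0 < q := Real.sqrt_pos.mpr (by norm_num)
  have hq2 : q ^ 2 = 24 := Real.sq_sqrt (by norm_num)
  have huK : u ∈ Kᗮ := by
    rw [hu]; exact Submodule.starProjection_apply_mem _ _
  have hinner : ∑ k, s.mat i k * u k = ‖u‖ ^ 2 := by
    have h1 : inner ℝ t u = ‖u‖ ^ 2 := by
      have h2 : inner ℝ (t - u) u = 0 := by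
        have h3 : t - u ∈ Kᗮᗮ := by
          rw [hu]
          exact Submodule.sub_starProjection_mem_orthogonal _
        exact Submodule.inner_left_of_mem_orthogonal huK h3
      rw [inner_sub_left, sub_eq_zero] at h2
      rw [h2, real_inner_self_eq_norm_sq]
    rw [← h1]
    simp only [ht, row, PiLp.inner_apply, RCLike.inner_apply, conj_trivial]
    exact Finset.sum_congr rfl fun k _ => mul_comm _ _
  have horth : ∀ j, ∑ k, N j (s.f k - s.g k) * u k = 0 := by
    intro j
    have h0 : s.nvec (N j) ∈ K := Submodule.subset_span (Set.mem_range_self j)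
    have h1 : inner ℝ (s.nvec (N j)) u = 0 :=
      Submodule.inner_right_of_mem_orthogonal h0 huK
    rw [← h1]
    simp only [Sys.nvec, PiLp.inner_apply, RCLike.inner_apply, conj_trivial]
    exact Finset.sum_congr rfl fun k _ => mul_comm _ _
  have hnorm : ∑ k, u k ^ 2 = ‖u‖ ^ 2 := by
    rw [EuclideanSpace.norm_sq_eq]
    exact Finset.sum_congr rfl fun k _ => by rw [Real.norm_eq_abs, sq_abs]
  set v : Fin D → ℝ := fun k => u k / (q * ‖u‖) with hv
  have hv24 : ∑ k, v k ^ 2 ≤ 1 / 24 := by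
    have : ∑ k, v k ^ 2 = (∑ k, u k ^ 2) / (q * ‖u‖) ^ 2 := by
      rw [Finset.sum_div]
      exact Finset.sum_congr rfl fun k _ => by rw [hv, div_pow]
    rw [this, hnorm, mul_pow, hq2]
    apply le_of_eq
    field_simp
  have hkey := two_point (fun x => ‖S (G x).1 - φ (fun j => N j (G x).1)‖ₑ) hmeas v hv24
    (‖u‖ / (2 * q * D)) (by positivity) ?_
  · have h1 : ENNReal.ofReal (9 / 64 * (‖u‖ / (2 * q * D))) < ENNReal.ofReal ρ :=
      lt_of_le_of_lt hkey hlt
    rw [ENNReal.ofReal_lt_ofReal_iff hρ0] at h1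
    have h2 : 9 * ‖u‖ < 128 * q * D * ρ := by
      have h3 : 9 / 64 * (‖u‖ / (2 * q * D)) = 9 * ‖u‖ / (128 * q * D) := by
        field_simp; ring
      rw [h3, div_lt_iff₀ (by positivity)] at h1
      linarith
    have hq5 : q ≤ 49 / 10 := by
      rw [hq]
      rw [Real.sqrt_le_left (by norm_num)]
      norm_num
    have h4 : 128 * q * D * ρ ≤ 128 * (49 / 10) * D * ρ := by
      have : 0 < (D : ℝ) * ρ := by positivity
      nlinarith
    have h5 : 0 < (D : ℝ) * ρ := by positivity
    nlinarith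
  · intro x hx hxv
    have e1 : ξ x = fun k => x k / D := by
      funext k; simp only [hξdef]; rw [clip_of_abs_le (hx k)]
    have e2 : ξ (x + v) = ξ x + fun k => v k / D := by
      funext k
      rw [e1]
      simp only [hξdef, Pi.add_apply]
      rw [clip_of_abs_le (hxv k), add_div]
    have h1 := s.two_err c0 w (ξ x) (fun k => v k / D) i N φ (by
      intro j
      have : ∑ k, N j (s.f k - s.g k) * (v k / D) =
          (∑ k, N j (s.f k - s.g k) * u k) / (q * ‖u‖ * D) := by
        rw [Finset.sum_div]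
        refine Finset.sum_congr rfl fun k _ => ?_
        rw [hv]; field_simp
      rw [this, horth j, zero_div])
    have h2 : ∑ k, s.mat i k * (v k / D) = ‖u‖ / (q * D) := by
      have : ∑ k, s.mat i k * (v k / D) = (∑ k, s.mat i k * u k) / (q * ‖u‖ * D) := by
        rw [Finset.sum_div]
        refine Finset.sum_congr rfl fun k _ => ?_
        rw [hv]; field_simp
      rw [this, hinner]
      field_simp
    rw [h2, abs_of_pos (by positivity), ← e2] at h1
    have h3 : ‖u‖ / (2 * q * D) ≤ ‖S (G x).1 - φ (fun j => N j (G x).1)‖ +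
        ‖S (G (x + v)).1 - φ (fun j => N j (G (x + v)).1)‖ := by
      refine le_trans (le_of_eq ?_) h1
      field_simp
    calc ENNReal.ofReal (‖u‖ / (2 * q * D)) ≤ ENNReal.ofReal _ := ENNReal.ofReal_le_ofReal h3
      _ = _ := by
        rw [ENNReal.ofReal_add (norm_nonneg _) (norm_nonneg _), ofReal_norm, ofReal_norm]

end Pool.Agent.H44.MG
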