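import Pool.Agent.H44.MG.SPC

/-!
# RNK : singular values of a matrix whose rows are close to a subspace

`H` = span of `b 0, …, b (2m)` (dimension `2m + 1`), `E = H ⊓ Kᗮ` has dimension at least
`(2m + 1) + (D - m) - D = m + 1`. Let `o` be an orthonormal basis of `E` (`stdOrthonormalBasis`). For
every `l`: `∑ i ⟪t i, o l⟫² = ∑ k lam k ⟪b k, o l⟫² ≥ lam (2m) ∑ k ⟪b k, o l⟫² = lam (2m)`, since
`⟪b k, o l⟫ = 0` for `k > 2m`. For every `i`, by Bessel's inequality,
`∑ l ⟪t i, o l⟫² = ∑ l ⟪P t i, o l⟫² ≤ ‖P t i‖² ≤ R²` with `P = Kᗮ.starProjection`.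
-/

namespace Pool.Agent.H44.MG

open Module

theorem Spec.lam_le {D : ℕ} {T : Matrix (Fin D) (Fin D) ℝ}
    {b : OrthonormalBasis (Fin D) ℝ (EuclideanSpace ℝ (Fin D))} {lam : Fin D → ℝ}
    (h : Spec T b lam) {m : ℕ} (hm : 2 * m < D)
    (K : Submodule ℝ (EuclideanSpace ℝ (Fin D))) (hK : finrank ℝ K ≤ m) {R : ℝ}
    (hR : ∀ i, ‖Kᗮ.starProjection (row T i)‖ ≤ R) :
    (m + 1) * lam ⟨2 * m, hm⟩ ≤ D * R ^ 2 := by
  set v : Fin (2 * m + 1) → EuclideanSpace ℝ (Fin D) := fun j => b ⟨j, by omega⟩ with hv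
  have hvi : LinearIndependent ℝ v := by
    refine b.orthonormal.linearIndependent.comp (fun j : Fin (2 * m + 1) => (⟨j, by omega⟩ : Fin D)) ?_
    intro i j hij
    simp only [Fin.mk.injEq] at hij
    exact Fin.ext hij
  set H : Submodule ℝ (EuclideanSpace ℝ (Fin D)) := Submodule.span ℝ (Set.range v) with hH
  have hHf : finrank ℝ H = 2 * m + 1 := by
    rw [hH, finrank_span_eq_card hvi, Fintype.card_fin]
  set E : Submodule ℝ (EuclideanSpace ℝ (Fin D)) := H ⊓ Kᗮ with hE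
  have hEf : m + 1 ≤ finrank ℝ E := by
    have h1 := Submodule.finrank_sup_add_finrank_inf_eq H Kᗮ
    have h2 := Submodule.finrank_add_finrank_orthogonal K
    have h3 : finrank ℝ (EuclideanSpace ℝ (Fin D)) = D := by simp
    have h4 := Submodule.finrank_le (H ⊔ Kᗮ)
    rw [h3] at h2 h4
    rw [← hE] at h1
    omega
  set o := stdOrthonormalBasis ℝ E with ho
  have hperp : ∀ (x : EuclideanSpace ℝ (Fin D)), x ∈ H → ∀ k : Fin D, 2 * m < k →
      inner ℝ (b k) x = 0 := by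
    intro x hx k hk
    have : H ≤ (ℝ ∙ (b k))ᗮ := by
      rw [hH, Submodule.span_le]
      rintro _ ⟨j, rfl⟩
      rw [SetLike.mem_coe, Submodule.mem_orthogonal_singleton_iff_inner_right]
      refine b.orthonormal.2 ?_
      intro hcon
      have := congrArg Fin.val hcon
      simp only at this
      omega
    exact (Submodule.mem_orthogonal_singleton_iff_inner_right).1 (this hx)
  have hlow : ∀ l, lam ⟨2 * m, hm⟩ ≤ ∑ i, inner ℝ (row T i) (o l : EuclideanSpace ℝ (Fin D)) ^ 2 := by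
    intro l
    have hl : (o l : EuclideanSpace ℝ (Fin D)) ∈ H := (o l).2.1
    have hn : ‖(o l : EuclideanSpace ℝ (Fin D))‖ = 1 := by
      rw [Submodule.norm_coe]
      exact o.orthonormal.1 l
    rw [h.sq]
    have h1 := b.sum_sq_norm_inner_right (o l : EuclideanSpace ℝ (Fin D))
    rw [hn] at h1
    have h2 : lam ⟨2 * m, hm⟩ = ∑ k, lam ⟨2 * m, hm⟩ *
        inner ℝ (b k) (o l : EuclideanSpace ℝ (Fin D)) ^ 2 := by
      rw [← Finset.mul_sum]
      have : ∑ k, inner ℝ (b k) (o l : EuclideanSpace ℝ (Fin D)) ^ 2 = 1 := by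
        rw [one_pow] at h1
        rw [← h1]
        refine Finset.sum_congr rfl fun k _ => ?_
        rw [Real.norm_eq_abs, sq_abs]
      rw [this, mul_one]
    rw [h2]
    refine Finset.sum_le_sum fun k _ => ?_
    rcases le_or_gt (k : ℕ) (2 * m) with hk | hk
    · exact mul_le_mul_of_nonneg_right (h.anti (by exact hk)) (sq_nonneg _)
    · rw [hperp _ hl k hk]
      simp
  have hup : ∀ i, ∑ l, inner ℝ (row T i) (o l : EuclideanSpace ℝ (Fin D)) ^ 2 ≤ R ^ 2 := by
    intro i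
    have h1 : ∀ l, inner ℝ (row T i) (o l : EuclideanSpace ℝ (Fin D))
        = inner ℝ (o l : EuclideanSpace ℝ (Fin D)) (Kᗮ.starProjection (row T i)) := by
      intro l
      have hl : (o l : EuclideanSpace ℝ (Fin D)) ∈ Kᗮ := (o l).2.2
      rw [← Submodule.inner_starProjection_left_eq_right,
        Submodule.starProjection_eq_self_iff.2 hl, real_inner_comm]
    have hon : Orthonormal ℝ fun l => (o l : EuclideanSpace ℝ (Fin D)) :=
      o.orthonormal.comp_linearIsometry E.subtypeₗᵢ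
    have h2 := hon.sum_inner_products_le (Kᗮ.starProjection (row T i)) (s := Finset.univ)
    calc ∑ l, inner ℝ (row T i) (o l : EuclideanSpace ℝ (Fin D)) ^ 2
        = ∑ l, ‖inner ℝ (o l : EuclideanSpace ℝ (Fin D)) (Kᗮ.starProjection (row T i))‖ ^ 2 := by
          refine Finset.sum_congr rfl fun l _ => ?_
          rw [h1, Real.norm_eq_abs, sq_abs]
      _ ≤ ‖Kᗮ.starProjection (row T i)‖ ^ 2 := h2
      _ ≤ R ^ 2 := pow_le_pow_left₀ (norm_nonneg _) (hR i) 2
  have hl0 := h.nonneg ⟨2 * m, hm⟩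
  calc ((m : ℝ) + 1) * lam ⟨2 * m, hm⟩ ≤ (finrank ℝ E : ℝ) * lam ⟨2 * m, hm⟩ := by
        refine mul_le_mul_of_nonneg_right ?_ hl0
        exact_mod_cast hEf
    _ = ∑ _l : Fin (finrank ℝ E), lam ⟨2 * m, hm⟩ := by
        rw [Finset.sum_const, Finset.card_univ, Fintype.card_fin, nsmul_eq_mul]
    _ ≤ ∑ l, ∑ i, inner ℝ (row T i) (o l : EuclideanSpace ℝ (Fin D)) ^ 2 :=
        Finset.sum_le_sum fun l _ => hlow l
    _ = ∑ i, ∑ l, inner ℝ (row T i) (o l : EuclideanSpace ℝ (Fin D)) ^ 2 := Finset.sum_comm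
    _ ≤ ∑ _i : Fin D, R ^ 2 := Finset.sum_le_sum fun i _ => hup i
    _ = D * R ^ 2 := by rw [Finset.sum_const, Finset.card_univ, Fintype.card_fin, nsmul_eq_mul]

end Pool.Agent.H44.MG
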