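import Pool.Agent.H44.MG.SYS
import Pool.Agent.H44.MG.LOW
import Pool.Agent.H44.MG.RNK
import Pool.Agent.H44.MG.FNA

/-!
# FNB : Theorem R1

Let `n ≥ 1`, `0 < d`, `ENNReal.ofReal d < eDet S F (2n - 1)`; take a system of length `D = 2n` and its
spectrum. `core`: if for all `m < n` there is a subspace `K` with `finrank K ≤ m` and all rows within `R m`
of it, then `d ^ (2n) ≤ 6 ^ n (∏ R m)²` (`Spec.lam_le`, `final_real`,
`∏ lam = det² = d ^ (4n)`).

By `exists_close` one can take `R m = 140 n ρ m` for every `ρ m` with `eRan S F m < ofReal (ρ m)`; one can always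
take `R m = 2n d` (`K = ⊥`, `|mat| ≤ d`).

If some `eRan S F k = ⊤` and the product of the `eRan` is not zero then the right hand side is
`⊤`. If some `eRan S F k = 0` then `R k = 140 n ρ` with arbitrarily small `ρ` and fixed other `R m` (finite:
`R m = 2n d` where `eRan S F m = ⊤`) give `d = 0`, a contradiction, so `eDet S F (2n - 1) = 0`. If all
`eRan` are finite and positive, let `ρ m ↓ eRan S F m`:
`d ≤ √6 · 140 n (∏ eRan)^(1/n) ≤ 400 n (∏ eRan)^(1/n)`.
-/

namespace Pool.Agent.H44.MG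

open MeasureTheory ENNReal Module

variable {X Y : Type*} [NormedAddCommGroup X] [NormedSpace ℝ X]
  [NormedAddCommGroup Y] [NormedSpace ℝ Y] {S : X →L[ℝ] Y} {F : Set X}

theorem FNB_det {D : ℕ} {d : ℝ} (s : Sys S F D d) : s.mat.det = d ^ D := by
  have htri : s.mat.BlockTriangular OrderDual.toDual := by
    intro i k hik
    have hlt : i < k := by simpa using hik
    exact s.tri i k hlt
  rw [Matrix.det_of_lowerTriangular s.mat htri]
  have : ∀ i, s.mat i i = d := fun i => s.diag i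
  simp [this]

theorem FNB_entry {D : ℕ} {d : ℝ} (s : Sys S F D d) (i k : Fin D) : |s.mat i k| ≤ d := by
  have h1 : |s.y i (S (s.f k - s.g k))| ≤ ‖s.y i‖ * ‖S (s.f k - s.g k)‖ := (s.y i).le_opNorm _
  have h2 : ‖s.y i‖ * ‖S (s.f k - s.g k)‖ ≤ 1 * ‖S (s.f k - s.g k)‖ :=
    mul_le_mul_of_nonneg_right (s.hy i) (norm_nonneg _)
  have h3 := s.bd k
  change |s.y i (S (s.f k - s.g k))| ≤ d
  linarith

/-- The norm of a row is at most `D d`. -/
theorem FNB_row {D : ℕ} {d : ℝ} (s : Sys S F D d) (hd : 0 ≤ d) (i : Fin D) :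
    ‖row s.mat i‖ ≤ D * d := by
  have hD : 1 ≤ (D : ℝ) := by
    have : 0 < D := i.pos
    exact_mod_cast this
  rw [EuclideanSpace.norm_eq]
  apply Real.sqrt_le_iff.mpr
  refine ⟨by positivity, ?_⟩
  calc ∑ k, ‖(row s.mat i) k‖ ^ 2 ≤ ∑ _k : Fin D, d ^ 2 := by
        apply Finset.sum_le_sum
        intro k _
        have h1 := FNB_entry s i k
        have h2 : ‖(row s.mat i) k‖ = |s.mat i k| := rfl
        rw [h2]
        exact pow_le_pow_left₀ (abs_nonneg _) h1 2
    _ = D * d ^ 2 := by simp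
    _ ≤ (D * d) ^ 2 := by
        have : (D * d) ^ 2 = D * (D * d ^ 2) := by ring
        rw [this]
        have : (0 : ℝ) ≤ D * d ^ 2 := by positivity
        nlinarith

theorem core (hF : Convex ℝ F) {n : ℕ} (hn : 1 ≤ n) {d : ℝ} (hd : 0 < d)
    (s : Sys S F (2 * n) d) (R : ℕ → ℝ) (hR : ∀ m, 0 ≤ R m)
    (h : ∀ m, m < n → ∃ K : Submodule ℝ (EuclideanSpace ℝ (Fin (2 * n))), finrank ℝ K ≤ m ∧
      ∀ i, ‖Kᗮ.starProjection (row s.mat i)‖ ≤ R m) :
    d ^ (2 * n) ≤ 6 ^ n * (∏ m ∈ Finset.range n, R m) ^ 2 := by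
  obtain ⟨b, lam, hs⟩ := exists_spec s.mat
  refine final_real hd.le lam hs.anti hs.nonneg ?_ R hR ?_
  · rw [← hs.det, FNB_det]
    ring
  · intro m hm
    obtain ⟨K, hK, hKR⟩ := h m (by omega)
    have := hs.lam_le hm K hK hKR
    push_cast at this
    exact this

/-- The trivial choice `K = ⊥`. -/
theorem FNB_bot {n : ℕ} {d : ℝ} (hd : 0 < d) (s : Sys S F (2 * n) d) (m : ℕ) :
    ∃ K : Submodule ℝ (EuclideanSpace ℝ (Fin (2 * n))), finrank ℝ K ≤ m ∧
      ∀ i, ‖Kᗮ.starProjection (row s.mat i)‖ ≤ 2 * n * d := by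
  refine ⟨⊥, by simp, fun i => ?_⟩
  have h1 : ‖(⊥ : Submodule ℝ (EuclideanSpace ℝ (Fin (2 * n))))ᗮ.starProjection (row s.mat i)‖ ≤
      ‖row s.mat i‖ := Submodule.norm_starProjection_apply_le _ _
  have h2 := FNB_row s hd.le i
  push_cast at h2
  linarith

/-- The choice with the randomized error. -/
theorem FNB_close (hF : Convex ℝ F) (hne : F.Nonempty) {n : ℕ} (hn : 1 ≤ n) {d : ℝ}
    (s : Sys S F (2 * n) d) {m : ℕ} {ρ : ℝ} (hρ : eRan S F m < ENNReal.ofReal ρ) :
    ∃ K : Submodule ℝ (EuclideanSpace ℝ (Fin (2 * n))), finrank ℝ K ≤ m ∧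
      ∀ i, ‖Kᗮ.starProjection (row s.mat i)‖ ≤ 140 * n * ρ := by
  obtain ⟨K, hK, h⟩ := exists_close s hF hne (by omega) hρ
  refine ⟨K, hK, fun i => (h i).trans (le_of_eq ?_)⟩
  push_cast
  ring

/-- If some `eRan` vanishes there is no system. -/
theorem FNB_zero (hF : Convex ℝ F) (hne : F.Nonempty) {n : ℕ} (hn : 1 ≤ n) {d : ℝ} (hd : 0 < d)
    (s : Sys S F (2 * n) d) {k : ℕ} (hk : k < n) (h0 : eRan S F k = 0) : False := by
  have hn0 : (0 : ℝ) < n := by exact_mod_cast hn
  -- the constant in front of `ρ ^ 2`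
  set C : ℝ := 6 ^ n * ((140 * n) ^ 2 * (∏ _m ∈ (Finset.range n).erase k, (2 * n * d)) ^ 2) with hC
  have hCpos : 0 < C := by
    have : 0 < ∏ _m ∈ (Finset.range n).erase k, (2 * n * d) :=
      Finset.prod_pos fun _ _ => by positivity
    positivity
  have key : ∀ ρ : ℝ, 0 < ρ → d ^ (2 * n) ≤ C * ρ ^ 2 := by
    intro ρ hρ
    have := core hF hn hd s (fun m => if m = k then 140 * n * ρ else 2 * n * d)
      (fun m => by
        by_cases hm : m = k
        · simp only [hm, if_true]; positivity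
        · simp only [hm, if_false]; positivity)
      (fun m _ => by
        by_cases hm : m = k
        · simp only [hm, if_true]
          refine FNB_close hF hne hn s ?_
          rw [h0]
          simpa using hρ
        · simp only [hm, if_false]
          exact FNB_bot hd s m)
    refine this.trans (le_of_eq ?_)
    rw [← Finset.mul_prod_erase _ _ (Finset.mem_range.mpr hk)]
    have h2 : ∏ x ∈ (Finset.range n).erase k, (if x = k then 140 * (n : ℝ) * ρ else 2 * n * d) =
        ∏ _m ∈ (Finset.range n).erase k, (2 * n * d) := by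
      apply Finset.prod_congr rfl
      intro x hx
      rw [if_neg (Finset.ne_of_mem_erase hx)]
    rw [h2]
    simp only [if_true]
    rw [hC]
    ring
  have hdn : 0 < d ^ (2 * n) := by positivity
  have hρ : 0 < Real.sqrt (d ^ (2 * n) / (2 * C)) := Real.sqrt_pos.mpr (by positivity)
  have := key _ hρ
  rw [Real.sq_sqrt (by positivity)] at this
  have h2 : C * (d ^ (2 * n) / (2 * C)) = d ^ (2 * n) / 2 := by
    field_simp
  rw [h2] at this
  linarith

/-- The finite positive case. -/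
theorem FNB_fin (hF : Convex ℝ F) (hne : F.Nonempty) {n : ℕ} (hn : 1 ≤ n) {d : ℝ} (hd : 0 < d)
    (s : Sys S F (2 * n) d) (h0 : ∀ k < n, eRan S F k ≠ 0) (ht : ∀ k < n, eRan S F k ≠ ⊤) :
    d ^ n ≤ (400 * n) ^ n * ∏ k ∈ Finset.range n, (eRan S F k).toReal := by
  have hn0 : (0 : ℝ) < n := by exact_mod_cast hn
  have hprod : 0 ≤ ∏ k ∈ Finset.range n, (eRan S F k).toReal :=
    Finset.prod_nonneg fun _ _ => ENNReal.toReal_nonneg
  have := core hF hn hd s (fun m => 140 * n * (8 / 7 * (eRan S F m).toReal))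
      (fun m => by positivity)
      (fun m hm => by
        refine FNB_close hF hne hn s ?_
        have hpos : 0 < (eRan S F m).toReal := ENNReal.toReal_pos (h0 m hm) (ht m hm)
        rw [← ENNReal.ofReal_toReal (ht m hm)]
        rw [ENNReal.ofReal_lt_ofReal_iff (by
          rw [ENNReal.toReal_ofReal ENNReal.toReal_nonneg]; positivity)]
        rw [ENNReal.toReal_ofReal ENNReal.toReal_nonneg]
        linarith)
  have h1 : ∏ m ∈ Finset.range n, (140 * (n : ℝ) * (8 / 7 * (eRan S F m).toReal)) =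
      (160 * n) ^ n * ∏ k ∈ Finset.range n, (eRan S F k).toReal := by
    have h2 : ∀ m, 140 * (n : ℝ) * (8 / 7 * (eRan S F m).toReal) =
        (160 * n) * (eRan S F m).toReal := fun m => by ring
    simp_rw [h2]
    rw [Finset.prod_mul_distrib]
    simp
  rw [h1] at this
  have h3 : (d ^ n) ^ 2 ≤ ((400 * n) ^ n * ∏ k ∈ Finset.range n, (eRan S F k).toReal) ^ 2 := by
    calc (d ^ n) ^ 2 = d ^ (2 * n) := by ring
      _ ≤ _ := this
      _ = (6 * (160 * n) ^ 2) ^ n * (∏ k ∈ Finset.range n, (eRan S F k).toReal) ^ 2 := by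
          rw [mul_pow 6, mul_pow ((160 * (n : ℝ)) ^ n), ← pow_mul, ← pow_mul, mul_comm n 2]
          ring
      _ ≤ ((400 * n) ^ 2) ^ n * (∏ k ∈ Finset.range n, (eRan S F k).toReal) ^ 2 := by
          apply mul_le_mul_of_nonneg_right _ (by positivity)
          apply pow_le_pow_left₀ (by positivity)
          nlinarith [sq_nonneg (n : ℝ)]
      _ = _ := by
          rw [mul_pow ((400 * (n : ℝ)) ^ n), ← pow_mul, ← pow_mul, mul_comm n 2]
  exact le_of_sq_le_sq h3 (by positivity)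

theorem gain_le (hF : Convex ℝ F) {n : ℕ} (hn : 1 ≤ n) :
    eDet S F (2 * n - 1) ≤
      400 * n * (∏ k ∈ Finset.range n, eRan S F k) ^ (1 / (n : ℝ)) := by
  have hn0 : (0 : ℝ) < n := by exact_mod_cast hn
  have hnn : (0 : ℝ) < 1 / (n : ℝ) := by positivity
  have hnE : (400 : ℝ≥0∞) * n ≠ 0 := by
    apply mul_ne_zero (by norm_num)
    exact_mod_cast (by omega : n ≠ 0)
  rcases F.eq_empty_or_nonempty with hFe | hne
  · have : eDet S F (2 * n - 1) ≤ 0 := by
      unfold eDet
      refine iInf_le_of_le (fun _ => 0) (iInf_le_of_le (fun _ => 0) ?_)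
      simp [hFe]
    exact this.trans (zero_le)
  by_cases hP : ∏ k ∈ Finset.range n, eRan S F k = ⊤
  · rw [hP, ENNReal.top_rpow_of_pos hnn, ENNReal.mul_top hnE]
    exact le_top
  refine le_of_forall_lt fun c hc => ?_
  obtain ⟨c', hcc', hc'⟩ := exists_between hc
  have hc't : c' ≠ ⊤ := (hc'.trans_le le_top).ne
  refine lt_of_lt_of_le hcc' ?_
  -- now `c' = ofReal d`
  set d : ℝ := c'.toReal with hddef
  have hcd : c' = ENNReal.ofReal d := (ENNReal.ofReal_toReal hc't).symm
  have hc'0 : 0 < c' := lt_of_le_of_lt (zero_le) hcc'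
  have hd : 0 < d := ENNReal.toReal_pos hc'0.ne' hc't
  have h2n : 2 * n - 1 = (2 * n) - 1 := rfl
  obtain ⟨s⟩ := exists_sys (S := S) (F := F) (D := 2 * n) hF hd (by rw [← hcd]; exact hc')
  have h0 : ∀ k < n, eRan S F k ≠ 0 := fun k hk h => FNB_zero hF hne hn hd s hk h
  have ht : ∀ k < n, eRan S F k ≠ ⊤ := by
    intro k hk h
    apply hP
    rw [← Finset.mul_prod_erase _ _ (Finset.mem_range.mpr hk), h]
    apply ENNReal.top_mul
    apply Finset.prod_ne_zero_iff.mpr
    intro j hj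
    exact h0 j (Finset.mem_range.mp (Finset.mem_of_mem_erase hj))
  have hfin := FNB_fin hF hne hn hd s h0 ht
  rw [hcd]
  have hprod : ∏ k ∈ Finset.range n, eRan S F k =
      ENNReal.ofReal (∏ k ∈ Finset.range n, (eRan S F k).toReal) := by
    rw [ENNReal.ofReal_prod_of_nonneg (fun _ _ => ENNReal.toReal_nonneg)]
    apply Finset.prod_congr rfl
    intro k hk
    exact (ENNReal.ofReal_toReal (ht k (Finset.mem_range.mp hk))).symm
  have hP0 : 0 ≤ ∏ k ∈ Finset.range n, (eRan S F k).toReal :=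
    Finset.prod_nonneg fun _ _ => ENNReal.toReal_nonneg
  rw [hprod, ENNReal.ofReal_rpow_of_nonneg hP0 hnn.le]
  have h400 : (400 : ℝ≥0∞) * n = ENNReal.ofReal (400 * n) := by
    rw [ENNReal.ofReal_mul (by norm_num)]
    simp
  rw [h400, ← ENNReal.ofReal_mul (by positivity)]
  apply ENNReal.ofReal_le_ofReal
  have h5 : d = (d ^ n) ^ (1 / (n : ℝ)) := by
    rw [← Real.rpow_natCast, ← Real.rpow_mul hd.le]
    rw [mul_one_div_cancel hn0.ne', Real.rpow_one]
  have h6 : ((400 * (n : ℝ)) ^ n * ∏ k ∈ Finset.range n, (eRan S F k).toReal) ^ (1 / (n : ℝ)) =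
      400 * n * (∏ k ∈ Finset.range n, (eRan S F k).toReal) ^ (1 / (n : ℝ)) := by
    rw [Real.mul_rpow (by positivity) hP0]
    congr 1
    rw [← Real.rpow_natCast, ← Real.rpow_mul (by positivity)]
    rw [mul_one_div_cancel hn0.ne', Real.rpow_one]
  rw [← h6]
  calc d = (d ^ n) ^ (1 / (n : ℝ)) := h5
    _ ≤ _ := Real.rpow_le_rpow (by positivity) hfin hnn.le

end Pool.Agent.H44.MG
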