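import Pool.Agent.H44.MG.SPC

/-!
# GEO : many directions orthogonal to `K`

`E` = span (b k : 2 M1 ≤ k < 8 M1) ⊓ Kᗮ has dimension `≥ 6 M1 - M1 = 5 M1`. For `x ∈ E`:
`c² ‖x‖² ≤ ∑ i ⟪row T i, x⟫² ≤ C² ‖x‖²` (`Spec.sq`, monotonicity of `lam`). Put `s i = E.starProjection (row T i)`,
so `⟪s i, x⟫ = ⟪row T i, P x⟫`, `∑ i ⟪s i, x⟫² ≤ C² ‖x‖²` for all `x`, `‖s i‖ ≤ C` (take `x = s i`), and with an
orthonormal basis `o` of `E`: `∑ i ‖s i‖² = ∑ l ∑ i ⟪row T i, o l⟫² ≥ 5 M1 c²`. Let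
`I = {i | c² / 8 ≤ ‖s i‖²}`: the other `i` contribute at most `16 M1 c² / 8 = 2 M1 c²`, so
`#I · C² ≥ 3 M1 c²`. `θ i = s i / ‖s i‖`: `⟪row T i, θ i⟫ = ‖s i‖ ≥ c / 3`,
`∑_{i ∈ I} ⟪θ i, x⟫² ≤ (8 / c²) C² ‖x‖²`.
-/

namespace Pool.Agent.H44.MG

open Module

theorem GEO_subspace {M1 : ℕ} {T : Matrix (Fin (16 * M1)) (Fin (16 * M1)) ℝ}
    {b : OrthonormalBasis (Fin (16 * M1)) ℝ (EuclideanSpace ℝ (Fin (16 * M1)))}
    {lam : Fin (16 * M1) → ℝ} (h : Spec T b lam) {c C : ℝ} (hM : 0 < M1)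
    (hlow : c ^ 2 ≤ lam ⟨8 * M1 - 1, by omega⟩) (hup : lam ⟨2 * M1, by omega⟩ ≤ C ^ 2)
    (K : Submodule ℝ (EuclideanSpace ℝ (Fin (16 * M1)))) (hK : finrank ℝ K ≤ M1) :
    ∃ E : Submodule ℝ (EuclideanSpace ℝ (Fin (16 * M1))), E ≤ Kᗮ ∧ 5 * M1 ≤ finrank ℝ E ∧
      ∀ x ∈ E, c ^ 2 * ‖x‖ ^ 2 ≤ ∑ i, inner ℝ (row T i) x ^ 2 ∧
        ∑ i, inner ℝ (row T i) x ^ 2 ≤ C ^ 2 * ‖x‖ ^ 2 := by
  classical
  set e : Fin (6 * M1) → Fin (16 * M1) := fun j => ⟨2 * M1 + j, by omega⟩ with he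
  have hinj : Function.Injective e := by
    intro i j hij
    simp only [he, Fin.mk.injEq] at hij
    exact Fin.ext (by omega)
  set U : Submodule ℝ (EuclideanSpace ℝ (Fin (16 * M1))) :=
    Submodule.span ℝ (Set.range (b ∘ e)) with hU
  have hUr : finrank ℝ U = 6 * M1 := by
    have hl : LinearIndependent ℝ (b ∘ e) := b.orthonormal.linearIndependent.comp e hinj
    rw [hU, finrank_span_eq_card hl, Fintype.card_fin]
  refine ⟨U ⊓ Kᗮ, inf_le_right, ?_, ?_⟩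
  · have h1 := Submodule.finrank_sup_add_finrank_inf_eq U Kᗮ
    have h2 := Submodule.finrank_add_finrank_orthogonal K
    have h3 : finrank ℝ (EuclideanSpace ℝ (Fin (16 * M1))) = 16 * M1 := by simp
    have h4 := Submodule.finrank_le (U ⊔ Kᗮ)
    omega
  · intro x hx
    have hxU : x ∈ U := hx.1
    have hzero : ∀ k : Fin (16 * M1), (∀ j, e j ≠ k) → inner ℝ (b k) x = 0 := by
      intro k hk
      have : U ≤ (Submodule.span ℝ {b k})ᗮ := by
        rw [hU, Submodule.span_le]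
        rintro _ ⟨j, rfl⟩
        rw [SetLike.mem_coe, Submodule.mem_orthogonal_singleton_iff_inner_right]
        simpa using b.orthonormal.inner_eq_zero (Ne.symm (hk j))
      have h2 := this hxU
      rwa [Submodule.mem_orthogonal_singleton_iff_inner_right] at h2
    have hnorm : ∑ k, inner ℝ (b k) x ^ 2 = ‖x‖ ^ 2 := by
      have := b.sum_sq_norm_inner_right x
      simpa [Real.norm_eq_abs, sq_abs] using this
    rw [h.sq x, ← hnorm, Finset.mul_sum, Finset.mul_sum]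
    constructor
    · refine Finset.sum_le_sum fun k _ => ?_
      by_cases hk : ∃ j, e j = k
      · obtain ⟨j, rfl⟩ := hk
        refine mul_le_mul_of_nonneg_right (hlow.trans (h.anti ?_)) (sq_nonneg _)
        simp only [he, Fin.le_def]
        omega
      · push Not at hk
        rw [hzero k hk]
        simp
    · refine Finset.sum_le_sum fun k _ => ?_
      by_cases hk : ∃ j, e j = k
      · obtain ⟨j, rfl⟩ := hk
        refine mul_le_mul_of_nonneg_right ((h.anti ?_).trans hup) (sq_nonneg _)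
        simp only [he, Fin.le_def]
        omega
      · push Not at hk
        rw [hzero k hk]
        simp

theorem geo_family {M1 : ℕ} (hM : 0 < M1) {T : Matrix (Fin (16 * M1)) (Fin (16 * M1)) ℝ}
    {b : OrthonormalBasis (Fin (16 * M1)) ℝ (EuclideanSpace ℝ (Fin (16 * M1)))}
    {lam : Fin (16 * M1) → ℝ} (h : Spec T b lam) {c C : ℝ} (hc : 0 < c) (hC : 0 < C)
    (hlow : c ^ 2 ≤ lam ⟨8 * M1 - 1, by omega⟩) (hup : lam ⟨2 * M1, by omega⟩ ≤ C ^ 2)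
    (K : Submodule ℝ (EuclideanSpace ℝ (Fin (16 * M1)))) (hK : finrank ℝ K ≤ M1) :
    ∃ (I : Finset (Fin (16 * M1))) (θ : Fin (16 * M1) → EuclideanSpace ℝ (Fin (16 * M1))),
      3 * M1 * c ^ 2 / C ^ 2 ≤ I.card ∧
      (∀ i ∈ I, ‖θ i‖ = 1 ∧ θ i ∈ Kᗮ ∧ c / 3 ≤ inner ℝ (row T i) (θ i)) ∧
      ∀ x, ∑ i ∈ I, inner ℝ (θ i) x ^ 2 ≤ 9 * C ^ 2 / c ^ 2 * ‖x‖ ^ 2 := by
  classical
  obtain ⟨E, hEK, hEr, hE⟩ := GEO_subspace h hM hlow hup K hK
  set s : Fin (16 * M1) → EuclideanSpace ℝ (Fin (16 * M1)) :=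
    fun i => E.starProjection (row T i) with hs
  have hsE : ∀ i, s i ∈ E := fun i => E.starProjection_apply_mem _
  have hin : ∀ i x, inner ℝ (s i) x = inner ℝ (row T i) (E.starProjection x) := fun i x =>
    E.inner_starProjection_left_eq_right _ _
  have hbess : ∀ x, ∑ i, inner ℝ (s i) x ^ 2 ≤ C ^ 2 * ‖x‖ ^ 2 := by
    intro x
    have h1 : ∑ i, inner ℝ (s i) x ^ 2 = ∑ i, inner ℝ (row T i) (E.starProjection x) ^ 2 :=
      Finset.sum_congr rfl fun i _ => by rw [hin]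
    rw [h1]
    refine (hE _ (E.starProjection_apply_mem x)).2.trans ?_
    have h2 := E.norm_starProjection_apply_le x
    have h3 : ‖E.starProjection x‖ ^ 2 ≤ ‖x‖ ^ 2 := pow_le_pow_left₀ (norm_nonneg _) h2 2
    exact mul_le_mul_of_nonneg_left h3 (sq_nonneg _)
  have hself : ∀ i, inner ℝ (s i) (s i) = ‖s i‖ ^ 2 := fun i => real_inner_self_eq_norm_sq _
  have hrs : ∀ i, inner ℝ (row T i) (s i) = ‖s i‖ ^ 2 := by
    intro i
    rw [← hself, hin, Submodule.starProjection_eq_self_iff.2 (hsE i)]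
  have hsC : ∀ i, ‖s i‖ ^ 2 ≤ C ^ 2 := by
    intro i
    by_cases h0 : ‖s i‖ = 0
    · rw [h0]; norm_num; positivity
    · have h1 : inner ℝ (s i) (s i) ^ 2 ≤ ∑ j, inner ℝ (s j) (s i) ^ 2 :=
        Finset.single_le_sum (f := fun j => inner ℝ (s j) (s i) ^ 2)
          (fun j _ => sq_nonneg _) (Finset.mem_univ i)
      have h2 := h1.trans (hbess (s i))
      rw [hself] at h2
      have h3 : 0 < ‖s i‖ ^ 2 := by positivity
      have h4 : ‖s i‖ ^ 2 * ‖s i‖ ^ 2 ≤ C ^ 2 * ‖s i‖ ^ 2 := by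
        calc ‖s i‖ ^ 2 * ‖s i‖ ^ 2 = (‖s i‖ ^ 2) ^ 2 := by ring
          _ ≤ _ := h2
      exact le_of_mul_le_mul_right h4 h3
  have hsum : 5 * M1 * c ^ 2 ≤ ∑ i, ‖s i‖ ^ 2 := by
    set o := stdOrthonormalBasis ℝ E with ho
    have h1 : ∀ i, ‖s i‖ ^ 2 = ∑ l, inner ℝ (row T i) (o l : EuclideanSpace ℝ (Fin (16 * M1))) ^ 2 := by
      intro i
      have h2 := o.sum_sq_norm_inner_right ⟨s i, hsE i⟩
      have h3 : ‖(⟨s i, hsE i⟩ : E)‖ = ‖s i‖ := rfl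
      rw [h3] at h2
      rw [← h2]
      refine Finset.sum_congr rfl fun l _ => ?_
      have h4 : inner ℝ (o l) (⟨s i, hsE i⟩ : E) =
          inner ℝ (row T i) (o l : EuclideanSpace ℝ (Fin (16 * M1))) := by
        rw [Submodule.coe_inner, real_inner_comm]
        change inner ℝ (s i) _ = _
        rw [hin, Submodule.starProjection_eq_self_iff.2 (o l).2]
      rw [h4, Real.norm_eq_abs, sq_abs]
    have h5 : ∑ i, ‖s i‖ ^ 2 =
        ∑ l, ∑ i, inner ℝ (row T i) (o l : EuclideanSpace ℝ (Fin (16 * M1))) ^ 2 := by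
      rw [Finset.sum_comm]
      exact Finset.sum_congr rfl fun i _ => h1 i
    rw [h5]
    have h6 : ∀ l ∈ Finset.univ, c ^ 2 ≤
        ∑ i, inner ℝ (row T i) (o l : EuclideanSpace ℝ (Fin (16 * M1))) ^ 2 := by
      intro l _
      have h7 := (hE _ (o l).2).1
      have h8 : ‖(o l : EuclideanSpace ℝ (Fin (16 * M1)))‖ = 1 := o.orthonormal.1 l
      rw [h8] at h7
      simpa using h7
    have h9 := Finset.sum_le_sum h6
    rw [Finset.sum_const, Finset.card_univ, Fintype.card_fin, nsmul_eq_mul] at h9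
    refine le_trans ?_ h9
    have h10 : (5 * M1 : ℝ) ≤ (finrank ℝ E : ℝ) := by exact_mod_cast hEr
    exact mul_le_mul_of_nonneg_right h10 (sq_nonneg _)
  set I : Finset (Fin (16 * M1)) := Finset.univ.filter fun i => c ^ 2 / 8 ≤ ‖s i‖ ^ 2 with hI
  have hpos : ∀ i ∈ I, 0 < ‖s i‖ := by
    intro i hi
    have h1 : c ^ 2 / 8 ≤ ‖s i‖ ^ 2 := (Finset.mem_filter.1 hi).2
    have h2 : 0 < c ^ 2 / 8 := by positivity
    rcases (norm_nonneg (s i)).lt_or_eq with h3 | h3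
    · exact h3
    · rw [← h3] at h1; norm_num at h1; nlinarith
  refine ⟨I, fun i => (‖s i‖)⁻¹ • s i, ?_, ?_, ?_⟩
  · rw [div_le_iff₀ (by positivity)]
    have h1 : ∑ i, ‖s i‖ ^ 2 = ∑ i ∈ I, ‖s i‖ ^ 2 +
        ∑ i ∈ Finset.univ.filter (fun i => ¬ c ^ 2 / 8 ≤ ‖s i‖ ^ 2), ‖s i‖ ^ 2 := by
      rw [hI, Finset.sum_filter_add_sum_filter_not]
    have h2 : ∑ i ∈ I, ‖s i‖ ^ 2 ≤ I.card * C ^ 2 := by
      have := Finset.sum_le_card_nsmul I (fun i => ‖s i‖ ^ 2) (C ^ 2) (fun i _ => hsC i)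
      rwa [nsmul_eq_mul] at this
    have h3 : ∑ i ∈ Finset.univ.filter (fun i => ¬ c ^ 2 / 8 ≤ ‖s i‖ ^ 2), ‖s i‖ ^ 2 ≤
        2 * M1 * c ^ 2 := by
      have h4 := Finset.sum_le_card_nsmul
        (Finset.univ.filter (fun i => ¬ c ^ 2 / 8 ≤ ‖s i‖ ^ 2)) (fun i => ‖s i‖ ^ 2)
        (c ^ 2 / 8) (fun i hi => (not_le.1 (Finset.mem_filter.1 hi).2).le)
      rw [nsmul_eq_mul] at h4
      refine h4.trans ?_
      have h5 : ((Finset.univ.filter (fun i => ¬ c ^ 2 / 8 ≤ ‖s i‖ ^ 2)).card : ℝ) ≤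
          16 * M1 := by
        have h6 := Finset.card_le_univ (Finset.univ.filter (fun i => ¬ c ^ 2 / 8 ≤ ‖s i‖ ^ 2))
        rw [Fintype.card_fin] at h6
        exact_mod_cast h6
      calc _ ≤ (16 * M1 : ℝ) * (c ^ 2 / 8) :=
            mul_le_mul_of_nonneg_right h5 (by positivity)
        _ = 2 * M1 * c ^ 2 := by ring
    nlinarith
  · intro i hi
    have hp := hpos i hi
    refine ⟨?_, ?_, ?_⟩
    · rw [norm_smul, norm_inv, norm_norm, inv_mul_cancel₀ hp.ne']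
    · exact Submodule.smul_mem _ _ (hEK (hsE i))
    · rw [inner_smul_right, hrs]
      have h1 : c ^ 2 / 8 ≤ ‖s i‖ ^ 2 := (Finset.mem_filter.1 hi).2
      have h2 : ‖s i‖⁻¹ * ‖s i‖ ^ 2 = ‖s i‖ := by
        field_simp
      rw [h2]
      have h3 : (c / 3) ^ 2 ≤ ‖s i‖ ^ 2 := by nlinarith [sq_nonneg c]
      exact (pow_le_pow_iff_left₀ (by positivity) hp.le two_ne_zero).1 h3
  · intro x
    have h1 : ∀ i ∈ I, inner ℝ ((‖s i‖)⁻¹ • s i) x ^ 2 ≤ 8 / c ^ 2 * inner ℝ (s i) x ^ 2 := by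
      intro i hi
      have hp := hpos i hi
      have h2 : c ^ 2 / 8 ≤ ‖s i‖ ^ 2 := (Finset.mem_filter.1 hi).2
      rw [real_inner_smul_left, mul_pow]
      refine mul_le_mul_of_nonneg_right ?_ (sq_nonneg _)
      rw [inv_pow, inv_le_comm₀ (by positivity) (by positivity), inv_div]
      exact h2
    calc ∑ i ∈ I, inner ℝ ((‖s i‖)⁻¹ • s i) x ^ 2
        ≤ ∑ i ∈ I, 8 / c ^ 2 * inner ℝ (s i) x ^ 2 := Finset.sum_le_sum h1
      _ = 8 / c ^ 2 * ∑ i ∈ I, inner ℝ (s i) x ^ 2 := by rw [Finset.mul_sum]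
      _ ≤ 8 / c ^ 2 * ∑ i, inner ℝ (s i) x ^ 2 := by
          refine mul_le_mul_of_nonneg_left ?_ (by positivity)
          exact Finset.sum_le_sum_of_subset_of_nonneg (Finset.subset_univ _)
            (fun i _ _ => sq_nonneg _)
      _ ≤ 8 / c ^ 2 * (C ^ 2 * ‖x‖ ^ 2) :=
          mul_le_mul_of_nonneg_left (hbess x) (by positivity)
      _ = 8 * (C ^ 2 / c ^ 2 * ‖x‖ ^ 2) := by ring
      _ ≤ 9 * (C ^ 2 / c ^ 2 * ‖x‖ ^ 2) :=
          mul_le_mul_of_nonneg_right (by norm_num) (by positivity)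
      _ = _ := by ring


end Pool.Agent.H44.MG
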