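import Pool.Agent.H44.MG.ONA

/-!
# PRD : product densities

`∫ ∏ √(dens (x k)) √(dens (x k + v k)) = ∏ ∫ ... ≥ ∏ (1 - 6 (v k)²) ≥ 1 - 6 ∑ (v k)²`
(`integral_fintype_prod_volume_eq_prod`), and
`(∫ √(P Q))² ≤ ∫ min P Q · ∫ max P Q ≤ 2 ∫ min P Q`.
-/

namespace Pool.Agent.H44.MG

open MeasureTheory ENNReal

theorem integral_prod_dens (D : ℕ) : ∫ x : Fin D → ℝ, ∏ k, dens (x k) = 1 := by
  have h := integral_fintype_prod_volume_eq_prod (ι := Fin D) (𝕜 := ℝ) (E := fun _ => ℝ)
    (fun _ => dens)
  rw [h]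
  simp [integral_dens]

theorem integrable_prod_dens (D : ℕ) :
    Integrable (fun x : Fin D → ℝ => ∏ k, dens (x k)) := by
  exact Integrable.fintype_prod (fun _ => integrable_dens)

instance muD_prob (D : ℕ) : IsProbabilityMeasure (muD D) := by
  constructor
  unfold muD
  rw [withDensity_apply _ MeasurableSet.univ, Measure.restrict_univ,
    ← ofReal_integral_eq_lintegral_ofReal (integrable_prod_dens D)
      (Filter.Eventually.of_forall fun x => Finset.prod_nonneg fun k _ => dens_nonneg _),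
    integral_prod_dens]
  simp

theorem PRD_prod_ge {ι : Type*} (s : Finset ι) (a : ι → ℝ) (h0 : ∀ k, 0 ≤ a k)
    (h : ∑ k ∈ s, a k ≤ 1) : 1 - ∑ k ∈ s, a k ≤ ∏ k ∈ s, (1 - a k) := by
  classical
  induction s using Finset.induction_on with
  | empty => simp
  | insert i s hi ih =>
    rw [Finset.sum_insert hi, Finset.prod_insert hi]
    rw [Finset.sum_insert hi] at h
    have hs : 0 ≤ ∑ k ∈ s, a k := Finset.sum_nonneg fun k _ => h0 k
    have h1 := ih (by linarith [h0 i])
    have h2 : 0 ≤ 1 - a i := by linarith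
    have := mul_le_mul_of_nonneg_left h1 h2
    nlinarith [mul_nonneg (h0 i) hs]

/-- the total variation distance of the product density and its shift by a short vector -/
theorem min_dens {D : ℕ} (v : Fin D → ℝ) (hv : ∑ k, v k ^ 2 ≤ 1 / 24) :
    9 / 32 ≤ ∫ x : Fin D → ℝ, min (∏ k, dens (x k)) (∏ k, dens (x k + v k)) := by
  have hvk : ∀ k, v k ^ 2 ≤ 1 / 24 := fun k =>
    le_trans (Finset.single_le_sum (f := fun k => v k ^ 2) (fun i _ => sq_nonneg _)
      (Finset.mem_univ k)) hv
  have habs : ∀ k, |v k| ≤ 1 := fun k => by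
    have := hvk k
    exact abs_le_one_iff_mul_self_le_one.mpr (by nlinarith)
  set P : (Fin D → ℝ) → ℝ := fun x => ∏ k, dens (x k) with hP
  set Q : (Fin D → ℝ) → ℝ := fun x => ∏ k, dens (x k + v k) with hQ
  have hP0 : ∀ x, 0 ≤ P x := fun x => Finset.prod_nonneg fun k _ => dens_nonneg _
  have hQ0 : ∀ x, 0 ≤ Q x := fun x => Finset.prod_nonneg fun k _ => dens_nonneg _
  have hQP : ∀ x, Q x = P (x + v) := fun x => rfl
  have hPi : Integrable P := integrable_prod_dens D
  have hQi : Integrable Q := hPi.comp_add_right v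
  have hP1 : ∫ x, P x = 1 := integral_prod_dens D
  have hQ1 : ∫ x, Q x = 1 := by
    rw [← hP1]
    exact integral_add_right_eq_self P v
  have hmi : Integrable (fun x => min (P x) (Q x)) := hPi.inf hQi
  -- the affinity
  have haff : 3 / 4 ≤ ∫ x : Fin D → ℝ, ∏ k, (Real.sqrt (dens (x k)) *
      Real.sqrt (dens (x k + v k))) := by
    have h := integral_fintype_prod_volume_eq_prod (ι := Fin D) (𝕜 := ℝ) (E := fun _ => ℝ)
      (fun k => fun t => Real.sqrt (dens t) * Real.sqrt (dens (t + v k)))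
    rw [h]
    have h1 : ∏ k : Fin D, (1 - 6 * v k ^ 2) ≤
        ∏ k : Fin D, ∫ t, Real.sqrt (dens t) * Real.sqrt (dens (t + v k)) := by
      apply Finset.prod_le_prod
      · intro k _
        nlinarith [hvk k]
      · intro k _
        exact affinity (habs k)
    have h2 := PRD_prod_ge Finset.univ (fun k => 6 * v k ^ 2) (fun k => by positivity)
      (by rw [← Finset.mul_sum]; linarith)
    rw [← Finset.mul_sum] at h2
    linarith
  have hsq : ∀ x : Fin D → ℝ, ∏ k, (Real.sqrt (dens (x k)) * Real.sqrt (dens (x k + v k))) =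
      Real.sqrt (P x) * Real.sqrt (Q x) := by
    intro x
    rw [Finset.prod_mul_distrib, hP, hQ]
    simp only
    rw [Real.sqrt_prod _ (fun k _ => dens_nonneg _), Real.sqrt_prod _ (fun k _ => dens_nonneg _)]
  have hpt : ∀ x, Real.sqrt (P x) * Real.sqrt (Q x) ≤
      4 / 3 * min (P x) (Q x) + 3 / 16 * (P x + Q x - min (P x) (Q x)) := by
    intro x
    have hm0 : 0 ≤ min (P x) (Q x) := le_min (hP0 x) (hQ0 x)
    have hM0 : 0 ≤ max (P x) (Q x) := le_max_of_le_left (hP0 x)
    have e1 : Real.sqrt (P x) * Real.sqrt (Q x) =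
        Real.sqrt (min (P x) (Q x)) * Real.sqrt (max (P x) (Q x)) := by
      rcases le_total (P x) (Q x) with h | h
      · rw [min_eq_left h, max_eq_right h]
      · rw [min_eq_right h, max_eq_left h, mul_comm]
    have e2 : P x + Q x - min (P x) (Q x) = max (P x) (Q x) := by
      have := min_add_max (P x) (Q x)
      linarith
    rw [e1, e2]
    have s1 := Real.sq_sqrt hm0
    have s2 := Real.sq_sqrt hM0
    nlinarith [sq_nonneg (8 * Real.sqrt (min (P x) (Q x)) - 3 * Real.sqrt (max (P x) (Q x)))]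
  have hint : ∫ x : Fin D → ℝ, ∏ k, (Real.sqrt (dens (x k)) * Real.sqrt (dens (x k + v k))) ≤
      ∫ x, (4 / 3 * min (P x) (Q x) + 3 / 16 * (P x + Q x - min (P x) (Q x))) := by
    apply integral_mono_of_nonneg
    · exact Filter.Eventually.of_forall fun x => Finset.prod_nonneg fun k _ => by positivity
    · exact (hmi.const_mul _).add (((hPi.add hQi).sub hmi).const_mul _)
    · refine Filter.Eventually.of_forall fun x => ?_
      show ∏ k, (Real.sqrt (dens (x k)) * Real.sqrt (dens (x k + v k))) ≤ _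
      rw [hsq x]
      exact hpt x
  have hi2 : Integrable (fun x => P x + Q x) := hPi.add hQi
  have hi3 : Integrable (fun x => P x + Q x - min (P x) (Q x)) := hi2.sub hmi
  have hcomp : ∫ x, (4 / 3 * min (P x) (Q x) + 3 / 16 * (P x + Q x - min (P x) (Q x))) =
      4 / 3 * (∫ x, min (P x) (Q x)) + 3 / 16 * (2 - ∫ x, min (P x) (Q x)) := by
    rw [integral_add (hmi.const_mul _) (hi3.const_mul _),
      integral_const_mul, integral_const_mul, integral_sub hi2 hmi,
      integral_add hPi hQi, hP1, hQ1]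
    norm_num
  rw [hcomp] at hint
  have hfin := haff.trans hint
  linarith

end Pool.Agent.H44.MG
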