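import Pool.Agent.H44.MG.Defs2
import Pool.Agent.H44.MG.PRD

/-!
# MUA : the expectation `EE`

* `EE_prod`: for each `b`, `∫ ∏ (F k (b k) (x k) dens (x k)) = ∏ ∫ …`
  (`integral_fintype_prod_volume_eq_prod`), and the sum over `b` of a product is the product of the
  sums (`Finset.prod_univ_sum`, `Fintype.piFinset`).
* `EE_adm`: Markov's inequality, the expected number of `true` is `D / W`.
-/

namespace Pool.Agent.H44.MG

open MeasureTheory

variable {D : ℕ} {W : ℝ}

theorem pb_nonneg (hW : 1 ≤ W) (b : Fin D → Bool) : 0 ≤ pb W b := by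
  unfold pb
  refine Finset.prod_nonneg fun k _ => ?_
  have h1 : 1 / W ≤ 1 := by
    rw [div_le_one (by linarith)]
    exact hW
  split_ifs
  · positivity
  · linarith

theorem MUA_sum_prod (p : Fin D → Bool → ℝ) :
    ∑ b : Fin D → Bool, ∏ k, p k (b k) = ∏ k, (p k false + p k true) := by
  have h := Finset.prod_univ_sum (fun _ : Fin D => (Finset.univ : Finset Bool)) p
  rw [Fintype.piFinset_univ] at h
  rw [← h]
  refine Finset.prod_congr rfl fun k _ => ?_
  rw [Fintype.sum_bool, add_comm]

theorem sum_pb : ∑ b : Fin D → Bool, pb W b = 1 := by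
  unfold pb
  rw [MUA_sum_prod (fun _ v => if v then 1 / W else 1 - 1 / W)]
  simp

theorem EE_prod (F : Fin D → Bool → ℝ → ℝ) :
    EE W (fun b x => ∏ k, F k (b k) (x k)) = ∏ k, ec W (F k) := by
  unfold EE
  have h1 : ∀ b : Fin D → Bool, pb W b * ∫ x : Fin D → ℝ,
      (∏ k, F k (b k) (x k)) * ∏ k, dens (x k) =
        ∏ k, ((if b k then 1 / W else 1 - 1 / W) * ∫ x, F k (b k) x * dens x) := by
    intro b
    rw [Finset.prod_mul_distrib]
    unfold pb
    congr 1
    rw [← integral_fintype_prod_volume_eq_prod (fun k x => F k (b k) x * dens x)]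
    refine integral_congr_ae (Filter.Eventually.of_forall fun x => ?_)
    simp only [Finset.prod_mul_distrib]
  rw [Finset.sum_congr rfl fun b _ => h1 b]
  rw [MUA_sum_prod (fun k v => (if v then 1 / W else 1 - 1 / W) * ∫ x, F k v x * dens x)]
  refine Finset.prod_congr rfl fun k _ => ?_
  simp [ec]

theorem EE_const (c : ℝ) : EE W (fun (_ : Fin D → Bool) _ => c) = c := by
  unfold EE
  have h1 : ∀ b : Fin D → Bool, pb W b * ∫ x : Fin D → ℝ, c * ∏ k, dens (x k) = pb W b * c := by
    intro b
    rw [integral_const_mul, integral_prod_dens, mul_one]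
  rw [Finset.sum_congr rfl fun b _ => h1 b, ← Finset.sum_mul, sum_pb, one_mul]

theorem Nice.integrable {h : (Fin D → Bool) → (Fin D → ℝ) → ℝ} (hh : Nice h) (b : Fin D → Bool) :
    Integrable (fun x => h b x * ∏ k, dens (x k)) := by
  obtain ⟨B, hB⟩ := hh.2
  exact (integrable_prod_dens D).bdd_mul (hh.1 b).aestronglyMeasurable
    (Filter.Eventually.of_forall fun x => by rw [Real.norm_eq_abs]; exact hB b x)

theorem EE_add {h g : (Fin D → Bool) → (Fin D → ℝ) → ℝ} (hh : Nice h) (hg : Nice g) :
    EE W (fun b x => h b x + g b x) = EE W h + EE W g := by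
  unfold EE
  rw [← Finset.sum_add_distrib]
  refine Finset.sum_congr rfl fun b _ => ?_
  rw [← mul_add, ← integral_add (hh.integrable b) (hg.integrable b)]
  congr 1
  refine integral_congr_ae (Filter.Eventually.of_forall fun x => ?_)
  simp only [add_mul]

theorem EE_smul (c : ℝ) (h : (Fin D → Bool) → (Fin D → ℝ) → ℝ) :
    EE W (fun b x => c * h b x) = c * EE W h := by
  unfold EE
  rw [Finset.mul_sum]
  refine Finset.sum_congr rfl fun b _ => ?_
  have h1 : ∫ x : Fin D → ℝ, c * h b x * ∏ k, dens (x k) =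
      c * ∫ x : Fin D → ℝ, h b x * ∏ k, dens (x k) := by
    rw [← integral_const_mul]
    refine integral_congr_ae (Filter.Eventually.of_forall fun x => ?_)
    simp only [mul_assoc]
  rw [h1]
  ring

theorem MUA_nice_zero : Nice (fun (_ : Fin D → Bool) (_ : Fin D → ℝ) => (0 : ℝ)) :=
  ⟨fun _ => measurable_const, 0, fun _ _ => by simp⟩

theorem MUA_nice_const (c : ℝ) : Nice (fun (_ : Fin D → Bool) (_ : Fin D → ℝ) => c) :=
  ⟨fun _ => measurable_const, |c|, fun _ _ => le_rfl⟩

theorem MUA_nice_add {h g : (Fin D → Bool) → (Fin D → ℝ) → ℝ} (hh : Nice h) (hg : Nice g) :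
    Nice (fun b x => h b x + g b x) := by
  obtain ⟨B, hB⟩ := hh.2
  obtain ⟨C, hC⟩ := hg.2
  exact ⟨fun b => (hh.1 b).add (hg.1 b), B + C, fun b x =>
    (abs_add_le _ _).trans (add_le_add (hB b x) (hC b x))⟩

theorem MUA_nice_smul (c : ℝ) {h : (Fin D → Bool) → (Fin D → ℝ) → ℝ} (hh : Nice h) :
    Nice (fun b x => c * h b x) := by
  obtain ⟨B, hB⟩ := hh.2
  exact ⟨fun b => (hh.1 b).const_mul c, |c| * B, fun b x => by
    rw [abs_mul]
    exact mul_le_mul_of_nonneg_left (hB b x) (abs_nonneg _)⟩

theorem MUA_nice_sum {ι : Type} (s : Finset ι) {h : ι → (Fin D → Bool) → (Fin D → ℝ) → ℝ}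
    (hh : ∀ i ∈ s, Nice (h i)) : Nice (fun b x => ∑ i ∈ s, h i b x) := by
  classical
  induction s using Finset.induction_on with
  | empty => simpa using MUA_nice_zero
  | insert a s ha ih =>
    have h1 := MUA_nice_add (hh a (Finset.mem_insert_self a s))
      (ih fun i hi => hh i (Finset.mem_insert_of_mem hi))
    have h2 : (fun b x => ∑ i ∈ insert a s, h i b x) =
        fun b x => h a b x + ∑ i ∈ s, h i b x := by
      funext b x
      rw [Finset.sum_insert ha]
    rw [h2]
    exact h1

theorem EE_sum {ι : Type} (s : Finset ι) {h : ι → (Fin D → Bool) → (Fin D → ℝ) → ℝ}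
    (hh : ∀ i ∈ s, Nice (h i)) :
    EE W (fun b x => ∑ i ∈ s, h i b x) = ∑ i ∈ s, EE W (h i) := by
  classical
  induction s using Finset.induction_on with
  | empty =>
    simp only [Finset.sum_empty]
    exact EE_const 0
  | insert a s ha ih =>
    have h2 : (fun b x => ∑ i ∈ insert a s, h i b x) =
        fun b x => h a b x + ∑ i ∈ s, h i b x := by
      funext b x
      rw [Finset.sum_insert ha]
    rw [h2, EE_add (hh a (Finset.mem_insert_self a s))
      (MUA_nice_sum s fun i hi => hh i (Finset.mem_insert_of_mem hi)),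
      ih fun i hi => hh i (Finset.mem_insert_of_mem hi), Finset.sum_insert ha]

theorem MUA_prod_nonneg (x : Fin D → ℝ) : 0 ≤ ∏ k, dens (x k) :=
  Finset.prod_nonneg fun k _ => dens_nonneg (x k)

theorem EE_mono (hW : 1 ≤ W) {h g : (Fin D → Bool) → (Fin D → ℝ) → ℝ} (hh : Nice h)
    (hg : Nice g) (hle : ∀ b x, h b x ≤ g b x) : EE W h ≤ EE W g := by
  unfold EE
  refine Finset.sum_le_sum fun b _ => mul_le_mul_of_nonneg_left ?_ (pb_nonneg hW b)
  refine integral_mono (hh.integrable b) (hg.integrable b) fun x => ?_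
  exact mul_le_mul_of_nonneg_right (hle b x) (MUA_prod_nonneg x)

theorem EE_abs_le (hW : 1 ≤ W) {h : (Fin D → Bool) → (Fin D → ℝ) → ℝ} (hh : Nice h) :
    EE W (fun b x => |h b x|) ^ 2 ≤ EE W (fun b x => h b x ^ 2) := by
  set a := EE W (fun b x => |h b x|) with ha
  obtain ⟨B, hB⟩ := hh.2
  have h1 : Nice (fun b x => |h b x|) :=
    ⟨fun b => by
      have := (hh.1 b).norm
      simpa [Real.norm_eq_abs] using this, B, fun b x => by rw [abs_abs]; exact hB b x⟩
  have h2 : Nice (fun b x => h b x ^ 2) :=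
    ⟨fun b => (hh.1 b).pow_const 2, B ^ 2, fun b x => by
      rw [abs_pow]
      exact pow_le_pow_left₀ (abs_nonneg _) (hB b x) 2⟩
  have h3 := MUA_nice_smul (-2 * a) h1
  have h4 := MUA_nice_const (D := D) (a ^ 2)
  have h5 : EE W (fun b x => (h b x ^ 2 + (-2 * a) * |h b x|) + a ^ 2) =
      EE W (fun b x => h b x ^ 2) + (-2 * a) * a + a ^ 2 := by
    rw [EE_add (MUA_nice_add h2 h3) h4, EE_add h2 h3, EE_smul, EE_const, ← ha]
  have h6 : 0 ≤ EE W (fun b x => (h b x ^ 2 + (-2 * a) * |h b x|) + a ^ 2) := by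
    have h7 := EE_mono (D := D) hW MUA_nice_zero (MUA_nice_add (MUA_nice_add h2 h3) h4)
      (fun b x => by
        have : (h b x ^ 2 + (-2 * a) * |h b x|) + a ^ 2 = (|h b x| - a) ^ 2 := by
          rw [sub_sq, sq_abs]
          ring
        rw [this]
        positivity)
    rwa [EE_const] at h7
  rw [h5] at h6
  nlinarith

theorem MUA_ec_one : ec W (fun _ _ => 1) = 1 := by
  unfold ec
  simp only [one_mul, integral_dens]
  ring

/-- the function of the coordinate `j` -/
noncomputable def MUA_F (k j : Fin D) (v : Bool) (_ : ℝ) : ℝ :=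
  if j = k then (if v then (1 : ℝ) else 0) else 1

theorem MUA_EE_coord (k : Fin D) :
    EE W (fun (b : Fin D → Bool) _ => if b k then (1 : ℝ) else 0) = 1 / W := by
  classical
  have h1 : (fun (b : Fin D → Bool) (_ : Fin D → ℝ) => if b k then (1 : ℝ) else 0) =
      fun b x => ∏ j, MUA_F k j (b j) (x j) := by
    funext b x
    unfold MUA_F
    rw [Finset.prod_ite_eq' Finset.univ k]
    simp
  rw [h1, EE_prod (MUA_F k)]
  have h2 : ∀ j : Fin D, ec W (MUA_F k j) = if j = k then 1 / W else 1 := by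
    intro j
    by_cases hj : j = k
    · rw [if_pos hj]
      unfold ec MUA_F
      simp [hj, integral_dens]
    · rw [if_neg hj]
      have h3 : MUA_F k j = fun _ _ => 1 := by
        funext v x
        unfold MUA_F
        rw [if_neg hj]
      rw [h3]
      exact MUA_ec_one
  rw [Finset.prod_congr rfl fun j _ => h2 j]
  rw [Finset.prod_ite_eq' Finset.univ k]
  simp

theorem EE_adm (hW : 1 ≤ W) (hD : 0 < D) [∀ b : Fin D → Bool, Decidable (Adm W b)] :
    3 / 4 ≤ EE W (fun (b : Fin D → Bool) _ => if Adm W b then 1 else 0) := by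
  have hD' : (0 : ℝ) < D := by exact_mod_cast hD
  have hW' : (0 : ℝ) < W := by linarith
  set N : (Fin D → Bool) → ℝ := fun b => ∑ k, if b k then (1 : ℝ) else 0 with hN
  have hNn : ∀ k : Fin D,
      Nice (fun (b : Fin D → Bool) (_ : Fin D → ℝ) => if b k then (1 : ℝ) else 0) := by
    intro k
    refine ⟨fun b => measurable_const, 1, fun b x => ?_⟩
    dsimp only
    split_ifs <;> simp
  have hNice : Nice (fun (b : Fin D → Bool) (_ : Fin D → ℝ) => N b) :=
    MUA_nice_sum (D := D) Finset.univ
      (h := fun (k : Fin D) (b : Fin D → Bool) (_ : Fin D → ℝ) => if b k then (1 : ℝ) else 0)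
      fun k _ => hNn k
  have hEN : EE W (fun (b : Fin D → Bool) _ => N b) = D * (1 / W) := by
    have h1 := EE_sum (W := W) (D := D) Finset.univ
      (h := fun (k : Fin D) (b : Fin D → Bool) (_ : Fin D → ℝ) => if b k then (1 : ℝ) else 0)
      fun k _ => hNn k
    rw [hN]
    rw [h1, Finset.sum_congr rfl fun k _ => MUA_EE_coord k]
    simp
  have h1 : Nice (fun (b : Fin D → Bool) (_ : Fin D → ℝ) => 1 + (-(W / (4 * D))) * N b) :=
    MUA_nice_add (MUA_nice_const 1) (MUA_nice_smul _ hNice)
  have h2 : Nice (fun (b : Fin D → Bool) (_ : Fin D → ℝ) => if Adm W b then (1 : ℝ) else 0) := by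
    refine ⟨fun b => measurable_const, 1, fun b x => ?_⟩
    dsimp only
    split_ifs <;> simp
  have h3 := EE_mono hW h1 h2 (by
    intro b x
    have hNb : N b = ((Finset.univ.filter (fun k => b k = true)).card : ℝ) := by
      rw [hN]
      simp only
      rw [Finset.sum_ite]
      simp
    have hNnn : 0 ≤ N b := by
      rw [hNb]
      positivity
    split_ifs with hb
    · have : 0 ≤ W / (4 * D) * N b := by positivity
      linarith
    · unfold Adm at hb
      rw [← hNb, not_le] at hb
      have h5 : 1 < W / (4 * D) * N b := by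
        rw [div_mul_eq_mul_div, lt_div_iff₀ (by positivity)]
        linarith
      linarith)
  rw [EE_add (MUA_nice_const 1) (MUA_nice_smul _ hNice), EE_const, EE_smul, hEN] at h3
  have h4 : -(W / (4 * (D : ℝ))) * (D * (1 / W)) = -(1 / 4) := by
    field_simp
  rw [h4] at h3
  linarith

end Pool.Agent.H44.MG
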