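import Pool.Agent.H44.MG.PTM
import Pool.Agent.H44.MG.RED
import Pool.Agent.H44.MG.MUA

/-!
# LWT : the lower bound for a system, given the inequality `multi`

Prior: `Θ = (Fin D → Bool) × (Fin D → ℝ)`, the product of the measure with the weights `pb W b` and of
`muD D`; `G (b, x) = pt c0 (wt W b) (fun k => wt W b k * clip (x k))` if `Adm W b`
(`∑ wt ≤ (D + 4 D) / (8 D) ≤ 1`), and `c0` otherwise. `exists_det` gives `N`, `φ`. Let `K` be the span of
the vectors `nvec (N j)`, and take the indices `e` and the directions `θ` for this `K`. Put `τ = A c2 / (16 D)` and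
`h b x = min τ ‖S (G (b, x)) - φ (N (G (b, x)))‖`. If `b` is admissible and `x`, `x + sh A W (θ l) b` lie in
the cube, then the two points `ξ` differ by `(A / (8 D)) θ l`, which is orthogonal to all
`nvec (N j)`, and by `Sys.two_err` (index `e l`) the sum of the two errors is at least
`(A / (8 D)) ⟪row, θ l⟫ / 2 ≥ τ`. So `τ / 4 ≤ EE W h ≤ ∫⁻ error < ρ`.
-/

namespace Pool.Agent.H44.MG

open MeasureTheory ENNReal Module

variable {X Y : Type*} [NormedAddCommGroup X] [NormedSpace ℝ X]
  [NormedAddCommGroup Y] [NormedSpace ℝ Y] {S : X →L[ℝ] Y} {F : Set X} {D : ℕ} {d : ℝ}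

/-- the prior -/
private noncomputable def LWT_mu (W : ℝ) (D : ℕ) : Measure ((Fin D → Bool) × (Fin D → ℝ)) :=
  ∑ b : Fin D → Bool, ENNReal.ofReal (pb W b) • (muD D).map (fun x => (b, x))

private lemma LWT_prob {W : ℝ} (hW : 1 < W) (D : ℕ) : IsProbabilityMeasure (LWT_mu W D) := by
  constructor
  unfold LWT_mu
  rw [Measure.finsetSum_apply]
  have h1 : ∀ b : Fin D → Bool,
      (ENNReal.ofReal (pb W b) • (muD D).map (fun x => (b, x))) Set.univ = ENNReal.ofReal (pb W b) := by
    intro b
    rw [Measure.smul_apply, Measure.map_apply measurable_prodMk_left MeasurableSet.univ]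
    simp
  simp only [h1]
  rw [← ENNReal.ofReal_sum_of_nonneg (fun b _ => pb_nonneg hW.le b), sum_pb]
  simp

private lemma LWT_lintegral {W : ℝ} {D : ℕ} {f : (Fin D → Bool) × (Fin D → ℝ) → ℝ≥0∞}
    (hf : Measurable f) :
    ∫⁻ z, f z ∂(LWT_mu W D) = ∑ b : Fin D → Bool, ENNReal.ofReal (pb W b) *
      ∫⁻ x, ENNReal.ofReal (∏ k, dens (x k)) * f (b, x) := by
  unfold LWT_mu
  rw [lintegral_finsetSum_measure]
  refine Finset.sum_congr rfl fun b _ => ?_
  rw [lintegral_smul_measure, lintegral_map hf measurable_prodMk_left, smul_eq_mul]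
  congr 1
  have hfb : Measurable fun x : Fin D → ℝ => f (b, x) := hf.comp measurable_prodMk_left
  have hdm : Measurable fun x : Fin D → ℝ => ENNReal.ofReal (∏ k, dens (x k)) := by
    refine ENNReal.measurable_ofReal.comp ?_
    exact Finset.measurable_prod _ fun k _ => continuous_dens.measurable.comp (measurable_pi_apply k)
  unfold muD
  rw [lintegral_withDensity_eq_lintegral_mul _ hdm hfb]
  rfl

private lemma LWT_EE_le {W : ℝ} (hW : 1 < W) {D : ℕ} {f : (Fin D → Bool) × (Fin D → ℝ) → ℝ≥0∞}
    (hf : Measurable f) {h : (Fin D → Bool) → (Fin D → ℝ) → ℝ} (hm : ∀ b, Measurable (h b))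
    (h0 : ∀ b x, 0 ≤ h b x) (hle : ∀ b x, ENNReal.ofReal (h b x) ≤ f (b, x)) :
    ENNReal.ofReal (EE W h) ≤ ∫⁻ z, f z ∂(LWT_mu W D) := by
  rw [LWT_lintegral hf]
  unfold EE
  have hP0 : ∀ x : Fin D → ℝ, 0 ≤ ∏ k, dens (x k) := fun x => Finset.prod_nonneg fun k _ => dens_nonneg _
  have hI0 : ∀ b : Fin D → Bool, 0 ≤ ∫ x, h b x * ∏ k, dens (x k) := fun b =>
    integral_nonneg fun x => mul_nonneg (h0 b x) (hP0 x)
  rw [ENNReal.ofReal_sum_of_nonneg (fun b _ => mul_nonneg (pb_nonneg hW.le b) (hI0 b))]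
  refine Finset.sum_le_sum fun b _ => ?_
  rw [ENNReal.ofReal_mul (pb_nonneg hW.le b)]
  refine mul_le_mul_right ?_ _
  have hdm : Measurable fun x : Fin D → ℝ => ∏ k, dens (x k) :=
    Finset.measurable_prod _ fun k _ => continuous_dens.measurable.comp (measurable_pi_apply k)
  rw [integral_eq_lintegral_of_nonneg_ae
    (Filter.Eventually.of_forall fun x => mul_nonneg (h0 b x) (hP0 x))
    ((hm b).mul hdm).aestronglyMeasurable]
  refine ENNReal.ofReal_toReal_le.trans (lintegral_mono fun x => ?_)
  show ENNReal.ofReal (h b x * ∏ k, dens (x k)) ≤ _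
  rw [ENNReal.ofReal_mul (h0 b x), mul_comm]
  exact mul_le_mul_right (hle b x) _

private lemma LWT_wt_pos {W : ℝ} (hW : 1 < W) (hD : 0 < D) (b : Fin D → Bool) (k : Fin D) :
    0 < wt W b k := by
  unfold wt
  have : (0 : ℝ) < D := by exact_mod_cast hD
  split_ifs <;> positivity

private lemma LWT_wt_sum {W : ℝ} (hW : 1 < W) (hD : 0 < D) {b : Fin D → Bool} (hb : Adm W b) :
    ∑ k, wt W b k ≤ 1 := by
  have hD' : (0 : ℝ) < D := by exact_mod_cast hD
  unfold wt
  rw [← Finset.sum_div, div_le_one (by positivity)]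
  have h1 : ∑ k, (if b k = true then W else 1)
      ≤ W * ((Finset.univ.filter (fun k => b k = true)).card : ℝ) + D := by
    rw [Finset.sum_ite]
    simp only [Finset.sum_const, nsmul_eq_mul, mul_one]
    have h2 : ((Finset.univ.filter (fun k : Fin D => ¬ b k = true)).card : ℝ) ≤ D := by
      have := Finset.card_le_univ (Finset.univ.filter (fun k : Fin D => ¬ b k = true))
      rw [Fintype.card_fin] at this
      exact_mod_cast this
    linarith
  unfold Adm at hb
  linarith

private lemma LWT_mem (s : Sys S F D d) (hF : Convex ℝ F) {W : ℝ} (hW : 1 < W) (hD : 0 < D) {c0 : X}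
    (hc : c0 ∈ F) {b : Fin D → Bool} (hb : Adm W b) (x : Fin D → ℝ) :
    s.pt c0 (wt W b) (fun k => wt W b k * clip (x k)) ∈ F := by
  refine s.pt_mem hF hc (LWT_wt_sum hW hD hb) fun k => ?_
  have h1 := LWT_wt_pos hW hD b k
  rw [abs_mul, abs_of_pos h1]
  exact mul_le_of_le_one_right h1.le (abs_clip_le _)

open Classical in
/-- the test points -/
private noncomputable def LWT_G (s : Sys S F D d) (W : ℝ) (c0 : X)
    (z : (Fin D → Bool) × (Fin D → ℝ)) : X :=
  if Adm W z.1 then s.pt c0 (wt W z.1) (fun k => wt W z.1 k * clip (z.2 k)) else c0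

private lemma LWT_G_mem (s : Sys S F D d) (hF : Convex ℝ F) {W : ℝ} (hW : 1 < W) (hD : 0 < D) {c0 : X}
    (hc : c0 ∈ F) (z : (Fin D → Bool) × (Fin D → ℝ)) : LWT_G s W c0 z ∈ F := by
  unfold LWT_G
  split_ifs with h
  · exact LWT_mem s hF hW hD hc h z.2
  · exact hc

private lemma LWT_G_cont (s : Sys S F D d) (W : ℝ) (c0 : X) (b : Fin D → Bool) :
    Continuous fun x : Fin D → ℝ => LWT_G s W c0 (b, x) := by
  unfold LWT_G
  by_cases h : Adm W b
  · simp only [h, if_true]
    refine (s.continuous_pt c0 (wt W b)).comp ?_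
    exact continuous_pi fun k => continuous_const.mul (continuous_clip.comp (continuous_apply k))
  · simp only [h, if_false]
    exact continuous_const

private lemma LWT_G_meas (s : Sys S F D d) {W : ℝ} {c0 : X}
    (hmem : ∀ z : (Fin D → Bool) × (Fin D → ℝ), LWT_G s W c0 z ∈ F) :
    @Measurable ((Fin D → Bool) × (Fin D → ℝ)) F _ (borel F)
      (fun z => (⟨LWT_G s W c0 z, hmem z⟩ : F)) := by
  letI : MeasurableSpace F := borel F
  haveI : BorelSpace F := ⟨rfl⟩
  refine measurable_from_prod_countable_right fun b => ?_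
  exact (Continuous.subtype_mk (LWT_G_cont s W c0 b) _).measurable

theorem lower_of_multi {A W : ℝ} (hA : 1 ≤ A) (hW : 1 < W) {q : ℕ}
    (P : (Fin q → Fin D → ℝ) → Prop)
    (hmulti : ∀ θ : Fin q → Fin D → ℝ, P θ →
      ∀ (τ : ℝ) (_ : 0 ≤ τ) (h : (Fin D → Bool) → (Fin D → ℝ) → ℝ), (∀ b, Measurable (h b)) →
        (∀ b x, 0 ≤ h b x) → (∀ b x, h b x ≤ τ) →
        (∀ i b x, Adm W b → (∀ k, |x k| ≤ 1) → (∀ k, |x k + sh A W (θ i) b k| ≤ 1) →
          τ ≤ h b x + h b (x + sh A W (θ i) b)) →
        τ / 4 ≤ EE W h)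
    (s : Sys S F D d) (hF : Convex ℝ F) (hne : F.Nonempty) (hD : 0 < D) {m : ℕ} {c2 : ℝ}
    (hc2 : 0 < c2)
    (hdir : ∀ K : Submodule ℝ (EuclideanSpace ℝ (Fin D)), finrank ℝ K ≤ m →
      ∃ (e : Fin q → Fin D) (θ : Fin q → EuclideanSpace ℝ (Fin D)),
        P (fun l k => θ l k) ∧ ∀ l, θ l ∈ Kᗮ ∧ c2 ≤ inner ℝ (row s.mat (e l)) (θ l))
    {ρ : ℝ} (hρ : eRan S F m < ENNReal.ofReal ρ) :
    A * c2 / (64 * D) ≤ ρ := by
  obtain ⟨c0, hc0⟩ := hne
  have hD' : (0 : ℝ) < D := by exact_mod_cast hD
  haveI := LWT_prob hW D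
  have hmem := LWT_G_mem s hF hW hD hc0
  obtain ⟨N, φ, hmeas, hint⟩ := exists_det (LWT_mu W D)
    (fun z => (⟨LWT_G s W c0 z, hmem z⟩ : F)) (LWT_G_meas s hmem) hρ
  set err : (Fin D → Bool) × (Fin D → ℝ) → ℝ := fun z =>
    ‖S (LWT_G s W c0 z) - φ (fun j => N j (LWT_G s W c0 z))‖ with herr
  have herr0 : ∀ z, 0 ≤ err z := fun z => norm_nonneg _
  have herrm : Measurable err := by
    have h1 : err = fun z => (‖S (LWT_G s W c0 z) - φ (fun j => N j (LWT_G s W c0 z))‖ₑ).toReal := by
      funext z
      simp [herr]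
    rw [h1]
    exact ENNReal.measurable_toReal.comp hmeas
  set K : Submodule ℝ (EuclideanSpace ℝ (Fin D)) :=
    Submodule.span ℝ (Set.range fun j => s.nvec (N j)) with hK
  have hKm : finrank ℝ K ≤ m := by
    have := finrank_range_le_card (R := ℝ) (fun j : Fin m => s.nvec (N j))
    simpa [Set.finrank, hK] using this
  obtain ⟨e, θ, hP, hθ⟩ := hdir K hKm
  set τ : ℝ := A * c2 / (16 * D) with hτ
  have hτ0 : 0 ≤ τ := by positivity
  have hkey := hmulti (fun l k => θ l k) hP τ hτ0 (fun b x => min τ (err (b, x)))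
    (fun b => measurable_const.min (herrm.comp measurable_prodMk_left))
    (fun b x => le_min hτ0 (herr0 _)) (fun b x => min_le_left _ _) (by
      intro l b x hb hx hx'
      have hsum : τ ≤ err (b, x) + err (b, x + sh A W (fun k => θ l k) b) := by
        have hG1 : LWT_G s W c0 (b, x) = s.pt c0 (wt W b) (fun k => wt W b k * x k) := by
          unfold LWT_G
          simp only [hb, if_true]
          congr 1
          funext k
          rw [clip_of_abs_le (hx k)]
        have hG2 : LWT_G s W c0 (b, x + sh A W (fun k => θ l k) b)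
            = s.pt c0 (wt W b) ((fun k => wt W b k * x k) + fun k => A / (8 * D) * θ l k) := by
          unfold LWT_G
          simp only [hb, if_true]
          congr 1
          funext k
          rw [Pi.add_apply, clip_of_abs_le (hx' k), Pi.add_apply, mul_add]
          congr 1
          unfold wt sh
          split_ifs
          · field_simp
          · field_simp
        have hN : ∀ j, ∑ k, N j (s.f k - s.g k) * (A / (8 * D) * θ l k) = 0 := by
          intro j
          have h1 : inner ℝ (s.nvec (N j)) (θ l) = 0 := by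
            have h2 := (hθ l).1
            rw [Submodule.mem_orthogonal] at h2
            exact h2 _ (Submodule.subset_span ⟨j, rfl⟩)
          rw [PiLp.inner_apply] at h1
          simp only [Sys.nvec, RCLike.inner_apply, conj_trivial] at h1
          have h3 : ∑ k, N j (s.f k - s.g k) * (A / (8 * D) * θ l k)
              = A / (8 * D) * ∑ k, θ l k * N j (s.f k - s.g k) := by
            rw [Finset.mul_sum]
            refine Finset.sum_congr rfl fun k _ => by ring
          rw [h3, h1, mul_zero]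
        have h2 := s.two_err c0 (wt W b) (fun k => wt W b k * x k) (fun k => A / (8 * D) * θ l k)
          (e l) N φ hN
        have h3 : ∑ k, s.mat (e l) k * (A / (8 * D) * θ l k)
            = A / (8 * D) * inner ℝ (row s.mat (e l)) (θ l) := by
          rw [PiLp.inner_apply, Finset.mul_sum]
          refine Finset.sum_congr rfl fun k _ => ?_
          simp only [row, RCLike.inner_apply, conj_trivial]
          ring
        rw [h3] at h2
        have h4 : A / (8 * D) * c2 ≤ A / (8 * D) * inner ℝ (row s.mat (e l)) (θ l) :=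
          mul_le_mul_of_nonneg_left (hθ l).2 (by positivity)
        have h5 : τ = A / (8 * D) * c2 / 2 := by
          rw [hτ]
          field_simp
          ring
        have h6 := le_abs_self (A / (8 * D) * inner ℝ (row s.mat (e l)) (θ l))
        simp only [herr]
        rw [hG1, hG2, h5]
        linarith
      rcases le_total τ (err (b, x)) with h1 | h1
      · rw [min_eq_left h1]
        have : 0 ≤ min τ (err (b, x + sh A W (fun k => θ l k) b)) := le_min hτ0 (herr0 _)
        linarith
      · rcases le_total τ (err (b, x + sh A W (fun k => θ l k) b)) with h2 | h2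
        · rw [min_eq_left h2]
          have : 0 ≤ min τ (err (b, x)) := le_min hτ0 (herr0 _)
          linarith
        · rw [min_eq_right h1, min_eq_right h2]
          exact hsum)
  have hEE : ENNReal.ofReal (EE W fun b x => min τ (err (b, x))) < ENNReal.ofReal ρ := by
    refine lt_of_le_of_lt ?_ hint
    refine LWT_EE_le hW hmeas (fun b => measurable_const.min (herrm.comp measurable_prodMk_left))
      (fun b x => le_min hτ0 (herr0 _)) fun b x => ?_
    refine (ENNReal.ofReal_le_ofReal (min_le_right _ _)).trans (le_of_eq ?_)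
    simp only [herr]
    rw [ofReal_norm_eq_enorm]
  have h7 := lt_of_le_of_lt (ENNReal.ofReal_le_ofReal hkey) hEE
  have h8 : τ / 4 < ρ := by
    by_contra hcon
    exact absurd (ENNReal.ofReal_le_ofReal (not_lt.1 hcon)) (not_le.2 h7)
  have h9 : A * c2 / (64 * D) = τ / 4 := by
    rw [hτ]
    field_simp
    ring
  rw [h9]
  exact h8.le

end Pool.Agent.H44.MG
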