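import Pool.Agent.H44.MG.MUA

/-!
# MPB : second moments

Put `R i b x = ∏ k, G (θ i k) (b k) (x k)`. `EE (R i) = 1` by `EE_prod` and `mean`.

`i ≠ j`: `EE (R i R j) = ∏ k u k`, `0 ≤ u k ≤ 1 + a k ≤ exp (a k)`, with `a k` from `ss` or `ls` (by `disj` at most one
of `θ i k`, `θ j k` is large; in `ls` exchange the roles if necessary). The sum of the `a k` is at most
`κ A² |∑_{both small} θ i k θ j k| + C A² (∑_{K_i} + ∑_{K_j}) |θ i k θ j k| + 2 C η A²
≤ κ A² (ε + 2 ε) + 2 C A² ε + 2 C η A²` by `corr`, `spill` and Cauchy–Schwarz.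

`i = j`: `EE (R i ^ 2) ≤ exp (C A²) (C W) ^ (number of k ∈ K_i)` and `#K_i ≤ (A / η)²`.

`EE ((1/q ∑ R i - 1)²) = 1/q² ∑_{i,j} (EE (R i R j) - 1)`.
-/

namespace Pool.Agent.H44.MG

open MeasureTheory

variable {D : ℕ}

theorem MPB_nice_const (c : ℝ) : Nice (fun (_ : Fin D → Bool) (_ : Fin D → ℝ) => c) :=
  ⟨fun _ => measurable_const, |c|, fun _ _ => le_rfl⟩

theorem MPB_nice_smul (c : ℝ) {h : (Fin D → Bool) → (Fin D → ℝ) → ℝ} (hh : Nice h) :
    Nice (fun b x => c * h b x) := by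
  obtain ⟨h1, B, hB⟩ := hh
  refine ⟨fun b => (h1 b).const_mul c, |c| * B, fun b x => ?_⟩
  rw [abs_mul]
  exact mul_le_mul_of_nonneg_left (hB b x) (abs_nonneg c)

theorem MPB_nice_mul {h g : (Fin D → Bool) → (Fin D → ℝ) → ℝ} (hh : Nice h) (hg : Nice g) :
    Nice (fun b x => h b x * g b x) := by
  obtain ⟨h1, B, hB⟩ := hh
  obtain ⟨g1, B', hB'⟩ := hg
  refine ⟨fun b => (h1 b).mul (g1 b), B * B', fun b x => ?_⟩
  rw [abs_mul]
  exact mul_le_mul (hB b x) (hB' b x) (abs_nonneg _) ((abs_nonneg _).trans (hB b x))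

theorem MPB_nice_add {h g : (Fin D → Bool) → (Fin D → ℝ) → ℝ} (hh : Nice h) (hg : Nice g) :
    Nice (fun b x => h b x + g b x) := by
  obtain ⟨h1, B, hB⟩ := hh
  obtain ⟨g1, B', hB'⟩ := hg
  refine ⟨fun b => (h1 b).add (g1 b), B + B', fun b x => ?_⟩
  exact (abs_add_le _ _).trans (add_le_add (hB b x) (hB' b x))

theorem MPB_nice_sum {ι : Type} (s : Finset ι) {h : ι → (Fin D → Bool) → (Fin D → ℝ) → ℝ}
    (hh : ∀ i ∈ s, Nice (h i)) : Nice (fun b x => ∑ i ∈ s, h i b x) := by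
  classical
  induction s using Finset.induction_on with
  | empty =>
    simp only [Finset.sum_empty]
    exact MPB_nice_const 0
  | insert a s ha ih =>
    simp only [Finset.sum_insert ha]
    exact MPB_nice_add (hh a (Finset.mem_insert_self a s))
      (ih fun i hi => hh i (Finset.mem_insert_of_mem hi))

theorem MPB_nice_R {A η W C κ : ℝ} {G : ℝ → Bool → ℝ → ℝ} (hG : GoodG A η W C κ G)
    (t : Fin D → ℝ) (ht : ∀ k, |t k| ≤ 1) :
    Nice (fun b x => ∏ k, G (t k) (b k) (x k)) := by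
  obtain ⟨B, hB⟩ := hG.bdd
  refine ⟨fun b => Finset.measurable_prod _ fun k _ => (hG.meas _ _).comp (measurable_pi_apply k),
    B ^ D, fun b x => ?_⟩
  rw [Finset.abs_prod]
  calc ∏ k, |G (t k) (b k) (x k)| ≤ ∏ _k : Fin D, B :=
        Finset.prod_le_prod (fun _ _ => abs_nonneg _) fun k _ => hB _ _ _ (ht k)
    _ = B ^ D := by rw [Finset.prod_const, Finset.card_univ, Fintype.card_fin]

theorem MPB_dens_nonneg (x : ℝ) : 0 ≤ dens x := by
  unfold dens
  split_ifs
  · positivity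
  · exact le_rfl

theorem MPB_ec_nonneg {W : ℝ} (hW : 1 ≤ W) {F : Bool → ℝ → ℝ} (hF : ∀ b x, 0 ≤ F b x) :
    0 ≤ ec W F := by
  unfold ec
  have h1 : 1 / W ≤ 1 := by rw [div_le_one (by linarith)]; exact hW
  have h2 : ∀ b, 0 ≤ ∫ x, F b x * dens x := fun b =>
    integral_nonneg fun x => mul_nonneg (hF b x) (MPB_dens_nonneg x)
  have h3 : 0 ≤ 1 / W := by positivity
  exact add_nonneg (mul_nonneg (by linarith) (h2 false)) (mul_nonneg h3 (h2 true))

theorem MPB_abs_le {t : Fin D → ℝ} (h : ∑ k, t k ^ 2 = 1) (k : Fin D) : |t k| ≤ 1 := by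
  have h1 : t k ^ 2 ≤ ∑ k, t k ^ 2 :=
    Finset.single_le_sum (f := fun k => t k ^ 2) (fun i _ => sq_nonneg (t i)) (Finset.mem_univ k)
  rw [h] at h1
  exact (sq_le_one_iff_abs_le_one _).mp h1

/-- diagonal terms -/
theorem MPB_diag {A η W C κ : ℝ} {G : ℝ → Bool → ℝ → ℝ} (hG : GoodG A η W C κ G)
    (hA : 1 ≤ A) (hη : 0 < η) (hW : 1 ≤ W) (hC : 1 ≤ C) (t : Fin D → ℝ) (ht : ∑ k, t k ^ 2 = 1) :
    ∏ k, ec W (fun b x => G (t k) b x * G (t k) b x) ≤
      (C * W) ^ ((A / η) ^ 2) * Real.exp (C * A ^ 2) := by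
  have habs := MPB_abs_le ht
  have hCW : 1 ≤ C * W := by nlinarith
  set K := Finset.univ.filter (fun k => η ≤ |A * t k|) with hK
  have hcard : (K.card : ℝ) ≤ (A / η) ^ 2 := by
    have h1 : ∑ k ∈ K, η ^ 2 ≤ ∑ k ∈ K, (A * t k) ^ 2 := by
      refine Finset.sum_le_sum fun k hk => ?_
      rw [hK, Finset.mem_filter] at hk
      rw [← sq_abs (A * t k)]
      exact pow_le_pow_left₀ hη.le hk.2 2
    have h2 : ∑ k ∈ K, (A * t k) ^ 2 ≤ ∑ k, (A * t k) ^ 2 :=
      Finset.sum_le_sum_of_subset_of_nonneg (Finset.subset_univ _) fun _ _ _ => sq_nonneg _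
    have h3 : ∑ k, (A * t k) ^ 2 = A ^ 2 := by
      simp only [mul_pow]
      rw [← Finset.mul_sum, ht, mul_one]
    rw [Finset.sum_const, nsmul_eq_mul] at h1
    rw [div_pow, le_div_iff₀ (by positivity)]
    linarith
  have hk : ∀ k, ec W (fun b x => G (t k) b x * G (t k) b x) ≤
      (if η ≤ |A * t k| then C * W else 1) * Real.exp (C * A ^ 2 * t k ^ 2) := by
    intro k
    have e : (fun b x => G (t k) b x * G (t k) b x) = (fun b x => G (t k) b x ^ 2) := by
      funext b x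
      ring
    rw [e]
    have h0 : 0 ≤ C * A ^ 2 * t k ^ 2 := by positivity
    split_ifs with h
    · have h1 := hG.dl (t k) (habs k) h
      have h2 := Real.one_le_exp h0
      calc _ ≤ C * W := h1
        _ = C * W * 1 := (mul_one _).symm
        _ ≤ _ := mul_le_mul_of_nonneg_left h2 (by linarith)
    · have h1 := hG.ds (t k) (habs k) (lt_of_not_ge h)
      have h2 := Real.add_one_le_exp (C * A ^ 2 * t k ^ 2)
      rw [one_mul]
      calc _ ≤ _ := h1
        _ = C * A ^ 2 * t k ^ 2 + 1 := by ring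
        _ ≤ _ := h2
  calc ∏ k, ec W (fun b x => G (t k) b x * G (t k) b x)
      ≤ ∏ k, ((if η ≤ |A * t k| then C * W else 1) * Real.exp (C * A ^ 2 * t k ^ 2)) :=
        Finset.prod_le_prod (fun k _ => MPB_ec_nonneg hW fun b x => mul_self_nonneg _)
          fun k _ => hk k
    _ = (C * W) ^ K.card * Real.exp (C * A ^ 2) := by
        rw [Finset.prod_mul_distrib]
        congr 1
        · rw [Finset.prod_ite, Finset.prod_const, Finset.prod_const_one, mul_one]
        · rw [← Real.exp_sum, ← Finset.mul_sum, ht, mul_one]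
    _ ≤ _ := by
        apply mul_le_mul_of_nonneg_right _ (Real.exp_pos _).le
        rw [← Real.rpow_natCast]
        exact Real.rpow_le_rpow_of_exponent_le hCW hcard

/-- off-diagonal terms -/
theorem MPB_off {A η W C κ ε : ℝ} {G : ℝ → Bool → ℝ → ℝ} (hG : GoodG A η W C κ G)
    (hη : 0 < η) (hW : 1 ≤ W) (hC : 1 ≤ C) (hκ : 0 ≤ κ) (hκC : κ ≤ C) (hε : 0 ≤ ε)
    (s t : Fin D → ℝ) (hs : ∑ k, s k ^ 2 = 1) (ht : ∑ k, t k ^ 2 = 1)
    (hcorr : |∑ k, s k * t k| ≤ ε) (hdisj : ∀ k, ¬ (η ≤ |A * s k| ∧ η ≤ |A * t k|))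
    (h1 : ∑ k ∈ Finset.univ.filter (fun k => η ≤ |A * s k|), t k ^ 2 ≤ ε ^ 2)
    (h2 : ∑ k ∈ Finset.univ.filter (fun k => η ≤ |A * t k|), s k ^ 2 ≤ ε ^ 2) :
    ∏ k, ec W (fun b x => G (s k) b x * G (t k) b x) ≤
      Real.exp (5 * C * A ^ 2 * ε + 2 * C * η * A ^ 2) := by
  have habs := MPB_abs_le hs
  have habt := MPB_abs_le ht
  -- Cauchy-Schwarz
  have cs : ∀ (K : Finset (Fin D)) (f g : Fin D → ℝ), ∑ k, f k ^ 2 = 1 → ∑ k ∈ K, g k ^ 2 ≤ ε ^ 2 →
      ∑ k ∈ K, |f k * g k| ≤ ε := by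
    intro K f g hf hg
    have h3 := Finset.sum_mul_sq_le_sq_mul_sq K (fun k => |f k|) (fun k => |g k|)
    simp only [sq_abs] at h3
    have h4 : ∑ k ∈ K, f k ^ 2 ≤ 1 := by
      rw [← hf]
      exact Finset.sum_le_sum_of_subset_of_nonneg (Finset.subset_univ _) fun _ _ _ => sq_nonneg _
    have h5 : 0 ≤ ∑ k ∈ K, f k ^ 2 := Finset.sum_nonneg fun _ _ => sq_nonneg _
    have h6 : 0 ≤ ∑ k ∈ K, g k ^ 2 := Finset.sum_nonneg fun _ _ => sq_nonneg _
    have h7 : (∑ k ∈ K, |f k| * |g k|) ^ 2 ≤ ε ^ 2 := by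
      calc _ ≤ _ := h3
        _ ≤ 1 * ε ^ 2 := mul_le_mul h4 hg h6 (by norm_num)
        _ = _ := one_mul _
    simp only [abs_mul]
    exact (abs_le_of_sq_le_sq' h7 hε).2
  set K := Finset.univ.filter (fun k => η ≤ |A * s k|) with hK
  set L := Finset.univ.filter (fun k => η ≤ |A * t k|) with hL
  have hKL : Disjoint K L := by
    rw [Finset.disjoint_left]
    intro k hk hl
    rw [hK, Finset.mem_filter] at hk
    rw [hL, Finset.mem_filter] at hl
    exact hdisj k ⟨hk.2, hl.2⟩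
  have b1 : ∑ k ∈ K, |s k * t k| ≤ ε := cs K s t hs h1
  have b2 : ∑ k ∈ L, |s k * t k| ≤ ε := by
    have := cs L t s ht h2
    simpa only [mul_comm] using this
  have b3 : ∑ k ∈ K ∪ L, |s k * t k| ≤ 2 * ε := by
    rw [Finset.sum_union hKL]
    linarith
  set a : Fin D → ℝ := fun k =>
    (if k ∈ K ∪ L then C * (A ^ 2 * |s k * t k|) else κ * (A ^ 2 * (s k * t k)))
      + C * η * (A ^ 2 * (s k ^ 2 + t k ^ 2)) with ha
  have hk : ∀ k, ec W (fun b x => G (s k) b x * G (t k) b x) ≤ Real.exp (a k) := by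
    intro k
    have h3 : ec W (fun b x => G (s k) b x * G (t k) b x) ≤ 1 + a k := by
      rw [ha]
      simp only
      by_cases hk1 : η ≤ |A * s k|
      · have hk2 : |A * t k| < η := lt_of_not_ge fun h => hdisj k ⟨hk1, h⟩
        have hmem : k ∈ K ∪ L := Finset.mem_union_left _ (by rw [hK, Finset.mem_filter]; exact ⟨Finset.mem_univ _, hk1⟩)
        rw [if_pos hmem]
        have := hG.ls (s k) (t k) (habs k) (habt k) hk1 hk2
        linarith
      · by_cases hk2 : η ≤ |A * t k|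
        · have hmem : k ∈ K ∪ L := Finset.mem_union_right _ (by rw [hL, Finset.mem_filter]; exact ⟨Finset.mem_univ _, hk2⟩)
          rw [if_pos hmem]
          have h4 := hG.ls (t k) (s k) (habt k) (habs k) hk2 (lt_of_not_ge hk1)
          have e : (fun b x => G (s k) b x * G (t k) b x) = (fun b x => G (t k) b x * G (s k) b x) := by
            funext b x
            ring
          rw [e]
          rw [mul_comm (t k) (s k)] at h4
          linarith
        · have hmem : k ∉ K ∪ L := by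
            rw [Finset.mem_union, hK, hL, Finset.mem_filter, Finset.mem_filter]
            rintro (h | h)
            · exact hk1 h.2
            · exact hk2 h.2
          rw [if_neg hmem]
          have := hG.ss (s k) (t k) (habs k) (habt k) (lt_of_not_ge hk1) (lt_of_not_ge hk2)
          linarith
    have h4 := Real.add_one_le_exp (a k)
    linarith
  calc ∏ k, ec W (fun b x => G (s k) b x * G (t k) b x) ≤ ∏ k, Real.exp (a k) :=
        Finset.prod_le_prod (fun k _ => MPB_ec_nonneg hW fun b x =>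
          mul_nonneg (hG.nonneg _ _ _ (habs k)) (hG.nonneg _ _ _ (habt k))) fun k _ => hk k
    _ = Real.exp (∑ k, a k) := (Real.exp_sum _ _).symm
    _ ≤ _ := by
        apply Real.exp_le_exp.mpr
        have c1 : ∑ k, a k = (C * A ^ 2 * ∑ k ∈ K ∪ L, |s k * t k|
            + κ * A ^ 2 * (∑ k, s k * t k - ∑ k ∈ K ∪ L, s k * t k)) + 2 * C * η * A ^ 2 := by
          rw [ha]
          simp only
          rw [Finset.sum_add_distrib]
          congr 1
          · rw [Finset.sum_ite, Finset.filter_mem_eq_inter, Finset.univ_inter]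
            congr 1
            · rw [Finset.mul_sum]
              refine Finset.sum_congr rfl fun k _ => by ring
            · have c2 : ∑ k, s k * t k = ∑ k ∈ K ∪ L, s k * t k
                  + ∑ k ∈ Finset.univ.filter (fun k => k ∉ K ∪ L), s k * t k := by
                rw [← Finset.sum_filter_add_sum_filter_not Finset.univ (fun k => k ∈ K ∪ L) (fun k => s k * t k)]
                rw [Finset.filter_mem_eq_inter, Finset.univ_inter]
              rw [c2, add_sub_cancel_left, Finset.mul_sum]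
              refine Finset.sum_congr rfl fun k _ => by ring
          · rw [← Finset.mul_sum, ← Finset.mul_sum, Finset.sum_add_distrib, hs, ht]
            ring
        rw [c1]
        have c3 : |∑ k ∈ K ∪ L, s k * t k| ≤ ∑ k ∈ K ∪ L, |s k * t k| := Finset.abs_sum_le_sum_abs _ _
        have c4 := abs_le.mp (c3.trans b3)
        have c5 := abs_le.mp hcorr
        have hA2 : 0 ≤ A ^ 2 := sq_nonneg A
        have hCA : 0 ≤ C * A ^ 2 := by positivity
        have hκA : 0 ≤ κ * A ^ 2 := by positivity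
        have c6 : C * A ^ 2 * ∑ k ∈ K ∪ L, |s k * t k| ≤ C * A ^ 2 * (2 * ε) :=
          mul_le_mul_of_nonneg_left b3 hCA
        have c7 : κ * A ^ 2 * (∑ k, s k * t k - ∑ k ∈ K ∪ L, s k * t k) ≤ κ * A ^ 2 * (3 * ε) :=
          mul_le_mul_of_nonneg_left (by linarith) hκA
        have c8 : κ * A ^ 2 * (3 * ε) ≤ C * A ^ 2 * (3 * ε) :=
          mul_le_mul_of_nonneg_right (mul_le_mul_of_nonneg_right hκC hA2) (by linarith)
        nlinarith

theorem second_moment {A η W C κ ε : ℝ} {G : ℝ → Bool → ℝ → ℝ} (hG : GoodG A η W C κ G)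
    (hA : 1 ≤ A) (hη : 0 < η) (hW : 1 ≤ W) (hC : 1 ≤ C) (hκ : 0 ≤ κ) (hκC : κ ≤ C) (hε : 0 ≤ ε)
    {D q : ℕ} (hq : 0 < q) (θ : Fin q → Fin D → ℝ) (hθ : Fam A η ε θ) :
    EE W (fun b x => ((∑ i, ∏ k, G (θ i k) (b k) (x k)) / q - 1) ^ 2) ≤
      (C * W) ^ ((A / η) ^ 2) * Real.exp (C * A ^ 2) / q +
        (Real.exp (5 * C * A ^ 2 * ε + 2 * C * η * A ^ 2) - 1) := by
  have hq0 : (0 : ℝ) < q := by exact_mod_cast hq
  have habs : ∀ i k, |θ i k| ≤ 1 := fun i => MPB_abs_le (hθ.unit i)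
  have hR : ∀ i, Nice (fun (b : Fin D → Bool) x => ∏ k, G (θ i k) (b k) (x k)) := fun i =>
    MPB_nice_R hG (θ i) (habs i)
  set R : Fin q → (Fin D → Bool) → (Fin D → ℝ) → ℝ := fun i b x => ∏ k, G (θ i k) (b k) (x k) with hRdef
  have hRR : ∀ i j, Nice (fun b x => R i b x * R j b x) := fun i j => MPB_nice_mul (hR i) (hR j)
  set Dg := (C * W) ^ ((A / η) ^ 2) * Real.exp (C * A ^ 2) with hDg
  set E := Real.exp (5 * C * A ^ 2 * ε + 2 * C * η * A ^ 2) with hE
  have hE0 : 0 ≤ E := (Real.exp_pos _).le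
  have hDg0 : 0 ≤ Dg := by positivity
  have m1 : ∀ i, EE W (R i) = 1 := by
    intro i
    have := EE_prod (D := D) (W := W) (fun k b x => G (θ i k) b x)
    rw [hRdef]
    simp only at this ⊢
    rw [this]
    exact Finset.prod_eq_one fun k _ => hG.mean _ (habs i k)
  have m2 : ∀ i j, EE W (fun b x => R i b x * R j b x)
      = ∏ k, ec W (fun b x => G (θ i k) b x * G (θ j k) b x) := by
    intro i j
    rw [← EE_prod (D := D) (W := W) (fun k b x => G (θ i k) b x * G (θ j k) b x)]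
    congr 1
    funext b x
    rw [hRdef]
    simp only
    rw [← Finset.prod_mul_distrib]
  have m3 : ∀ i j, EE W (fun b x => R i b x * R j b x) ≤ (if i = j then Dg else 0) + E := by
    intro i j
    rw [m2]
    split_ifs with hij
    · subst hij
      have := MPB_diag hG hA hη hW hC (θ i) (hθ.unit i)
      linarith
    · rw [zero_add]
      exact MPB_off hG hη hW hC hκ hκC hε (θ i) (θ j) (hθ.unit i) (hθ.unit j) (hθ.corr i j hij)
        (hθ.disj i j hij) (hθ.spill i j hij) (hθ.spill j i (Ne.symm hij))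
  have m4 : EE W (fun b x => ((∑ i, R i b x) / q - 1) ^ 2)
      = (1 / (q : ℝ) ^ 2) * ∑ i, ∑ j, EE W (fun b x => R i b x * R j b x) - 1 := by
    have e1 : (fun b x => ((∑ i, R i b x) / q - 1) ^ 2) = (fun (b : Fin D → Bool) (x : Fin D → ℝ) =>
        ((1 / (q : ℝ) ^ 2) * ∑ i, ∑ j, R i b x * R j b x) + ((-2 / (q : ℝ)) * (∑ i, R i b x) + 1)) := by
      funext b x
      have e2 : ∑ i, ∑ j, R i b x * R j b x = (∑ i, R i b x) * (∑ i, R i b x) := by
        rw [Finset.sum_mul_sum]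
      rw [e2]
      field_simp
      ring
    have n1 : Nice (fun (b : Fin D → Bool) (x : Fin D → ℝ) => ∑ i, R i b x) :=
      MPB_nice_sum Finset.univ fun i _ => hR i
    have n2 : ∀ i, Nice (fun (b : Fin D → Bool) (x : Fin D → ℝ) => ∑ j, R i b x * R j b x) := fun i =>
      MPB_nice_sum Finset.univ fun j _ => hRR i j
    have n3 : Nice (fun (b : Fin D → Bool) (x : Fin D → ℝ) => ∑ i, ∑ j, R i b x * R j b x) :=
      MPB_nice_sum Finset.univ fun i _ => n2 i
    rw [e1, EE_add (MPB_nice_smul _ n3) (MPB_nice_add (MPB_nice_smul _ n1) (MPB_nice_const 1)),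
      EE_add (MPB_nice_smul _ n1) (MPB_nice_const 1), EE_smul, EE_smul, EE_const,
      EE_sum Finset.univ (fun i _ => n2 i), EE_sum Finset.univ (fun i _ => hR i)]
    have e3 : ∀ i, EE W (fun b x => ∑ j, R i b x * R j b x) = ∑ j, EE W (fun b x => R i b x * R j b x) :=
      fun i => EE_sum Finset.univ (fun j _ => hRR i j)
    simp only [e3]
    have e4 : ∑ i : Fin q, EE W (fun b x => R i b x) = q := by
      have : ∀ i : Fin q, EE W (fun b x => R i b x) = 1 := m1
      simp only [this, Finset.sum_const, Finset.card_univ, Fintype.card_fin, nsmul_eq_mul, mul_one]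
    rw [e4]
    field_simp
    ring
  rw [m4]
  have m5 : ∑ i, ∑ j, EE W (fun b x => R i b x * R j b x) ≤ q * (Dg + q * E) := by
    calc ∑ i, ∑ j, EE W (fun b x => R i b x * R j b x)
        ≤ ∑ i : Fin q, ∑ j : Fin q, ((if i = j then Dg else 0) + E) :=
          Finset.sum_le_sum fun i _ => Finset.sum_le_sum fun j _ => m3 i j
      _ = q * (Dg + q * E) := by
          simp only [Finset.sum_add_distrib, Finset.sum_ite_eq, Finset.mem_univ, if_true,
            Finset.sum_const, Finset.card_univ, Fintype.card_fin, nsmul_eq_mul]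
          ring
  have m6 : (1 / (q : ℝ) ^ 2) * ∑ i, ∑ j, EE W (fun b x => R i b x * R j b x)
      ≤ (1 / (q : ℝ) ^ 2) * (q * (Dg + q * E)) := mul_le_mul_of_nonneg_left m5 (by positivity)
  have m7 : (1 / (q : ℝ) ^ 2) * (q * (Dg + q * E)) = Dg / q + E := by
    field_simp
  rw [m7] at m6
  linarith

end Pool.Agent.H44.MG
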