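import Pool.Agent.H44.MG.Defs

/-!
# ONA : the density

`∫_{-1}^{1} (1 - x²)⁴ dx = 256/315`. The function `q x = √(dens x) = √(315/256) (1 - x²)²` on `[-1, 1]` (and
`0` outside) is `2`-Lipschitz (`4 |x| (1 - x²) ≤ 1.54` and `√(315/256) ≤ 1.11`). Since
`∫ q² = 1` we have `∫ q x q (x + δ) = 1 - 1/2 ∫ (q x - q (x + δ))²`, and the integrand is at most
`4 δ²` and vanishes outside the interval `[-1 - |δ|, 1 + |δ|]`, of length `≤ 3`... precisely, it vanishes
unless `x ∈ [-1, 1]` or `x + δ ∈ [-1, 1]`, a set of measure at most `2 + |δ| ≤ 3`.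
-/

namespace Pool.Agent.H44.MG

open MeasureTheory

theorem ona_clip_abs (x : ℝ) : -1 ≤ clip x ∧ clip x ≤ 1 := by
  unfold clip
  constructor
  · exact le_max_left _ _
  · exact max_le (by norm_num) (min_le_left _ _)

theorem ona_clip_lip (x y : ℝ) : |clip x - clip y| ≤ |x - y| := by
  unfold clip
  calc |max (-1) (min 1 x) - max (-1) (min 1 y)| ≤ |min 1 x - min 1 y| := by
        have := abs_max_sub_max_le_max (-1 : ℝ) (min 1 x) (-1) (min 1 y)
        simpa using this
    _ ≤ |x - y| := by
        have := abs_min_sub_min_le_max (1 : ℝ) x 1 y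
        simpa using this

theorem ona_continuous_clip : Continuous clip := by
  unfold clip
  fun_prop

theorem ona_dens_eq (x : ℝ) : dens x = 315 / 256 * (1 - (clip x) ^ 2) ^ 4 := by
  unfold dens clip
  split_ifs with h
  · rw [abs_lt] at h
    rw [min_eq_right h.2.le, max_eq_right h.1.le]
  · rw [not_lt, le_abs] at h
    rcases h with h | h
    · rw [min_eq_left h, max_eq_right (by norm_num)]
      norm_num
    · rw [min_eq_right (by linarith), max_eq_left (by linarith)]
      norm_num

theorem ona_sqrt_dens (x : ℝ) :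
    Real.sqrt (dens x) = Real.sqrt (315 / 256) * (1 - (clip x) ^ 2) ^ 2 := by
  rw [ona_dens_eq, Real.sqrt_mul (by norm_num)]
  congr 1
  rw [show (1 - (clip x) ^ 2) ^ 4 = ((1 - (clip x) ^ 2) ^ 2) ^ 2 by ring]
  exact Real.sqrt_sq (by positivity)

theorem dens_nonneg (x : ℝ) : 0 ≤ dens x := by
  rw [ona_dens_eq]; positivity

theorem dens_le (x : ℝ) : dens x ≤ 2 := by
  rw [ona_dens_eq]
  obtain ⟨h1, h2⟩ := ona_clip_abs x
  have h3 : (clip x) ^ 2 ≤ 1 := by nlinarith
  have h4 : 0 ≤ 1 - (clip x) ^ 2 := by linarith
  have h5 : 1 - (clip x) ^ 2 ≤ 1 := by nlinarith [sq_nonneg (clip x)]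
  have h6 : (1 - (clip x) ^ 2) ^ 4 ≤ 1 := pow_le_one₀ h4 h5
  linarith

theorem dens_zero {x : ℝ} (h : 1 ≤ |x|) : dens x = 0 := by
  unfold dens
  rw [if_neg (by linarith)]

theorem continuous_dens : Continuous dens := by
  have h : dens = fun x => 315 / 256 * (1 - (clip x) ^ 2) ^ 4 := by
    funext x; exact ona_dens_eq x
  rw [h]
  have := ona_continuous_clip
  fun_prop

theorem ona_compactSupport_dens : HasCompactSupport dens := by
  apply HasCompactSupport.intro (K := Set.Icc (-1) 1) isCompact_Icc
  intro x hx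
  apply dens_zero
  by_contra h
  push Not at h
  rw [abs_lt] at h
  exact hx ⟨h.1.le, h.2.le⟩

theorem integrable_dens : Integrable dens :=
  continuous_dens.integrable_of_hasCompactSupport ona_compactSupport_dens

theorem integral_dens : ∫ x, dens x = 1 := by
  have h1 : ∫ x, dens x = ∫ x in Set.Ioc (-1 : ℝ) 1, dens x := by
    rw [setIntegral_eq_integral_of_forall_compl_eq_zero]
    intro x hx
    apply dens_zero
    by_contra h
    push Not at h
    rw [abs_lt] at h
    exact hx ⟨h.1, h.2.le⟩
  rw [h1, ← intervalIntegral.integral_of_le (by norm_num : (-1 : ℝ) ≤ 1)]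
  have h2 : ∫ x in (-1 : ℝ)..1, dens x =
      ∫ x in (-1 : ℝ)..1, (315 / 256 * (1 - 4 * x ^ 2 + 6 * x ^ 4 - 4 * x ^ 6 + x ^ 8)) := by
    apply intervalIntegral.integral_congr
    intro x hx
    rw [Set.uIcc_of_le (by norm_num : (-1 : ℝ) ≤ 1)] at hx
    simp only
    rw [ona_dens_eq]
    have : clip x = x := by
      unfold clip
      rw [min_eq_right hx.2, max_eq_right hx.1]
    rw [this]
    ring
  rw [h2, intervalIntegral.integral_const_mul]
  have h3 : ∫ x in (-1 : ℝ)..1, (1 - 4 * x ^ 2 + 6 * x ^ 4 - 4 * x ^ 6 + x ^ 8) = 256 / 315 := by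
    rw [intervalIntegral.integral_add, intervalIntegral.integral_sub, intervalIntegral.integral_add,
      intervalIntegral.integral_sub]
    · simp only [intervalIntegral.integral_const_mul, integral_pow, intervalIntegral.integral_const]
      norm_num
    all_goals exact Continuous.intervalIntegrable (by fun_prop) _ _
  rw [h3]
  norm_num

theorem ona_lip (x y : ℝ) : |Real.sqrt (dens x) - Real.sqrt (dens y)| ≤ 2 * |x - y| := by
  rw [ona_sqrt_dens, ona_sqrt_dens, ← mul_sub, abs_mul, abs_of_nonneg (Real.sqrt_nonneg _)]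
  have hc : Real.sqrt (315 / 256) ≤ 111 / 100 := by
    rw [Real.sqrt_le_left (by norm_num)]
    norm_num
  have hl : |(1 - (clip x) ^ 2) ^ 2 - (1 - (clip y) ^ 2) ^ 2| ≤ 16 / 10 * |clip x - clip y| := by
    obtain ⟨a1, a2⟩ := ona_clip_abs x
    obtain ⟨b1, b2⟩ := ona_clip_abs y
    generalize clip x = a at *
    generalize clip y = b at *
    have e : (1 - a ^ 2) ^ 2 - (1 - b ^ 2) ^ 2 = -((a + b) * (2 - a ^ 2 - b ^ 2)) * (a - b) := by ring
    rw [e, abs_mul]
    apply mul_le_mul_of_nonneg_right _ (abs_nonneg _)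
    rw [abs_neg, abs_mul]
    have h0 : 0 ≤ 2 - a ^ 2 - b ^ 2 := by nlinarith
    rw [abs_of_nonneg h0]
    set s := |a + b| with hs
    have hs0 : 0 ≤ s := abs_nonneg _
    have hs2 : s ^ 2 = (a + b) ^ 2 := sq_abs _
    have hs3 : s ≤ 2 := by rw [hs, abs_le]; constructor <;> linarith
    have h1 : 2 - a ^ 2 - b ^ 2 ≤ 2 - s ^ 2 / 2 := by nlinarith [sq_nonneg (a - b)]
    have h2 : s * (2 - a ^ 2 - b ^ 2) ≤ s * (2 - s ^ 2 / 2) := mul_le_mul_of_nonneg_left h1 hs0
    have h3 : s * (2 - s ^ 2 / 2) ≤ 16 / 10 := by
      nlinarith [mul_nonneg (sq_nonneg (s - 115 / 100)) (by linarith : 0 ≤ s + 230 / 100)]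
    linarith
  have hcl := ona_clip_lip x y
  calc Real.sqrt (315 / 256) * |(1 - (clip x) ^ 2) ^ 2 - (1 - (clip y) ^ 2) ^ 2|
      ≤ (111 / 100) * (16 / 10 * |clip x - clip y|) := by
        apply mul_le_mul hc hl (abs_nonneg _) (by norm_num)
    _ ≤ 2 * |x - y| := by nlinarith [abs_nonneg (clip x - clip y), abs_nonneg (x - y)]

theorem affinity {δ : ℝ} (hδ : |δ| ≤ 1) :
    1 - 6 * δ ^ 2 ≤ ∫ x, Real.sqrt (dens x) * Real.sqrt (dens (x + δ)) := by
  have hd : ∀ x, Real.sqrt (dens x) ^ 2 = dens x := fun x => Real.sq_sqrt (dens_nonneg x)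
  have hI1 : Integrable (fun x => dens x) := integrable_dens
  have hI2 : Integrable (fun x => dens (x + δ)) := integrable_dens.comp_add_right δ
  have hqc : Continuous (fun x => Real.sqrt (dens x)) := continuous_dens.sqrt
  have hqc2 : Continuous (fun x => Real.sqrt (dens (x + δ))) :=
    (continuous_dens.comp (continuous_add_const δ)).sqrt
  have hsupp : HasCompactSupport (fun x => Real.sqrt (dens x)) :=
    ona_compactSupport_dens.comp_left Real.sqrt_zero
  have hI3 : Integrable (fun x => Real.sqrt (dens x) * Real.sqrt (dens (x + δ))) :=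
    (hqc.mul hqc2).integrable_of_hasCompactSupport hsupp.mul_right
  have hI4 : Integrable (fun x => (Real.sqrt (dens x) - Real.sqrt (dens (x + δ))) ^ 2) := by
    have : (fun x => (Real.sqrt (dens x) - Real.sqrt (dens (x + δ))) ^ 2) =
        fun x => dens x + dens (x + δ) - 2 * (Real.sqrt (dens x) * Real.sqrt (dens (x + δ))) := by
      funext x
      have h1 := hd x
      have h2 := hd (x + δ)
      nlinarith
    rw [this]
    exact (hI1.add hI2).sub (hI3.const_mul 2)
  have hint2 : ∫ x, dens (x + δ) = 1 := by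
    rw [integral_add_right_eq_self (fun x => dens x) δ]
    exact integral_dens
  have key : ∫ x, (Real.sqrt (dens x) - Real.sqrt (dens (x + δ))) ^ 2 =
      2 - 2 * ∫ x, Real.sqrt (dens x) * Real.sqrt (dens (x + δ)) := by
    have : ∀ x, (Real.sqrt (dens x) - Real.sqrt (dens (x + δ))) ^ 2 =
        dens x + dens (x + δ) - 2 * (Real.sqrt (dens x) * Real.sqrt (dens (x + δ))) := by
      intro x
      have h1 := hd x
      have h2 := hd (x + δ)
      nlinarith
    simp_rw [this]
    have hI12 : Integrable (fun x => dens x + dens (x + δ)) := hI1.add hI2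
    rw [integral_sub hI12 (hI3.const_mul 2), integral_add hI1 hI2, integral_const_mul,
      integral_dens, hint2]
    ring
  have hbound : ∫ x, (Real.sqrt (dens x) - Real.sqrt (dens (x + δ))) ^ 2 ≤ 12 * δ ^ 2 := by
    set a := min (-1 : ℝ) (-1 - δ) with ha
    set b := max (1 : ℝ) (1 - δ) with hb
    have hab : b - a ≤ 3 := by
      rw [abs_le] at hδ
      rcases le_total 0 δ with h | h
      · rw [ha, hb, min_eq_right (by linarith), max_eq_left (by linarith)]; linarith
      · rw [ha, hb, min_eq_left (by linarith), max_eq_right (by linarith)]; linarith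
    have hab0 : a ≤ b := by
      have h1 : a ≤ -1 := min_le_left _ _
      have h2 : 1 ≤ b := le_max_left _ _
      linarith
    calc ∫ x, (Real.sqrt (dens x) - Real.sqrt (dens (x + δ))) ^ 2
        ≤ ∫ x, (Set.Icc a b).indicator (fun _ => 4 * δ ^ 2) x := by
          apply integral_mono hI4
          · exact (continuous_const.integrableOn_Icc).integrable_indicator measurableSet_Icc
          · intro x
            simp only
            by_cases hx : x ∈ Set.Icc a b
            · rw [Set.indicator_of_mem hx]
              have h1 := ona_lip x (x + δ)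
              have h2 : |x - (x + δ)| = |δ| := by
                rw [show x - (x + δ) = -δ by ring, abs_neg]
              rw [h2] at h1
              have h3 : (Real.sqrt (dens x) - Real.sqrt (dens (x + δ))) ^ 2 ≤ (2 * |δ|) ^ 2 := by
                rw [← sq_abs (Real.sqrt (dens x) - Real.sqrt (dens (x + δ)))]
                exact pow_le_pow_left₀ (abs_nonneg _) h1 2
              have h4 : (2 * |δ|) ^ 2 = 4 * δ ^ 2 := by
                rw [mul_pow, sq_abs]; ring
              linarith
            · rw [Set.indicator_of_notMem hx]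
              have h5 : x < a ∨ b < x := by
                by_contra h
                push Not at h
                exact hx ⟨h.1, h.2⟩
              have h6 : 1 ≤ |x| ∧ 1 ≤ |x + δ| := by
                rcases h5 with h | h
                · have h7 : x < -1 := lt_of_lt_of_le h (min_le_left _ _)
                  have h8 : x < -1 - δ := lt_of_lt_of_le h (min_le_right _ _)
                  constructor
                  · rw [le_abs]; right; linarith
                  · rw [le_abs]; right; linarith
                · have h7 : 1 < x := lt_of_le_of_lt (le_max_left _ _) h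
                  have h8 : 1 - δ < x := lt_of_le_of_lt (le_max_right _ _) h
                  constructor
                  · rw [le_abs]; left; linarith
                  · rw [le_abs]; left; linarith
              rw [dens_zero h6.1, dens_zero h6.2]
              simp
      _ = (b - a) * (4 * δ ^ 2) := by
          rw [integral_indicator measurableSet_Icc, setIntegral_const]
          simp [hab0]
      _ ≤ 12 * δ ^ 2 := by nlinarith [sq_nonneg δ]
  rw [key] at hbound
  linarith

end Pool.Agent.H44.MG
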