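import Pool.Agent.H44.MG.Defs2
import Pool.Agent.H44.MG.ONA

/-!
# ONC : elementary facts on `gg`, `sg`, `rh` for `|δ| ≤ 1/8`

* `1 - gg δ = ∫_{|x| > 1 - 2|δ|} dens`; there `1 - x² ≤ 4|δ|`, so `dens ≤ 316 |δ|⁴`, and the set has length
  `4|δ|`: `1 - gg δ ≤ 1264 |δ|⁵ ≤ 20 |δ|³`.
* If `|x - δ| ≤ 1 - 2|δ|` then `|x| ≤ 1 - |δ|`, `1 - x² ≥ |δ|`, `1 - (x - δ)² ≤ 1 - x² + 2|δ|`, so
  `dens (x - δ) / dens x ≤ 3⁴` (for `δ = 0` the quotient is `1` or `0 / 0 = 0`).
* `rh δ x * dens x = sg δ (x - δ) * dens (x - δ)`.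
-/

namespace Pool.Agent.H44.MG

open MeasureTheory

private theorem ONC_set (δ : ℝ) : MeasurableSet {x : ℝ | |x| ≤ 1 - 2 * |δ|} :=
  measurableSet_le (continuous_abs.measurable) measurable_const

private theorem ONC_int_f (δ : ℝ) :
    Integrable (fun x : ℝ => if |x| ≤ 1 - 2 * |δ| then dens x else 0) := by
  have h := integrable_dens.indicator (ONC_set δ)
  refine h.congr (Filter.Eventually.of_forall fun x => ?_)
  by_cases hx : |x| ≤ 1 - 2 * |δ|
  · simp [Set.indicator, hx]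
  · simp [Set.indicator, hx]

theorem gg_le_one (δ : ℝ) : gg δ ≤ 1 := by
  have h1 : gg δ ≤ ∫ x, dens x := by
    refine integral_mono (ONC_int_f δ) integrable_dens fun x => ?_
    simp only
    split_ifs with h
    · exact le_refl _
    · exact dens_nonneg x
  rwa [integral_dens] at h1

theorem gg_nonneg (δ : ℝ) : 0 ≤ gg δ := by
  unfold gg
  refine integral_nonneg fun x => ?_
  simp only [Pi.zero_apply]
  split_ifs with h
  · exact dens_nonneg x
  · exact le_refl _

private theorem ONC_int_c (a b c : ℝ) (h : a ≤ b) :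
    Integrable (Set.indicator (Set.Icc a b) (fun _ : ℝ => c)) ∧
      ∫ x, Set.indicator (Set.Icc a b) (fun _ : ℝ => c) x = (b - a) * c := by
  constructor
  · rw [integrable_indicator_iff measurableSet_Icc]
    exact integrableOn_const (by simp)
  · rw [integral_indicator measurableSet_Icc, setIntegral_const]
    simp [Measure.real, Real.volume_Icc, ENNReal.toReal_ofReal (sub_nonneg.mpr h)]

theorem gg_ge {δ : ℝ} (h : |δ| ≤ 1 / 8) : 1 - 20 * |δ| ^ 3 ≤ gg δ := by
  have hd : 0 ≤ |δ| := abs_nonneg δ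
  obtain ⟨hA1, hA2⟩ := ONC_int_c (1 - 2 * |δ|) 1 (315 * |δ| ^ 4) (by linarith)
  obtain ⟨hB1, hB2⟩ := ONC_int_c (-1) (-(1 - 2 * |δ|)) (315 * |δ| ^ 4) (by linarith)
  have hle : ∀ x : ℝ, dens x ≤ (if |x| ≤ 1 - 2 * |δ| then dens x else 0) +
      (Set.indicator (Set.Icc (1 - 2 * |δ|) 1) (fun _ : ℝ => 315 * |δ| ^ 4) x +
        Set.indicator (Set.Icc (-1) (-(1 - 2 * |δ|))) (fun _ : ℝ => 315 * |δ| ^ 4) x) := by
    intro x
    have hA0 : 0 ≤ Set.indicator (Set.Icc (1 - 2 * |δ|) 1) (fun _ : ℝ => 315 * |δ| ^ 4) x :=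
      Set.indicator_nonneg (fun _ _ => by positivity) x
    have hB0 : 0 ≤ Set.indicator (Set.Icc (-1) (-(1 - 2 * |δ|))) (fun _ : ℝ => 315 * |δ| ^ 4) x :=
      Set.indicator_nonneg (fun _ _ => by positivity) x
    by_cases h1 : |x| ≤ 1 - 2 * |δ|
    · rw [if_pos h1]; linarith
    · rw [if_neg h1, zero_add]
      rw [not_le] at h1
      by_cases h2 : |x| < 1
      · have h3 : dens x ≤ 315 * |δ| ^ 4 := by
          unfold dens
          rw [if_pos h2]
          have h4 : 1 - x ^ 2 ≤ 4 * |δ| := by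
            rw [← sq_abs x]
            nlinarith [abs_nonneg x]
          have h5 : 0 ≤ 1 - x ^ 2 := by
            rw [← sq_abs x]
            nlinarith [abs_nonneg x]
          have h6 : (1 - x ^ 2) ^ 4 ≤ (4 * |δ|) ^ 4 := pow_le_pow_left₀ h5 h4 4
          have h7 : (4 * |δ|) ^ 4 = 256 * |δ| ^ 4 := by ring
          rw [h7] at h6
          linarith
        rcases le_total 0 x with hx | hx
        · rw [abs_of_nonneg hx] at h1 h2
          have : x ∈ Set.Icc (1 - 2 * |δ|) 1 := ⟨h1.le, h2.le⟩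
          rw [Set.indicator_of_mem this]
          linarith
        · rw [abs_of_nonpos hx] at h1 h2
          have : x ∈ Set.Icc (-1) (-(1 - 2 * |δ|)) := ⟨by linarith, by linarith⟩
          rw [Set.indicator_of_mem this]
          linarith
      · rw [dens_zero (not_lt.mp h2)]
        linarith
  have hint := integral_mono integrable_dens ((ONC_int_f δ).add (hA1.add hB1)) hle
  rw [integral_dens, integral_add' (ONC_int_f δ) (hA1.add hB1), integral_add' hA1 hB1, hA2, hB2]
    at hint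
  have h8 : gg δ = ∫ x, (if |x| ≤ 1 - 2 * |δ| then dens x else 0) := rfl
  rw [← h8] at hint
  have h9 : |δ| ^ 5 ≤ 1 / 64 * |δ| ^ 3 := by
    have : |δ| ^ 2 ≤ 1 / 64 := by nlinarith
    calc |δ| ^ 5 = |δ| ^ 2 * |δ| ^ 3 := by ring
      _ ≤ 1 / 64 * |δ| ^ 3 := mul_le_mul_of_nonneg_right this (by positivity)
  have h10 : (0:ℝ) ≤ |δ| ^ 3 := by positivity
  nlinarith

theorem gg_half {δ : ℝ} (h : |δ| ≤ 1 / 8) : 1 / 2 ≤ gg δ := by
  have h1 := gg_ge h
  have h2 : |δ| ^ 3 ≤ (1 / 8) ^ 3 := pow_le_pow_left₀ (abs_nonneg δ) h 3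
  norm_num at h2
  linarith

theorem measurable_sg (δ : ℝ) : Measurable (sg δ) := by
  unfold sg
  exact Measurable.ite (ONC_set δ) measurable_const measurable_const

theorem measurable_rh (δ : ℝ) : Measurable (rh δ) := by
  unfold rh
  have hm := continuous_dens.measurable
  refine Measurable.ite ?_ ?_ measurable_const
  · exact measurableSet_le ((continuous_abs.comp (continuous_id.sub continuous_const)).measurable)
      measurable_const
  · exact (hm.comp (measurable_id.sub_const δ)).div (measurable_const.mul hm)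

theorem sg_nonneg (δ x : ℝ) : 0 ≤ sg δ x := by
  unfold sg
  split_ifs with h
  · exact div_nonneg zero_le_one (gg_nonneg δ)
  · exact le_refl _

theorem rh_nonneg (δ x : ℝ) : 0 ≤ rh δ x := by
  unfold rh
  split_ifs with h
  · exact div_nonneg (dens_nonneg _) (mul_nonneg (gg_nonneg δ) (dens_nonneg x))
  · exact le_refl _

theorem sg_le {δ : ℝ} (h : |δ| ≤ 1 / 8) (x : ℝ) : sg δ x ≤ 2 := by
  unfold sg
  split_ifs with h1
  · rw [div_le_iff₀ (by linarith [gg_half h])]
    linarith [gg_half h]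
  · norm_num

private theorem ONC_cases {δ x : ℝ} (hx : |x - δ| ≤ 1 - 2 * |δ|) (h1 : ¬ |x| < 1) :
    dens x = 0 ∧ dens (x - δ) = 0 := by
  have h2 : |x| ≤ |x - δ| + |δ| := by
    calc |x| = |(x - δ) + δ| := by rw [sub_add_cancel]
      _ ≤ |x - δ| + |δ| := abs_add_le _ _
  have h3 : |δ| = 0 := le_antisymm (by linarith [not_lt.mp h1]) (abs_nonneg δ)
  have h4 : δ = 0 := abs_eq_zero.mp h3
  rw [h4, sub_zero]
  exact ⟨dens_zero (not_lt.mp h1), dens_zero (not_lt.mp h1)⟩

private theorem ONC_pos {x : ℝ} (h : |x| < 1) : 0 < dens x := by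
  unfold dens
  rw [if_pos h]
  have : 0 < 1 - x ^ 2 := by
    rw [← sq_abs x]
    nlinarith [abs_nonneg x]
  positivity

theorem rh_le {δ : ℝ} (h : |δ| ≤ 1 / 8) (x : ℝ) : rh δ x ≤ 200 := by
  unfold rh
  split_ifs with hx
  · have hg := gg_half h
    by_cases h1 : |x| < 1
    · have hp := ONC_pos h1
      have h2 : |x| ≤ |x - δ| + |δ| := by
        calc |x| = |(x - δ) + δ| := by rw [sub_add_cancel]
          _ ≤ |x - δ| + |δ| := abs_add_le _ _
      have h3 : |δ| ≤ 1 - x ^ 2 := by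
        rw [← sq_abs x]
        nlinarith [abs_nonneg x]
      have h4 : dens (x - δ) ≤ 81 * dens x := by
        by_cases h5 : |x - δ| < 1
        · unfold dens
          rw [if_pos h5, if_pos h1]
          have h6 : 0 ≤ 1 - (x - δ) ^ 2 := by
            rw [← sq_abs (x - δ)]
            nlinarith [abs_nonneg (x - δ)]
          have h7 : x * δ ≤ |δ| := by
            calc x * δ ≤ |x * δ| := le_abs_self _
              _ = |x| * |δ| := abs_mul _ _
              _ ≤ 1 * |δ| := mul_le_mul_of_nonneg_right h1.le (abs_nonneg δ)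
              _ = |δ| := one_mul _
          have h8 : 1 - (x - δ) ^ 2 ≤ 3 * (1 - x ^ 2) := by nlinarith [sq_nonneg δ]
          have h9 : (1 - (x - δ) ^ 2) ^ 4 ≤ (3 * (1 - x ^ 2)) ^ 4 := pow_le_pow_left₀ h6 h8 4
          have h10 : (3 * (1 - x ^ 2)) ^ 4 = 81 * (1 - x ^ 2) ^ 4 := by ring
          rw [h10] at h9
          linarith
        · rw [dens_zero (not_lt.mp h5)]
          positivity
      rw [div_le_iff₀ (by positivity)]
      nlinarith
    · rw [(ONC_cases hx h1).2]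
      simp
  · norm_num

private theorem ONC_sg_dens (δ x : ℝ) :
    sg δ x * dens x = 1 / gg δ * (if |x| ≤ 1 - 2 * |δ| then dens x else 0) := by
  unfold sg
  split_ifs with h
  · rfl
  · simp

private theorem ONC_int_sg (δ : ℝ) : Integrable (fun x => sg δ x * dens x) := by
  have h := (ONC_int_f δ).const_mul (1 / gg δ)
  exact h.congr (Filter.Eventually.of_forall fun x => (ONC_sg_dens δ x).symm)

theorem sg_int {δ : ℝ} (h : |δ| ≤ 1 / 8) : ∫ x, sg δ x * dens x = 1 := by
  have hg := gg_half h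
  have h1 : ∫ x, sg δ x * dens x = 1 / gg δ * gg δ := by
    unfold gg
    rw [← integral_const_mul]
    exact integral_congr_ae (Filter.Eventually.of_forall fun x => ONC_sg_dens δ x)
  rw [h1, one_div, inv_mul_cancel₀ (by linarith)]

theorem rh_mul_dens {δ : ℝ} (h : |δ| ≤ 1 / 8) (x : ℝ) :
    rh δ x * dens x = sg δ (x - δ) * dens (x - δ) := by
  have hg := gg_half h
  unfold rh sg
  split_ifs with hx
  · by_cases h1 : |x| < 1
    · have hp := ONC_pos h1
      field_simp
    · rw [(ONC_cases hx h1).1, (ONC_cases hx h1).2]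
      simp
  · simp

theorem rh_int {δ : ℝ} (h : |δ| ≤ 1 / 8) : ∫ x, rh δ x * dens x = 1 := by
  have h1 : ∫ x, rh δ x * dens x = ∫ x, sg δ (x - δ) * dens (x - δ) :=
    integral_congr_ae (Filter.Eventually.of_forall fun x => rh_mul_dens h x)
  rw [h1, integral_sub_right_eq_self (fun x => sg δ x * dens x) δ, sg_int h]

/-- `∫ sg δ sg δ' dens ≤ min (gg δ) (gg δ') / (gg δ gg δ')` -/
theorem sg_sg {δ δ' : ℝ} (h : |δ| ≤ 1 / 8) (h' : |δ'| ≤ 1 / 8) :
    ∫ x, sg δ x * sg δ' x * dens x ≤ 1 + 40 * (|δ| ^ 3 + |δ'| ^ 3) := by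
  have hg := gg_half h'
  have hg1 := gg_ge h'
  have h3 : |δ'| ^ 3 ≤ (1 / 8) ^ 3 := pow_le_pow_left₀ (abs_nonneg δ') h' 3
  norm_num at h3
  have h4 : (0:ℝ) ≤ |δ'| ^ 3 := by positivity
  have h5 : (0:ℝ) ≤ |δ| ^ 3 := by positivity
  have h6 : 1 / gg δ' ≤ 1 + 40 * |δ'| ^ 3 := by
    rw [div_le_iff₀ (by linarith)]
    nlinarith
  have hle : ∀ x, sg δ x * sg δ' x * dens x ≤ 1 / gg δ' * (sg δ x * dens x) := by
    intro x
    have h7 : sg δ' x ≤ 1 / gg δ' := by
      unfold sg
      split_ifs with h8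
      · exact le_refl _
      · exact div_nonneg zero_le_one (gg_nonneg δ')
    have h9 : 0 ≤ sg δ x * dens x := mul_nonneg (sg_nonneg δ x) (dens_nonneg x)
    calc sg δ x * sg δ' x * dens x = sg δ' x * (sg δ x * dens x) := by ring
      _ ≤ 1 / gg δ' * (sg δ x * dens x) := mul_le_mul_of_nonneg_right h7 h9
  have h10 : ∫ x, sg δ x * sg δ' x * dens x ≤ ∫ x, 1 / gg δ' * (sg δ x * dens x) := by
    refine integral_mono_of_nonneg (Filter.Eventually.of_forall fun x => ?_)
      ((ONC_int_sg δ).const_mul _) (Filter.Eventually.of_forall hle)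
    exact mul_nonneg (mul_nonneg (sg_nonneg δ x) (sg_nonneg δ' x)) (dens_nonneg x)
  rw [integral_const_mul, sg_int h, mul_one] at h10
  linarith

end Pool.Agent.H44.MG
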