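import Pool.Agent.H44.MG.MUA
import Pool.Agent.H44.MG.ONC

/-!
# MSH : the change of variables

For every `b`: if `b k = false` for some `k` with `η ≤ |A θ k|` then both integrands vanish. Otherwise
all shifts `sh A W θ b k` are at most `1/8` in absolute value, and by `rh_mul_dens` the left
integrand is `h b x ∏ fac · sg (x k - δ k) · dens (x k - δ k)`; translate by `sh A W θ b`.
-/

namespace Pool.Agent.H44.MG

open MeasureTheory

theorem EE_shift {A η W : ℝ} (hA : 1 ≤ A) (hη : 0 < η) (hη' : η ≤ 1 / 8) (hW : A / η ≤ W)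
    {D : ℕ} (θ : Fin D → ℝ) (hθ : ∀ k, |θ k| ≤ 1) (h : (Fin D → Bool) → (Fin D → ℝ) → ℝ) :
    EE W (fun b x => h b x * ∏ k, rhk A η W (θ k) (b k) (x k)) =
      EE W (fun b x => h b (x + sh A W θ b) * ∏ k, sgk A η W (θ k) (b k) (x k)) := by
  unfold EE
  refine Finset.sum_congr rfl fun b _ => ?_
  congr 1
  have hη8 : 8 ≤ 1 / η := by
    rw [le_div_iff₀ hη]
    linarith
  have hAη : 8 ≤ A / η := by
    calc (8 : ℝ) ≤ 1 / η := hη8
      _ ≤ A / η := by gcongr
  have hW8 : 8 ≤ W := hAη.trans hW
  have hW0 : 0 < W := by linarith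
  have hAW : A / W ≤ η := by
    rw [div_le_iff₀ hW0]
    rw [div_le_iff₀ hη] at hW
    linarith
  have key : ∀ x : Fin D → ℝ,
      (∏ k, rhk A η W (θ k) (b k) (x k)) * ∏ k, dens (x k) =
        (∏ k, sgk A η W (θ k) (b k) ((x - sh A W θ b) k)) * ∏ k, dens ((x - sh A W θ b) k) := by
    intro x
    rw [← Finset.prod_mul_distrib, ← Finset.prod_mul_distrib]
    by_cases hb : ∃ k, b k = false ∧ η ≤ |A * θ k|
    · obtain ⟨k, hk1, hk2⟩ := hb
      rw [Finset.prod_eq_zero (Finset.mem_univ k), Finset.prod_eq_zero (Finset.mem_univ k)]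
      · unfold sgk fac
        rw [if_pos hk2, hk1]
        simp
      · unfold rhk fac
        rw [if_pos hk2, hk1]
        simp
    · push Not at hb
      refine Finset.prod_congr rfl fun k _ => ?_
      have hδ : |sh A W θ b k| ≤ 1 / 8 := by
        unfold sh
        rcases Bool.eq_false_or_eq_true (b k) with hbk | hbk
        · rw [hbk]
          simp only [if_true]
          rw [abs_div, abs_mul, abs_of_pos hW0, abs_of_pos (by linarith : 0 < A)]
          calc A * |θ k| / W ≤ A * 1 / W := by
                gcongr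
                exact hθ k
            _ = A / W := by ring
            _ ≤ η := hAW
            _ ≤ 1 / 8 := hη'
        · have := hb k hbk
          rw [hbk]
          simp only [Bool.false_eq_true, if_false, div_one]
          linarith
      have h1 := rh_mul_dens hδ (x k)
      have h2 : rhk A η W (θ k) (b k) (x k) * dens (x k) =
          fac A η W (θ k) (b k) * (rh (sh A W θ b k) (x k) * dens (x k)) := by
        unfold rhk sh
        ring
      rw [h2, h1]
      unfold sgk
      simp only [Pi.sub_apply]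
      unfold sh
      ring
  calc ∫ x, (h b x * ∏ k, rhk A η W (θ k) (b k) (x k)) * ∏ k, dens (x k)
      = ∫ x, (fun y : Fin D → ℝ => (h b (y + sh A W θ b) *
          ∏ k, sgk A η W (θ k) (b k) (y k)) * ∏ k, dens (y k)) (x - sh A W θ b) := by
        refine integral_congr_ae (Filter.Eventually.of_forall fun x => ?_)
        simp only [sub_add_cancel]
        rw [mul_assoc, mul_assoc, key x]
    _ = ∫ x, (h b (x + sh A W θ b) * ∏ k, sgk A η W (θ k) (b k) (x k)) * ∏ k, dens (x k) :=
        integral_sub_right_eq_self (fun y : Fin D → ℝ => (h b (y + sh A W θ b) *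
          ∏ k, sgk A η W (θ k) (b k) (y k)) * ∏ k, dens (y k)) (sh A W θ b)

end Pool.Agent.H44.MG
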