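import Pool.Agent.H44.MG.MPA
import Pool.Agent.H44.MG.MPB
import Pool.Agent.H44.MG.MSH

/-!
# MUC : many hypotheses

Choice of the parameters (`C` from `good_functions`): `η = 1 / (1200 C A²)` (`≤ 1/8`), `W = A / η`,
`ε = 1 / (3000 C A²)`, `q ≥ 288 (C W) ^ ((A / η) ^ 2) exp (C A²)`. Then `second_moment` gives
`EE ((Rbar - 1)²) ≤ 1/288 + 1/288 = 1/144` for `rhk` and for `sgk` (`exp (1/300) - 1 ≤ 1/288`), so
`EE |Rbar - 1| ≤ 1/12`, `EE |Sbar - 1| ≤ 1/12` (`EE_abs_le`).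

For every `i`, with `R i = ∏ rhk`, `S i = ∏ sgk`, by `EE_shift`
`EE (h R i) + EE (h S i) = EE ((h b (x + sh) + h b x) S i) ≥ τ EE (1_Adm S i)`: if `S i b x ≠ 0` then
`|x k| ≤ 1 - 2 |δ k|` for all `k`, so `x` and `x + sh` lie in the cube. Average over `i`:
`EE (h Rbar) + EE (h Sbar) ≥ τ EE (1_Adm Sbar) ≥ τ (3/4 - 1/12)`, and
`EE (h Rbar) ≤ EE h + τ / 12`, `EE (h Sbar) ≤ EE h + τ / 12`, since `0 ≤ h ≤ τ`. So
`2 EE h ≥ τ (3/4 - 3/12) = τ / 2`.
-/

namespace Pool.Agent.H44.MG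

open MeasureTheory

theorem MUC_nice_const {D : ℕ} (c : ℝ) :
    Nice (fun (_ : Fin D → Bool) (_ : Fin D → ℝ) => c) :=
  ⟨fun _ => measurable_const, ⟨|c|, fun _ _ => le_refl _⟩⟩

theorem MUC_nice_bool {D : ℕ} (f : (Fin D → Bool) → ℝ) :
    Nice (fun (b : Fin D → Bool) (_ : Fin D → ℝ) => f b) := by
  refine ⟨fun _ => measurable_const, ⟨∑ b, |f b|, fun b _ => ?_⟩⟩
  exact Finset.single_le_sum (f := fun b => |f b|) (fun i _ => abs_nonneg _) (Finset.mem_univ b)

theorem MUC_nice_add {D : ℕ} {h g : (Fin D → Bool) → (Fin D → ℝ) → ℝ} (hh : Nice h)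
    (hg : Nice g) : Nice (fun b x => h b x + g b x) := by
  obtain ⟨hm, B, hB⟩ := hh
  obtain ⟨gm, B', hB'⟩ := hg
  refine ⟨fun b => (hm b).add (gm b), ⟨B + B', fun b x => ?_⟩⟩
  exact (abs_add_le _ _).trans (add_le_add (hB b x) (hB' b x))

theorem MUC_nice_mul {D : ℕ} {h g : (Fin D → Bool) → (Fin D → ℝ) → ℝ} (hh : Nice h)
    (hg : Nice g) : Nice (fun b x => h b x * g b x) := by
  obtain ⟨hm, B, hB⟩ := hh
  obtain ⟨gm, B', hB'⟩ := hg
  refine ⟨fun b => (hm b).mul (gm b), ⟨B * B', fun b x => ?_⟩⟩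
  rw [abs_mul]
  exact mul_le_mul (hB b x) (hB' b x) (abs_nonneg _) ((abs_nonneg _).trans (hB b x))

theorem MUC_nice_abs {D : ℕ} {h : (Fin D → Bool) → (Fin D → ℝ) → ℝ} (hh : Nice h) :
    Nice (fun b x => |h b x|) := by
  obtain ⟨hm, B, hB⟩ := hh
  refine ⟨fun b => (hm b).abs, ⟨B, fun b x => ?_⟩⟩
  rw [abs_abs]
  exact hB b x

theorem MUC_nice_sum {D : ℕ} {ι : Type} (s : Finset ι)
    {h : ι → (Fin D → Bool) → (Fin D → ℝ) → ℝ} (hh : ∀ i ∈ s, Nice (h i)) :
    Nice (fun b x => ∑ i ∈ s, h i b x) := by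
  classical
  induction s using Finset.induction_on with
  | empty => simpa using MUC_nice_const (D := D) 0
  | insert a s ha ih =>
    have h1 := MUC_nice_add (hh a (Finset.mem_insert_self a s))
      (ih (fun i hi => hh i (Finset.mem_insert_of_mem hi)))
    simpa [Finset.sum_insert ha] using h1

theorem MUC_nice_prod {D : ℕ} {ι : Type} (s : Finset ι)
    {h : ι → (Fin D → Bool) → (Fin D → ℝ) → ℝ} (hh : ∀ i ∈ s, Nice (h i)) :
    Nice (fun b x => ∏ i ∈ s, h i b x) := by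
  classical
  induction s using Finset.induction_on with
  | empty => simpa using MUC_nice_const (D := D) 1
  | insert a s ha ih =>
    have h1 := MUC_nice_mul (hh a (Finset.mem_insert_self a s))
      (ih (fun i hi => hh i (Finset.mem_insert_of_mem hi)))
    simpa [Finset.prod_insert ha] using h1

theorem MUC_nice_shift {D : ℕ} {h : (Fin D → Bool) → (Fin D → ℝ) → ℝ} (hh : Nice h)
    (s : (Fin D → Bool) → (Fin D → ℝ)) : Nice (fun b x => h b (x + s b)) := by
  obtain ⟨hm, B, hB⟩ := hh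
  exact ⟨fun b => (hm b).comp (measurable_id.add_const (s b)), ⟨B, fun b x => hB b _⟩⟩

theorem MUC_nice_G {A η W C κ : ℝ} {G : ℝ → Bool → ℝ → ℝ} (hG : GoodG A η W C κ G) {D : ℕ}
    (θ : Fin D → ℝ) (hθ : ∀ k, |θ k| ≤ 1) :
    Nice (fun (b : Fin D → Bool) (x : Fin D → ℝ) => ∏ k, G (θ k) (b k) (x k)) := by
  apply MUC_nice_prod
  intro k _
  obtain ⟨B, hB⟩ := hG.bdd
  refine ⟨fun b => ?_, ⟨B, fun b x => hB _ _ _ (hθ k)⟩⟩
  exact (hG.meas (θ k) (b k)).comp (measurable_pi_apply k)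

theorem MUC_exp : Real.exp (1 / 300) - 1 ≤ 1 / 288 := by
  have h1 : 1 - (1 / 300 : ℝ) ≤ Real.exp (-(1 / 300)) := by
    have := Real.add_one_le_exp (-(1 / 300 : ℝ))
    linarith
  have h2 : Real.exp (1 / 300) * Real.exp (-(1 / 300)) = 1 := by
    rw [← Real.exp_add]; simp
  have h3 : 0 < Real.exp (1 / 300) := Real.exp_pos _
  nlinarith

theorem MUC_small {A η W C κ ε : ℝ} {G : ℝ → Bool → ℝ → ℝ} (hG : GoodG A η W C κ G)
    (hA : 1 ≤ A) (hη : 0 < η) (hW : 1 ≤ W) (hC : 1 ≤ C) (hκ : 0 ≤ κ) (hκC : κ ≤ C) (hε : 0 ≤ ε)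
    {D q : ℕ} (hq : 0 < q) (θ : Fin q → Fin D → ℝ) (hθ : Fam A η ε θ)
    (hθ1 : ∀ i k, |θ i k| ≤ 1)
    (h1 : 5 * C * A ^ 2 * ε + 2 * C * η * A ^ 2 = 1 / 300)
    (h2 : 288 * ((C * W) ^ ((A / η) ^ 2) * Real.exp (C * A ^ 2)) ≤ q) :
    EE W (fun b x => |(∑ i, ∏ k, G (θ i k) (b k) (x k)) / q - 1|) ≤ 1 / 12 := by
  have hq' : (0 : ℝ) < q := by exact_mod_cast hq
  have hsm := second_moment hG hA hη hW hC hκ hκC hε hq θ hθ
  have hnice : Nice (fun (b : Fin D → Bool) (x : Fin D → ℝ) =>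
      (∑ i, ∏ k, G (θ i k) (b k) (x k)) / q - 1) := by
    have hs : Nice (fun (b : Fin D → Bool) (x : Fin D → ℝ) =>
        ∑ i, ∏ k, G (θ i k) (b k) (x k)) :=
      MUC_nice_sum _ (fun i _ => MUC_nice_G hG (θ i) (hθ1 i))
    have := MUC_nice_add (MUC_nice_mul hs (MUC_nice_const (D := D) (1 / (q : ℝ))))
      (MUC_nice_const (D := D) (-1))
    have he : (fun (b : Fin D → Bool) (x : Fin D → ℝ) =>
        (∑ i, ∏ k, G (θ i k) (b k) (x k)) / q - 1) = (fun b x =>
        (∑ i, ∏ k, G (θ i k) (b k) (x k)) * (1 / (q : ℝ)) + -1) := by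
      funext b x
      ring
    rw [he]
    exact this
  have hab := EE_abs_le hW hnice
  have h3 : (C * W) ^ ((A / η) ^ 2) * Real.exp (C * A ^ 2) / q ≤ 1 / 288 := by
    rw [div_le_iff₀ hq']
    linarith
  rw [h1] at hsm
  have h4 := MUC_exp
  have h5 : EE W (fun (b : Fin D → Bool) (x : Fin D → ℝ) =>
      |(∑ i, ∏ k, G (θ i k) (b k) (x k)) / q - 1|) ^ 2 ≤ (1 / 12) ^ 2 := by
    have : (1 / 12 : ℝ) ^ 2 = 1 / 288 + 1 / 288 := by norm_num
    rw [this]
    linarith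
  exact le_of_sq_le_sq (by simpa [sq] using h5) (by norm_num)

theorem multi (A : ℝ) (hA : 1 ≤ A) : ∃ (W η ε : ℝ) (q : ℕ), 1 < W ∧ 0 < η ∧ 0 < ε ∧ 0 < q ∧
    ∀ (D : ℕ) (_ : 0 < D) (θ : Fin q → Fin D → ℝ), Fam A η ε θ →
      ∀ (τ : ℝ) (_ : 0 ≤ τ) (h : (Fin D → Bool) → (Fin D → ℝ) → ℝ), (∀ b, Measurable (h b)) →
        (∀ b x, 0 ≤ h b x) → (∀ b x, h b x ≤ τ) →
        (∀ i b x, Adm W b → (∀ k, |x k| ≤ 1) → (∀ k, |x k + sh A W (θ i) b k| ≤ 1) →
          τ ≤ h b x + h b (x + sh A W (θ i) b)) →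
        τ / 4 ≤ EE W h := by
  classical
  obtain ⟨C, hC, hgood⟩ := good_functions
  have hA0 : 0 < A := by linarith
  have hC0 : 0 < C := by linarith
  set η : ℝ := 1 / (1200 * C * A ^ 2) with hηdef
  have hη : 0 < η := by positivity
  have hA2 : 1 ≤ A ^ 2 := by nlinarith
  have hη' : η ≤ 1 / 8 := by
    rw [hηdef]
    apply one_div_le_one_div_of_le (by norm_num)
    nlinarith
  set W : ℝ := A / η with hWdef
  have hW8 : 8 ≤ W := by
    rw [hWdef, le_div_iff₀ hη]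
    nlinarith
  set ε : ℝ := 1 / (3000 * C * A ^ 2) with hεdef
  have hε : 0 < ε := by positivity
  obtain ⟨q, hq, hqb⟩ : ∃ q : ℕ, 0 < q ∧
      288 * ((C * W) ^ ((A / η) ^ 2) * Real.exp (C * A ^ 2)) ≤ q := by
    obtain ⟨q0, hq0⟩ := exists_nat_ge (288 * ((C * W) ^ ((A / η) ^ 2) * Real.exp (C * A ^ 2)))
    refine ⟨q0 + 1, Nat.succ_pos _, ?_⟩
    push_cast
    linarith
  refine ⟨W, η, ε, q, by linarith, hη, hε, hq, ?_⟩
  intro D hD θ hθ τ hτ h hmeas h0 h1 hpair
  have hq' : (0 : ℝ) < q := by exact_mod_cast hq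
  obtain ⟨κ, hκ, hκC, hGr, hGs⟩ := hgood A η W hA hη hη' (le_refl _)
  have hθ1 : ∀ i k, |θ i k| ≤ 1 := by
    intro i k
    have h2 := hθ.unit i
    have h3 : θ i k ^ 2 ≤ ∑ k, θ i k ^ 2 :=
      Finset.single_le_sum (f := fun k => θ i k ^ 2) (fun j _ => sq_nonneg _) (Finset.mem_univ k)
    rw [h2] at h3
    exact (sq_le_one_iff_abs_le_one _).1 h3
  have hW1 : 1 ≤ W := by linarith
  have hsum : 5 * C * A ^ 2 * ε + 2 * C * η * A ^ 2 = 1 / 300 := by
    rw [hεdef, hηdef]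
    field_simp
    norm_num
  have hR := MUC_small hGr hA hη hW1 hC hκ hκC hε.le hq θ hθ hθ1 hsum hqb
  have hS := MUC_small hGs hA hη hW1 hC (le_refl 0) hC0.le hε.le hq θ hθ hθ1 hsum hqb
  have hhN : Nice h := ⟨hmeas, ⟨τ, fun b x => by
    rw [abs_of_nonneg (h0 b x)]; exact h1 b x⟩⟩
  -- the products
  have hRN : ∀ i, Nice (fun (b : Fin D → Bool) (x : Fin D → ℝ) =>
      ∏ k, rhk A η W (θ i k) (b k) (x k)) := fun i => MUC_nice_G hGr (θ i) (hθ1 i)
  have hSN : ∀ i, Nice (fun (b : Fin D → Bool) (x : Fin D → ℝ) =>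
      ∏ k, sgk A η W (θ i k) (b k) (x k)) := fun i => MUC_nice_G hGs (θ i) (hθ1 i)
  have hAN : Nice (fun (b : Fin D → Bool) (_ : Fin D → ℝ) => if Adm W b then (1 : ℝ) else 0) :=
    MUC_nice_bool _
  -- pointwise inequality for one direction
  have hone : ∀ i, τ * EE W (fun (b : Fin D → Bool) (x : Fin D → ℝ) =>
      (if Adm W b then (1 : ℝ) else 0) * ∏ k, sgk A η W (θ i k) (b k) (x k)) ≤
      EE W (fun b x => h b x * ∏ k, rhk A η W (θ i k) (b k) (x k)) +
      EE W (fun b x => h b x * ∏ k, sgk A η W (θ i k) (b k) (x k)) := by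
    intro i
    rw [EE_shift hA hη hη' (le_refl _) (θ i) (hθ1 i) h]
    rw [← EE_add (MUC_nice_mul (MUC_nice_shift hhN (fun b => sh A W (θ i) b)) (hSN i))
      (MUC_nice_mul hhN (hSN i)), ← EE_smul]
    apply EE_mono hW1 (MUC_nice_mul (MUC_nice_const τ) (MUC_nice_mul hAN (hSN i)))
      (MUC_nice_add (MUC_nice_mul (MUC_nice_shift hhN (fun b => sh A W (θ i) b)) (hSN i))
      (MUC_nice_mul hhN (hSN i)))
    intro b x
    have hS0 : 0 ≤ ∏ k, sgk A η W (θ i k) (b k) (x k) :=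
      Finset.prod_nonneg (fun k _ => hGs.nonneg _ _ _ (hθ1 i k))
    by_cases hadm : Adm W b
    · rw [if_pos hadm, one_mul, ← add_mul]
      rcases hS0.lt_or_eq with hpos | hzero
      · apply mul_le_mul_of_nonneg_right _ hS0
        have hne : ∀ k, |x k| ≤ 1 - 2 * |sh A W (θ i) b k| := by
          intro k
          have hk : sgk A η W (θ i k) (b k) (x k) ≠ 0 := by
            intro h2
            exact hpos.ne' (Finset.prod_eq_zero (Finset.mem_univ k) h2)
          unfold sgk sg at hk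
          by_contra hcon
          unfold sh at hcon
          apply hk
          rw [if_neg hcon, mul_zero]
        have hx : ∀ k, |x k| ≤ 1 := fun k => by
          have := hne k
          have := abs_nonneg (sh A W (θ i) b k)
          linarith
        have hx' : ∀ k, |x k + sh A W (θ i) b k| ≤ 1 := fun k => by
          have h2 := hne k
          have h3 := abs_nonneg (sh A W (θ i) b k)
          have h4 := abs_add_le (x k) (sh A W (θ i) b k)
          linarith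
        have := hpair i b x hadm hx hx'
        linarith
      · rw [← hzero]; simp
    · rw [if_neg hadm, zero_mul, mul_zero]
      have := h0 b x
      have h3 := h0 b (x + sh A W (θ i) b)
      positivity
  -- averages
  have havR : EE W (fun b x => h b x * ((∑ i, ∏ k, rhk A η W (θ i k) (b k) (x k)) / q)) =
      (1 / (q : ℝ)) * ∑ i, EE W (fun b x => h b x * ∏ k, rhk A η W (θ i k) (b k) (x k)) := by
    rw [← EE_sum Finset.univ (fun i _ => MUC_nice_mul hhN (hRN i)), ← EE_smul]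
    congr 1
    funext b x
    rw [← Finset.mul_sum]
    ring
  have havS : EE W (fun b x => h b x * ((∑ i, ∏ k, sgk A η W (θ i k) (b k) (x k)) / q)) =
      (1 / (q : ℝ)) * ∑ i, EE W (fun b x => h b x * ∏ k, sgk A η W (θ i k) (b k) (x k)) := by
    rw [← EE_sum Finset.univ (fun i _ => MUC_nice_mul hhN (hSN i)), ← EE_smul]
    congr 1
    funext b x
    rw [← Finset.mul_sum]
    ring
  have havA : EE W (fun b x => (if Adm W b then (1 : ℝ) else 0) *
        ((∑ i, ∏ k, sgk A η W (θ i k) (b k) (x k)) / q)) =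
      (1 / (q : ℝ)) * ∑ i, EE W (fun b x => (if Adm W b then (1 : ℝ) else 0) *
        ∏ k, sgk A η W (θ i k) (b k) (x k)) := by
    rw [← EE_sum Finset.univ (fun i _ => MUC_nice_mul hAN (hSN i)), ← EE_smul]
    congr 1
    funext b x
    rw [← Finset.mul_sum]
    ring
  have havg : τ * EE W (fun b x => (if Adm W b then (1 : ℝ) else 0) *
        ((∑ i, ∏ k, sgk A η W (θ i k) (b k) (x k)) / q)) ≤
      EE W (fun b x => h b x * ((∑ i, ∏ k, rhk A η W (θ i k) (b k) (x k)) / q)) +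
      EE W (fun b x => h b x * ((∑ i, ∏ k, sgk A η W (θ i k) (b k) (x k)) / q)) := by
    rw [havR, havS, havA, ← mul_add, ← Finset.sum_add_distrib]
    have h2 : ∑ i, τ * EE W (fun b x => (if Adm W b then (1 : ℝ) else 0) *
        ∏ k, sgk A η W (θ i k) (b k) (x k)) ≤
        ∑ i, (EE W (fun b x => h b x * ∏ k, rhk A η W (θ i k) (b k) (x k)) +
          EE W (fun b x => h b x * ∏ k, sgk A η W (θ i k) (b k) (x k))) :=
      Finset.sum_le_sum (fun i _ => hone i)
    rw [← Finset.mul_sum] at h2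
    have h3 : 0 ≤ 1 / (q : ℝ) := by positivity
    calc _ = (1 / (q : ℝ)) * (τ * ∑ i, EE W (fun b x => (if Adm W b then (1 : ℝ) else 0) *
        ∏ k, sgk A η W (θ i k) (b k) (x k))) := by ring
      _ ≤ _ := mul_le_mul_of_nonneg_left h2 h3
  -- nice averages
  have hbarR : Nice (fun (b : Fin D → Bool) (x : Fin D → ℝ) =>
      (∑ i, ∏ k, rhk A η W (θ i k) (b k) (x k)) / q) := by
    have := MUC_nice_mul (MUC_nice_sum Finset.univ (fun i _ => hRN i))
      (MUC_nice_const (D := D) (1 / (q : ℝ)))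
    have he : (fun (b : Fin D → Bool) (x : Fin D → ℝ) =>
      (∑ i, ∏ k, rhk A η W (θ i k) (b k) (x k)) / q) = (fun b x =>
        (∑ i, ∏ k, rhk A η W (θ i k) (b k) (x k)) * (1 / (q : ℝ))) := by
      funext b x
      ring
    rw [he]
    exact this
  have hbarS : Nice (fun (b : Fin D → Bool) (x : Fin D → ℝ) =>
      (∑ i, ∏ k, sgk A η W (θ i k) (b k) (x k)) / q) := by
    have := MUC_nice_mul (MUC_nice_sum Finset.univ (fun i _ => hSN i))
      (MUC_nice_const (D := D) (1 / (q : ℝ)))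
    have he : (fun (b : Fin D → Bool) (x : Fin D → ℝ) =>
      (∑ i, ∏ k, sgk A η W (θ i k) (b k) (x k)) / q) = (fun b x =>
        (∑ i, ∏ k, sgk A η W (θ i k) (b k) (x k)) * (1 / (q : ℝ))) := by
      funext b x
      ring
    rw [he]
    exact this
  have habsd : ∀ {g : (Fin D → Bool) → (Fin D → ℝ) → ℝ}, Nice g →
      Nice (fun b x => |g b x - 1|) := by
    intro g hg
    have := MUC_nice_abs (MUC_nice_add hg (MUC_nice_const (D := D) (-1)))
    simpa [sub_eq_add_neg] using this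
  have hup : ∀ {g : (Fin D → Bool) → (Fin D → ℝ) → ℝ}, Nice g →
      EE W (fun b x => |g b x - 1|) ≤ 1 / 12 →
      EE W (fun b x => h b x * g b x) ≤ EE W h + τ * (1 / 12) := by
    intro g hg hg1
    have h2 : EE W (fun b x => h b x * g b x) ≤
        EE W (fun b x => h b x + τ * |g b x - 1|) := by
      apply EE_mono hW1 (MUC_nice_mul hhN hg)
        (MUC_nice_add hhN (MUC_nice_mul (MUC_nice_const τ) (habsd hg)))
      intro b x
      have h3 := h0 b x
      have h4 := h1 b x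
      have h5 := abs_nonneg (g b x - 1)
      have h6 : h b x * (g b x - 1) ≤ h b x * |g b x - 1| :=
        mul_le_mul_of_nonneg_left (le_abs_self _) h3
      have h7 : h b x * |g b x - 1| ≤ τ * |g b x - 1| := mul_le_mul_of_nonneg_right h4 h5
      linarith
    rw [EE_add hhN (MUC_nice_mul (MUC_nice_const τ) (habsd hg)), EE_smul] at h2
    have := mul_le_mul_of_nonneg_left hg1 hτ
    linarith
  have hlow : 3 / 4 - 1 / 12 ≤ EE W (fun b x => (if Adm W b then (1 : ℝ) else 0) *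
        ((∑ i, ∏ k, sgk A η W (θ i k) (b k) (x k)) / q)) := by
    have hadm := EE_adm (W := W) hW1 hD
    have h2 : EE W (fun (b : Fin D → Bool) _ => if Adm W b then (1 : ℝ) else 0) ≤
        EE W (fun b x => (if Adm W b then (1 : ℝ) else 0) *
          ((∑ i, ∏ k, sgk A η W (θ i k) (b k) (x k)) / q) +
          |(∑ i, ∏ k, sgk A η W (θ i k) (b k) (x k)) / q - 1|) := by
      apply EE_mono hW1 hAN (MUC_nice_add (MUC_nice_mul hAN hbarS) (habsd hbarS))
      intro b x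
      have h5 := neg_abs_le ((∑ i, ∏ k, sgk A η W (θ i k) (b k) (x k)) / q - 1)
      have h6 := abs_nonneg ((∑ i, ∏ k, sgk A η W (θ i k) (b k) (x k)) / q - 1)
      split_ifs
      · linarith
      · linarith
    rw [EE_add (MUC_nice_mul hAN hbarS) (habsd hbarS)] at h2
    linarith
  have hRu := hup hbarR hR
  have hSu := hup hbarS hS
  have h8 := mul_le_mul_of_nonneg_left hlow hτ
  linarith

end Pool.Agent.H44.MG
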