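import Pool.Agent.H44.MG.Defs2

/-!
# SEL : selection of a family

Let `K i = {k | η ≤ |A θ i k|}`, so `#K i ≤ A² / η²` (as `∑ θ i k ^ 2 = 1`). For fixed `i ∈ I` the number of `j ∈ I`
which are in conflict with `i` is bounded by a number `B` which does not depend on `D`:
* `|⟨θ i, θ j⟩| > ε`: at most `C2 / ε²` (apply the hypothesis to `x = θ i`);
* `∑_{k ∈ K i} θ j k ^ 2 > ε²`, or `K i ∩ K j ≠ ∅` (which gives `∑_{k ∈ K i} θ j k ^ 2 ≥ η² / A²`): since
  `∑_j θ j k ^ 2 ≤ C2` for every `k` (`x = e_k`), `∑_j ∑_{k ∈ K i} θ j k ^ 2 ≤ C2 #K i`, so at most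
  `C2 (A²/η²) / min (ε², η²/A²)`;
* `∑_{k ∈ K j} θ i k ^ 2 > ε²`: `∑_j ∑_{k ∈ K j} θ i k ^ 2 = ∑_k θ i k ^ 2 #{j | k ∈ K j} ≤ C2 A² / η²`, so at
  most `C2 A² / (η² ε²)`.
Choose greedily: as long as fewer than `q` indices are chosen, the chosen ones and those in conflict
with them are at most `q (B + 1) < #I` if `D` is large.
-/

namespace Pool.Agent.H44.MG

/-- Markov's inequality for finite sums -/
private theorem SEL_markov {α : Type*} (I : Finset α) (f : α → ℝ) (P : α → Prop) [DecidablePred P]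
    (c : ℝ) (hf : ∀ j ∈ I, 0 ≤ f j) (hP : ∀ j ∈ I, P j → c ≤ f j) :
    ((I.filter P).card : ℝ) * c ≤ ∑ j ∈ I, f j := by
  calc ((I.filter P).card : ℝ) * c = ∑ j ∈ I.filter P, c := by simp
    _ ≤ ∑ j ∈ I.filter P, f j := by
        apply Finset.sum_le_sum
        intro j hj
        rw [Finset.mem_filter] at hj
        exact hP j hj.1 hj.2
    _ ≤ ∑ j ∈ I, f j := by
        apply Finset.sum_le_sum_of_subset_of_nonneg (Finset.filter_subset _ _)
        intro j hj _
        exact hf j hj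

/-- greedy choice -/
private theorem SEL_greedy {α : Type*} [DecidableEq α] (I : Finset α) (R : α → α → Prop)
    (hR : ∀ i j, R i j → R j i) (B : ℝ) (hB : 0 ≤ B)
    (N : α → Finset α) (hN : ∀ i ∈ I, ∀ j ∈ I, R i j → j ∈ N i) (hc : ∀ i ∈ I, ((N i).card : ℝ) ≤ B)
    (q : ℕ) (hq : q * (B + 1) < I.card) :
    ∃ e : Fin q → α, Function.Injective e ∧ (∀ l, e l ∈ I) ∧ ∀ l l', l ≠ l' → ¬ R (e l) (e l') := by
  have key : ∀ m : ℕ, m ≤ q → ∃ S : Finset α, S ⊆ I ∧ S.card = m ∧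
      ∀ i ∈ S, ∀ j ∈ S, i ≠ j → ¬ R i j := by
    intro m
    induction m with
    | zero => intro _; exact ⟨∅, by simp, by simp, by simp⟩
    | succ m ih =>
      intro hm
      obtain ⟨S, hS, hcard, hpw⟩ := ih (by omega)
      have hU : ((S ∪ S.biUnion N).card : ℝ) < I.card := by
        have h1 : ((S ∪ S.biUnion N).card : ℝ) ≤ S.card + (S.biUnion N).card := by
          exact_mod_cast Finset.card_union_le _ _
        have h2 : ((S.biUnion N).card : ℝ) ≤ ∑ i ∈ S, ((N i).card : ℝ) := by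
          exact_mod_cast Finset.card_biUnion_le
        have h3 : ∑ i ∈ S, ((N i).card : ℝ) ≤ ∑ i ∈ S, B :=
          Finset.sum_le_sum fun i hi => hc i (hS hi)
        rw [Finset.sum_const, nsmul_eq_mul, hcard] at h3
        have h4 : (m : ℝ) * (B + 1) ≤ q * (B + 1) := by
          apply mul_le_mul_of_nonneg_right _ (by linarith)
          exact_mod_cast (by omega : m ≤ q)
        rw [hcard] at h1
        linarith
      obtain ⟨j, hj, hjU⟩ : ∃ j ∈ I, j ∉ S ∪ S.biUnion N := by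
        by_contra hcon
        push Not at hcon
        have : I.card ≤ (S ∪ S.biUnion N).card := Finset.card_le_card hcon
        have : (I.card : ℝ) ≤ (S ∪ S.biUnion N).card := by exact_mod_cast this
        linarith
      rw [Finset.mem_union, Finset.mem_biUnion] at hjU
      push Not at hjU
      obtain ⟨hjS, hjN⟩ := hjU
      refine ⟨insert j S, Finset.insert_subset hj hS, ?_, ?_⟩
      · rw [Finset.card_insert_of_notMem hjS, hcard]
      · intro a ha b hb hab
        rw [Finset.mem_insert] at ha hb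
        rcases ha with rfl | ha <;> rcases hb with rfl | hb
        · exact absurd rfl hab
        · intro h
          exact hjN b hb (hN b (hS hb) a hj (hR _ _ h))
        · intro h
          exact hjN a ha (hN a (hS ha) b hj h)
        · exact hpw a ha b hb hab
  obtain ⟨S, hS, hcard, hpw⟩ := key q le_rfl
  let E := S.equivFinOfCardEq hcard
  refine ⟨fun l => (E.symm l).1, ?_, ?_, ?_⟩
  · intro a b hab
    exact E.symm.injective (Subtype.ext hab)
  · intro l
    exact hS (E.symm l).2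
  · intro l l' hl
    apply hpw _ (E.symm l).2 _ (E.symm l').2
    intro h
    exact hl (E.symm.injective (Subtype.ext h))

theorem select (A η ε C2 c3 : ℝ) (hA : 1 ≤ A) (hη : 0 < η) (hε : 0 < ε) (hC2 : 0 < C2)
    (hc3 : 0 < c3) (q : ℕ) : ∃ D0 : ℕ, ∀ D : ℕ, D0 ≤ D → ∀ (I : Finset (Fin D))
      (θ : Fin D → Fin D → ℝ), c3 * D ≤ I.card → (∀ i ∈ I, ∑ k, θ i k ^ 2 = 1) →
      (∀ x : Fin D → ℝ, ∑ i ∈ I, (∑ k, θ i k * x k) ^ 2 ≤ C2 * ∑ k, x k ^ 2) →
      ∃ e : Fin q → Fin D, Function.Injective e ∧ (∀ l, e l ∈ I) ∧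
        Fam A η ε (fun l => θ (e l)) := by
  classical
  have hA0 : 0 < A := by linarith
  set a : ℝ := η ^ 2 / A ^ 2 with ha
  have ha0 : 0 < a := by positivity
  set B : ℝ := C2 / ε ^ 2 + C2 / a / a + C2 / a / ε ^ 2 + C2 / a / ε ^ 2 with hB
  have hB0 : 0 ≤ B := by positivity
  refine ⟨⌈q * (B + 1) / c3⌉₊ + 1, ?_⟩
  intro D hD I θ hI hunit hbes
  set K : Fin D → Finset (Fin D) := fun i => Finset.univ.filter (fun k => η ≤ |A * θ i k|) with hK
  have hbig : ∀ i k, k ∈ K i → a ≤ θ i k ^ 2 := by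
    intro i k hk
    simp only [hK, Finset.mem_filter, Finset.mem_univ, true_and] at hk
    rw [ha, div_le_iff₀ (by positivity)]
    calc η ^ 2 ≤ |A * θ i k| ^ 2 := by gcongr
      _ = θ i k ^ 2 * A ^ 2 := by rw [sq_abs]; ring
  -- the size of `K i`
  have hKc : ∀ i ∈ I, ((K i).card : ℝ) ≤ 1 / a := by
    intro i hi
    rw [le_div_iff₀ ha0]
    calc ((K i).card : ℝ) * a ≤ ∑ k, θ i k ^ 2 := by
          apply SEL_markov Finset.univ (fun k => θ i k ^ 2) (fun k => η ≤ |A * θ i k|) a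
          · intro j _; positivity
          · intro j _ hj
            exact hbig i j (by simpa [hK] using hj)
      _ = 1 := hunit i hi
  -- columns
  have hcol : ∀ k, ∑ j ∈ I, θ j k ^ 2 ≤ C2 := by
    intro k
    have := hbes (Pi.single k 1)
    simpa [Pi.single_apply, Finset.sum_ite_eq', ite_pow] using this
  have hcolc : ∀ k, ((I.filter (fun j => k ∈ K j)).card : ℝ) ≤ C2 / a := by
    intro k
    rw [le_div_iff₀ ha0]
    refine (SEL_markov I (fun j => θ j k ^ 2) (fun j => k ∈ K j) a ?_ ?_).trans (hcol k)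
    · intro j _; positivity
    · intro j _ hj
      exact hbig j k hj
  -- the sum over `j` of the mass of `θ j` on `K i`
  have hmass : ∀ i ∈ I, ∑ j ∈ I, ∑ k ∈ K i, θ j k ^ 2 ≤ C2 / a := by
    intro i hi
    rw [Finset.sum_comm]
    calc ∑ k ∈ K i, ∑ j ∈ I, θ j k ^ 2 ≤ ∑ k ∈ K i, C2 := Finset.sum_le_sum fun k _ => hcol k
      _ = (K i).card * C2 := by simp
      _ ≤ 1 / a * C2 := by gcongr; exact hKc i hi
      _ = C2 / a := by ring
  have hmass' : ∀ i ∈ I, ∑ j ∈ I, ∑ k ∈ K j, θ i k ^ 2 ≤ C2 / a := by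
    intro i hi
    have h1 : ∑ j ∈ I, ∑ k ∈ K j, θ i k ^ 2 =
        ∑ k, ((I.filter (fun j => k ∈ K j)).card : ℝ) * θ i k ^ 2 := by
      have h2 : ∀ j ∈ I, ∑ k ∈ K j, θ i k ^ 2 = ∑ k, if k ∈ K j then θ i k ^ 2 else 0 := by
        intro j _
        rw [Finset.sum_ite_mem, Finset.univ_inter]
      rw [Finset.sum_congr rfl h2, Finset.sum_comm]
      apply Finset.sum_congr rfl
      intro k _
      rw [← Finset.sum_filter, Finset.sum_const, nsmul_eq_mul]
    rw [h1]
    calc ∑ k, ((I.filter (fun j => k ∈ K j)).card : ℝ) * θ i k ^ 2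
        ≤ ∑ k, C2 / a * θ i k ^ 2 := by
          apply Finset.sum_le_sum
          intro k _
          exact mul_le_mul_of_nonneg_right (hcolc k) (by positivity)
      _ = C2 / a := by rw [← Finset.mul_sum, hunit i hi, mul_one]
  set R : Fin D → Fin D → Prop := fun i j => ε < |∑ k, θ i k * θ j k| ∨ (∃ k, k ∈ K i ∧ k ∈ K j) ∨
    ε ^ 2 < ∑ k ∈ K i, θ j k ^ 2 ∨ ε ^ 2 < ∑ k ∈ K j, θ i k ^ 2 with hRdef
  have hsymm : ∀ i j, R i j → R j i := by
    rintro i j (h | ⟨k, h1, h2⟩ | h | h)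
    · left
      have : ∑ k, θ j k * θ i k = ∑ k, θ i k * θ j k :=
        Finset.sum_congr rfl fun k _ => mul_comm _ _
      rwa [this]
    · exact Or.inr (Or.inl ⟨k, h2, h1⟩)
    · exact Or.inr (Or.inr (Or.inr h))
    · exact Or.inr (Or.inr (Or.inl h))
  set N : Fin D → Finset (Fin D) := fun i =>
    (I.filter (fun j => ε < |∑ k, θ i k * θ j k|) ∪ I.filter (fun j => ∃ k, k ∈ K i ∧ k ∈ K j)) ∪
    (I.filter (fun j => ε ^ 2 < ∑ k ∈ K i, θ j k ^ 2) ∪
      I.filter (fun j => ε ^ 2 < ∑ k ∈ K j, θ i k ^ 2)) with hNdef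
  have hNmem : ∀ i ∈ I, ∀ j ∈ I, R i j → j ∈ N i := by
    intro i _ j hj h
    simp only [hNdef, Finset.mem_union, Finset.mem_filter]
    rcases h with h | h | h | h
    · exact Or.inl (Or.inl ⟨hj, h⟩)
    · exact Or.inl (Or.inr ⟨hj, h⟩)
    · exact Or.inr (Or.inl ⟨hj, h⟩)
    · exact Or.inr (Or.inr ⟨hj, h⟩)
  have hNcard : ∀ i ∈ I, ((N i).card : ℝ) ≤ B := by
    intro i hi
    have c1 : ((I.filter (fun j => ε < |∑ k, θ i k * θ j k|)).card : ℝ) ≤ C2 / ε ^ 2 := by
      rw [le_div_iff₀ (by positivity)]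
      have h := hbes (θ i)
      rw [hunit i hi, mul_one] at h
      refine (SEL_markov I (fun j => (∑ k, θ j k * θ i k) ^ 2)
        (fun j => ε < |∑ k, θ i k * θ j k|) (ε ^ 2) ?_ ?_).trans h
      · intro j _; positivity
      · intro j _ hj
        have : ∑ k, θ j k * θ i k = ∑ k, θ i k * θ j k :=
          Finset.sum_congr rfl fun k _ => mul_comm _ _
        simp only [this]
        rw [← sq_abs (∑ k, θ i k * θ j k)]
        gcongr
    have c2 : ((I.filter (fun j => ∃ k, k ∈ K i ∧ k ∈ K j)).card : ℝ) ≤ C2 / a / a := by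
      rw [le_div_iff₀ ha0]
      refine (SEL_markov I (fun j => ∑ k ∈ K i, θ j k ^ 2)
        (fun j => ∃ k, k ∈ K i ∧ k ∈ K j) a ?_ ?_).trans (hmass i hi)
      · intro j _; positivity
      · rintro j _ ⟨k, h1, h2⟩
        exact (hbig j k h2).trans
          (Finset.single_le_sum (f := fun k => θ j k ^ 2) (fun k _ => by positivity) h1)
    have c3 : ((I.filter (fun j => ε ^ 2 < ∑ k ∈ K i, θ j k ^ 2)).card : ℝ) ≤ C2 / a / ε ^ 2 := by
      rw [le_div_iff₀ (by positivity)]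
      refine (SEL_markov I (fun j => ∑ k ∈ K i, θ j k ^ 2)
        (fun j => ε ^ 2 < ∑ k ∈ K i, θ j k ^ 2) (ε ^ 2) ?_ ?_).trans (hmass i hi)
      · intro j _; positivity
      · intro j _ hj; exact hj.le
    have c4 : ((I.filter (fun j => ε ^ 2 < ∑ k ∈ K j, θ i k ^ 2)).card : ℝ) ≤ C2 / a / ε ^ 2 := by
      rw [le_div_iff₀ (by positivity)]
      refine (SEL_markov I (fun j => ∑ k ∈ K j, θ i k ^ 2)
        (fun j => ε ^ 2 < ∑ k ∈ K j, θ i k ^ 2) (ε ^ 2) ?_ ?_).trans (hmass' i hi)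
      · intro j _; positivity
      · intro j _ hj; exact hj.le
    have u1 : ∀ s t : Finset (Fin D), ((s ∪ t).card : ℝ) ≤ s.card + t.card := by
      intro s t
      exact_mod_cast Finset.card_union_le s t
    refine (u1 _ _).trans ?_
    have u2 := u1 (I.filter (fun j => ε < |∑ k, θ i k * θ j k|))
      (I.filter (fun j => ∃ k, k ∈ K i ∧ k ∈ K j))
    have u3 := u1 (I.filter (fun j => ε ^ 2 < ∑ k ∈ K i, θ j k ^ 2))
      (I.filter (fun j => ε ^ 2 < ∑ k ∈ K j, θ i k ^ 2))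
    rw [hB]
    linarith
  have hq : q * (B + 1) < I.card := by
    have h1 : q * (B + 1) / c3 < D := by
      calc q * (B + 1) / c3 ≤ ⌈q * (B + 1) / c3⌉₊ := Nat.le_ceil _
        _ < D := by exact_mod_cast (by omega)
    rw [div_lt_iff₀ hc3] at h1
    linarith
  obtain ⟨e, he, heI, hRe⟩ := SEL_greedy I R hsymm B hB0 N hNmem hNcard q hq
  refine ⟨e, he, heI, ?_⟩
  constructor
  · intro i
    exact hunit _ (heI i)
  · intro i j hij
    by_contra h
    push Not at h
    exact hRe i j hij (Or.inl h)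
  · intro i j hij k hk
    apply hRe i j hij
    refine Or.inr (Or.inl ⟨k, ?_, ?_⟩)
    · simpa [hK] using hk.1
    · simpa [hK] using hk.2
  · intro i j hij
    by_contra h
    push Not at h
    exact hRe i j hij (Or.inr (Or.inr (Or.inl h)))

end Pool.Agent.H44.MG
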