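import Mathlib

/-!
# SQA : good scales of a sequence with at most polynomial decay

Put `φ j = - log (dd j)`, nondecreasing, `φ j ≤ γ log j - log c`, and `Φ D = (1/D) ∑_{j ≤ D} φ j`. If the claim
fails for all `D ≥ D0` then `∑_{j ≤ D} log (dd j) > (γ + 1) D + D log (dd D)`, that is
`φ D > Φ D + γ + 1`, for all `D ≥ D0`. Since `D Φ D = (D - 1) Φ (D - 1) + φ D`, we get
`Φ D - Φ (D - 1) = (φ D - Φ D) / (D - 1) ≥ (γ + 1) / D`, so `Φ D ≥ Φ D0 + (γ + 1) (log D - log D0 - 1)`, which contradicts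
`Φ D ≤ φ D ≤ γ log D - log c` for large `D`.
-/

namespace Pool.Agent.H44.MG

theorem exists_scale (dd : ℕ → ℝ) (anti : ∀ m n, 1 ≤ m → m ≤ n → dd n ≤ dd m)
    (pos : ∀ n, 1 ≤ n → 0 < dd n) {c γ : ℝ} (hc : 0 < c) (hγ : 0 ≤ γ)
    (h : ∀ n : ℕ, 1 ≤ n → c * (n : ℝ) ^ (-γ) ≤ dd n) (D0 : ℕ) :
    ∃ D : ℕ, D0 ≤ D ∧ 1 ≤ D ∧
      ∏ j ∈ Finset.Icc 1 D, dd j ≤ (Real.exp (γ + 1) * dd D) ^ D := by
  by_contra hcon
  push Not at hcon
  set S : ℕ → ℝ := fun D => ∑ j ∈ Finset.Icc 1 D, Real.log (dd j) with hS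
  have hlog : ∀ D, D0 ≤ D → 1 ≤ D → (D : ℝ) * (γ + 1 + Real.log (dd D)) < S D := by
    intro D h0 h1
    have hp : 0 < (Real.exp (γ + 1) * dd D) ^ D :=
      pow_pos (mul_pos (Real.exp_pos _) (pos D h1)) D
    have h2 := Real.log_lt_log hp (hcon D h0 h1)
    rw [Real.log_pow, Real.log_mul (Real.exp_pos _).ne' (pos D h1).ne', Real.log_exp,
      Real.log_prod (fun j hj => (pos j (Finset.mem_Icc.1 hj).1).ne')] at h2
    exact h2
  set D1 : ℕ := max D0 1 with hD1
  have hD11 : 1 ≤ D1 := le_max_right _ _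
  have hD10 : D0 ≤ D1 := le_max_left _ _
  have hind : ∀ D, D1 ≤ D → S D / D + (γ + 1) * Real.log D ≤
      S D1 / D1 + (γ + 1) * Real.log D1 := by
    intro D hD
    induction D, hD using Nat.le_induction with
    | base => exact le_refl _
    | succ D hD ih =>
      refine le_trans ?_ ih
      have hDpos : (0 : ℝ) < D := by
        have : 1 ≤ D := hD11.trans hD
        exact_mod_cast this
      have h1 := hlog (D + 1) (by omega) (by omega)
      have hsucc : S (D + 1) = S D + Real.log (dd (D + 1)) := by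
        simp only [hS]
        rw [Finset.sum_Icc_succ_top (by omega : 1 ≤ D + 1)]
      push_cast at h1 ⊢
      have hlg : Real.log ((D : ℝ) + 1) - Real.log D ≤ 1 / D := by
        rw [← Real.log_div (by positivity) hDpos.ne']
        have h2 := Real.log_le_sub_one_of_pos (show (0 : ℝ) < ((D : ℝ) + 1) / D by positivity)
        have h3 : ((D : ℝ) + 1) / D - 1 = 1 / D := by field_simp; ring
        linarith
      have hkey : S (D + 1) / ((D : ℝ) + 1) ≤ S D / D - (γ + 1) / D := by
        rw [← sub_div, div_le_div_iff₀ (by positivity) hDpos]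
        have h4 : S D = S (D + 1) - Real.log (dd (D + 1)) := by rw [hsucc]; ring
        rw [h4]
        nlinarith
      have h5 : (γ + 1) * (Real.log ((D : ℝ) + 1) - Real.log D) ≤ (γ + 1) / D := by
        have := mul_le_mul_of_nonneg_left hlg (show (0 : ℝ) ≤ γ + 1 by linarith)
        rw [mul_one_div] at this
        exact this
      linarith
  have hbd : ∀ D : ℕ, D1 ≤ D →
      Real.log D ≤ S D1 / D1 + (γ + 1) * Real.log D1 - Real.log c := by
    intro D hD
    have hD1' : 1 ≤ D := hD11.trans hD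
    have hDpos : (0 : ℝ) < D := by exact_mod_cast hD1'
    have h1 := hlog D (hD10.trans hD) hD1'
    have h2 := hind D hD
    have h3 : Real.log c - γ * Real.log D ≤ Real.log (dd D) := by
      have := Real.log_le_log (mul_pos hc (Real.rpow_pos_of_pos hDpos _)) (h D hD1')
      rw [Real.log_mul hc.ne' (Real.rpow_pos_of_pos hDpos _).ne', Real.log_rpow hDpos] at this
      linarith
    have h4 : γ + 1 + Real.log (dd D) < S D / D := by
      rw [lt_div_iff₀ hDpos]
      linarith
    nlinarith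
  obtain ⟨N, hN⟩ := exists_nat_gt
    (Real.exp (S D1 / D1 + (γ + 1) * Real.log D1 - Real.log c))
  have h1 := hbd (max N D1) (le_max_right _ _)
  have h2 : Real.exp (S D1 / D1 + (γ + 1) * Real.log D1 - Real.log c) <
      ((max N D1 : ℕ) : ℝ) := by
    refine hN.trans_le ?_
    exact_mod_cast le_max_left N D1
  have h3 := Real.log_lt_log (Real.exp_pos _) h2
  rw [Real.log_exp] at h3
  linarith

end Pool.Agent.H44.MG
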