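import Mathlib

/-!
# SQB : bounds for the spectrum at a good scale

Write `d = dd D`, `M1 = D / 16`, `N = 16 M1` (so `D - 15 ≤ N ≤ D`), `G = exp K`. For `1 ≤ j ≤ D` we have
`dd j ≥ d`, so from the product hypothesis every sub-product satisfies
`∏_{j ∈ s} (dd j / d) ≤ G ^ D` (`s ⊆ Icc 1 D`).

(a) Upper bound: `m = M1`, `j = M1 / M` (`≥ 1`, `j ≥ D / (64 M)` for large `D`). `(dd j / d) ^ j ≤ ∏_{i ≤ j} dd i / d ≤ G ^ D`, so
`dd j ≤ G ^ (64 M) d`. Then `(M1 + 1) lam (2 M1) ≤ N (70 N C1 dd j / M1)²` gives `lam (2 M1) ≤ 16 · (70 · 16 · C1 · G ^ (64 M) d)²`.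

(b) Lower bound. `(d / 2) ^ (2 N) = ∏ lam ≤ ∏_{k < 8 M1} lam k · lam (8 M1 - 1) ^ (8 M1)` (`N - 8 M1 = 8 M1` factors with
`k ≥ 8 M1`). Pair the factors `k = 2m`, `2m + 1`: `∏_{k < 8 M1} lam k ≤ ∏_{m < 4 M1} lam (2m) ^ 2`. For `m < M` use
`lam ≤ (N d / 2)²`: the product of these is at most `(N d) ^ (4 M)`; for `M ≤ m < 4 M1` use
`lam (2m) ≤ (70 C1)² (N / m)³ (dd (m / M))²`:
`∏_{m = M}^{4 M1 - 1} lam (2m)² ≤ (70 C1 + 1) ^ (4 N) · ∏ (N / m) ^ 6 · ∏ dd (m / M) ^ 4`, where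
`∏_{m=1}^{4M1} (N / m) ≤ N^{4M1} / (4M1)! ≤ (4 e) ^ (4 M1)` and
`∏_{m=M}^{4 M1 - 1} (dd (m / M) / d) ≤ (∏_{j ≤ D} dd j / d) ^ M ≤ G ^ (D M)` (each `j` is taken at most `M` times, and the factors
are `≥ 1`). Altogether `∏_{k < 8 M1} lam k ≤ C6 ^ N d ^ (16 M1)` for large `D` (the exponent of `d`: `4 M + 4 (4 M1 - M) = 16 M1`;
`N ^ (4M) ≤ 2 ^ N` for large `D`), with `C6` depending on `M`, `C1`, `K`. So
`lam (8 M1 - 1) ^ (8 M1) ≥ (d / 2) ^ (32 M1) / (C6 ^ (16 M1) d ^ (16 M1))`, i.e.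
`lam (8 M1 - 1) ≥ d ^ 2 / (16 C6 ^ 2)`.
-/

namespace Pool.Agent.H44.MG

theorem SQB_one_le {ι : Type*} (s : Finset ι) (f : ι → ℝ) (h : ∀ i ∈ s, 1 ≤ f i) :
    1 ≤ ∏ i ∈ s, f i :=
  Finset.prod_induction f (fun x => 1 ≤ x) (fun _ _ ha hb => one_le_mul_of_one_le_of_one_le ha hb)
    le_rfl h

theorem SQB_subset {ι : Type*} [DecidableEq ι] {s t : Finset ι} (hst : s ⊆ t) (f : ι → ℝ)
    (h : ∀ i ∈ t, 1 ≤ f i) : ∏ i ∈ s, f i ≤ ∏ i ∈ t, f i := by
  rw [← Finset.prod_sdiff hst]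
  have h1 := SQB_one_le (t \ s) f fun i hi => h i (Finset.mem_sdiff.1 hi).1
  have h2 := SQB_one_le s f fun i hi => h i (hst hi)
  nlinarith

theorem SQB_pairs (l : ℕ → ℝ) (hl : Antitone l) (h0 : ∀ k, 0 ≤ l k) (q : ℕ) :
    ∏ k ∈ Finset.range (2 * q), l k ≤ ∏ m ∈ Finset.range q, l (2 * m) ^ 2 := by
  induction q with
  | zero => simp
  | succ q ih =>
    have e : 2 * (q + 1) = 2 * q + 1 + 1 := by ring
    rw [e, Finset.prod_range_succ, Finset.prod_range_succ, Finset.prod_range_succ, mul_assoc]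
    refine mul_le_mul ih ?_ (mul_nonneg (h0 _) (h0 _)) (Finset.prod_nonneg fun _ _ => by positivity)
    rw [sq]
    exact mul_le_mul_of_nonneg_left (hl (by omega)) (h0 _)

theorem SQB_prod (l : ℕ → ℝ) (hl : Antitone l) (h0 : ∀ k, 0 ≤ l k) (n : ℕ) :
    ∏ k ∈ Finset.range (16 * n), l k ≤
      (∏ m ∈ Finset.range (4 * n), l (2 * m) ^ 2) * l (8 * n - 1) ^ (8 * n) := by
  have e : 16 * n = 2 * (4 * n) + 8 * n := by ring
  rw [e, Finset.prod_range_add]
  refine mul_le_mul (SQB_pairs l hl h0 _) ?_ (Finset.prod_nonneg fun _ _ => h0 _)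
    (Finset.prod_nonneg fun _ _ => by positivity)
  calc ∏ x ∈ Finset.range (8 * n), l (2 * (4 * n) + x)
      ≤ ∏ _x ∈ Finset.range (8 * n), l (8 * n - 1) :=
        Finset.prod_le_prod (fun _ _ => h0 _) fun x _ => hl (by omega)
    _ = l (8 * n - 1) ^ (8 * n) := by simp

/-- `∏ (x / m) ≤ exp x` if all factors are at least 1 -/
theorem SQB_fac (M n : ℕ) (hM : 1 ≤ M) (x : ℝ) (hx : (n : ℝ) ≤ x) :
    ∏ m ∈ Finset.Ico M n, (x / m) ≤ Real.exp x := by
  have hx0 : 0 ≤ x := (Nat.cast_nonneg n).trans hx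
  have h1 : ∏ m ∈ Finset.Ico M n, (x / m) ≤ ∏ m ∈ Finset.Ico 1 (n + 1), (x / m) := by
    refine SQB_subset (Finset.Ico_subset_Ico hM (by omega)) _ fun m hm => ?_
    rw [Finset.mem_Ico] at hm
    have hm0 : (0 : ℝ) < m := by exact_mod_cast (show 0 < m by omega)
    rw [le_div_iff₀ hm0, one_mul]
    exact le_trans (by exact_mod_cast (show m ≤ n by omega)) hx
  refine h1.trans ?_
  rw [Finset.prod_div_distrib, Finset.prod_const, Nat.card_Ico, Nat.add_sub_cancel,
    ← Nat.cast_prod, Finset.prod_Ico_id_eq_factorial]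
  exact Real.pow_div_factorial_le_exp x hx0 n

theorem SQB_comp (M n D : ℕ) (hM : 1 ≤ M) (hn : n ≤ D) (r : ℕ → ℝ)
    (hr : ∀ j ∈ Finset.Icc 1 D, 1 ≤ r j) :
    ∏ m ∈ Finset.Ico M n, r (m / M) ≤ (∏ j ∈ Finset.Icc 1 D, r j) ^ M := by
  have hsub : (Finset.Ico M n).image (fun m => m / M) ⊆ Finset.Icc 1 D := by
    intro j hj
    obtain ⟨m, hm, rfl⟩ := Finset.mem_image.1 hj
    rw [Finset.mem_Ico] at hm
    rw [Finset.mem_Icc]
    refine ⟨(Nat.one_le_div_iff (by omega)).2 hm.1, ?_⟩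
    exact (Nat.div_le_self m M).trans (by omega)
  rw [Finset.prod_comp, ← Finset.prod_pow]
  refine le_trans ?_ (SQB_subset hsub (fun j => r j ^ M) fun j hj => one_le_pow₀ (hr j hj))
  refine Finset.prod_le_prod (fun j hj => ?_) fun j hj => ?_
  · exact pow_nonneg (zero_le_one.trans (hr j (hsub hj))) _
  · refine pow_le_pow_right₀ (hr j (hsub hj)) ?_
    have h1 : (Finset.Ico M n).filter (fun m => m / M = j) ⊆ Finset.Ico (j * M) ((j + 1) * M) := by
      intro m hm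
      rw [Finset.mem_filter] at hm
      rw [Finset.mem_Ico]
      have h2 := Nat.div_add_mod m M
      have h3 := Nat.mod_lt m (show 0 < M by omega)
      rw [hm.2] at h2
      rw [add_mul, one_mul, mul_comm j M]
      omega
    refine (Finset.card_le_card h1).trans ?_
    rw [Nat.card_Ico, add_mul, one_mul, Nat.add_sub_cancel_left]

/-- a factor of a product of a decreasing sequence `≥ 1` -/
theorem SQB_up (D j : ℕ) (r : ℕ → ℝ) (hr : ∀ i ∈ Finset.Icc 1 D, 1 ≤ r i)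
    (hd : ∀ i, 1 ≤ i → i ≤ j → r j ≤ r i) (hj : j ≤ D) (hj1 : 1 ≤ j) :
    r j ^ j ≤ ∏ i ∈ Finset.Icc 1 D, r i := by
  have h0 : 0 ≤ r j := zero_le_one.trans (hr j (Finset.mem_Icc.2 ⟨hj1, hj⟩))
  calc r j ^ j = ∏ _i ∈ Finset.Icc 1 j, r j := by simp
    _ ≤ ∏ i ∈ Finset.Icc 1 j, r i := Finset.prod_le_prod (fun _ _ => h0) fun i hi => by
        rw [Finset.mem_Icc] at hi
        exact hd i hi.1 hi.2
    _ ≤ _ := SQB_subset (Finset.Icc_subset_Icc le_rfl hj) r hr

theorem spec_bounds (M : ℕ) (hM : 1 ≤ M) (C1 K : ℝ) (hC1 : 0 < C1) (hK : 0 ≤ K) :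
    ∃ (cs Cs : ℝ) (D0 : ℕ), 0 < cs ∧ 0 < Cs ∧ ∀ (dd : ℕ → ℝ),
      (∀ m n, 1 ≤ m → m ≤ n → dd n ≤ dd m) → (∀ n, 1 ≤ n → 0 < dd n) →
      ∀ (D M1 : ℕ), D0 ≤ D → M1 = D / 16 → ∀ (hM1 : 0 < M1),
      ∏ j ∈ Finset.Icc 1 D, dd j ≤ (Real.exp K * dd D) ^ D →
      ∀ lam : Fin (16 * M1) → ℝ, Antitone lam → (∀ k, 0 ≤ lam k) →
      ∏ k, lam k = (dd D / 2) ^ (2 * (16 * M1)) →
      (∀ k, lam k ≤ (16 * M1 * (dd D / 2)) ^ 2) →
      (∀ (m : ℕ) (_ : M ≤ m) (hm : 2 * m < 16 * M1),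
        (m + 1) * lam ⟨2 * m, hm⟩ ≤ 16 * M1 * (70 * (16 * M1) * (C1 * dd (m / M) / m)) ^ 2) →
      (cs * dd D) ^ 2 ≤ lam ⟨8 * M1 - 1, by omega⟩ ∧ lam ⟨2 * M1, by omega⟩ ≤ (Cs * dd D) ^ 2 := by
  classical
  set G : ℝ := Real.exp K with hG
  have hG1 : 1 ≤ G := Real.one_le_exp hK
  have hG0 : 0 < G := Real.exp_pos K
  set C6 : ℝ := ((4 * M).factorial * Real.exp 1) * Real.exp 6 * (70 * C1 + 1) * G ^ (8 * M)
    with hC6
  have hC60 : 0 < C6 := by positivity
  refine ⟨1 / (4 * C6), 4480 * C1 * G ^ (64 * M), 16 * M, by positivity, by positivity, ?_⟩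
  intro dd hdd hpos D M1 hD hM1D hM1 hprod lam hlam hlam0 hlamP hlamU hlamM
  have hD1 : 1 ≤ D := by omega
  have hMM1 : M ≤ M1 := by
    rw [hM1D, Nat.le_div_iff_mul_le (by norm_num)]
    omega
  have hM1le : 16 * M1 ≤ D := by omega
  have hDle : D ≤ 32 * M1 := by omega
  set d : ℝ := dd D with hd
  have hd0 : 0 < d := hpos D hD1
  have hM1r : (0 : ℝ) < M1 := by exact_mod_cast hM1
  -- the ratios
  set r : ℕ → ℝ := fun j => dd j / d with hr
  have hr1 : ∀ j ∈ Finset.Icc 1 D, 1 ≤ r j := by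
    intro j hj
    rw [Finset.mem_Icc] at hj
    rw [hr, le_div_iff₀ hd0, one_mul]
    exact hdd j D hj.1 hj.2
  have hrdd : ∀ j, dd j = d * r j := fun j => by
    rw [hr]
    field_simp
  have hrP : ∏ j ∈ Finset.Icc 1 D, r j ≤ G ^ D := by
    rw [hr, Finset.prod_div_distrib, Finset.prod_const, Nat.card_Icc, Nat.add_sub_cancel,
      div_le_iff₀ (by positivity), ← mul_pow]
    exact hprod
  constructor
  · -- lower bound
    set l : ℕ → ℝ := fun k => lam ⟨min k (16 * M1 - 1), by omega⟩ with hl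
    have hlanti : Antitone l := by
      intro a b hab
      refine hlam ?_
      simp only [Fin.mk_le_mk]
      exact min_le_min_right _ hab
    have hl0 : ∀ k, 0 ≤ l k := fun k => hlam0 _
    have hleq : ∀ (k : ℕ) (hk : k < 16 * M1), l k = lam ⟨k, hk⟩ := by
      intro k hk
      simp only [hl]
      congr 1
      exact Fin.ext (min_eq_left (by omega))
    have hprodl : ∏ k ∈ Finset.range (16 * M1), l k = (d / 2) ^ (2 * (16 * M1)) := by
      rw [← hlamP, Finset.prod_range]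
      exact Finset.prod_congr rfl fun k _ => hleq k.1 k.2
    have hmain := SQB_prod l hlanti hl0 M1
    rw [hprodl] at hmain
    -- the product of the first factors
    have hP : ∏ m ∈ Finset.range (4 * M1), l (2 * m) ^ 2 ≤ (C6 * d) ^ (16 * M1) := by
      have hsplit : ∏ m ∈ Finset.range (4 * M1), l (2 * m) ^ 2 =
          (∏ m ∈ Finset.range M, l (2 * m) ^ 2) * ∏ m ∈ Finset.Ico M (4 * M1), l (2 * m) ^ 2 := by
        rw [Finset.prod_range_mul_prod_Ico _ (by omega)]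
      have h1 : ∏ m ∈ Finset.range M, l (2 * m) ^ 2 ≤ (8 * M1 * d) ^ (4 * M) := by
        calc ∏ m ∈ Finset.range M, l (2 * m) ^ 2
            ≤ ∏ _m ∈ Finset.range M, (8 * M1 * d) ^ 4 := by
              refine Finset.prod_le_prod (fun _ _ => by positivity) fun m hm => ?_
              rw [Finset.mem_range] at hm
              have h2 := hlamU ⟨2 * m, by omega⟩
              rw [← hleq] at h2
              calc l (2 * m) ^ 2 ≤ ((16 * M1 * (d / 2)) ^ 2) ^ 2 :=
                    pow_le_pow_left₀ (hl0 _) h2 2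
                _ = (8 * M1 * d) ^ 4 := by ring
          _ = (8 * M1 * d) ^ (4 * M) := by
              rw [Finset.prod_const, Finset.card_range, ← pow_mul]
      have h2 : ∏ m ∈ Finset.Ico M (4 * M1), l (2 * m) ^ 2 ≤
          (∏ m ∈ Finset.Ico M (4 * M1), ((16 * M1 : ℝ) / m)) ^ 6 *
            ((70 * C1 * d) ^ 4) ^ (4 * M1 - M) *
            (∏ m ∈ Finset.Ico M (4 * M1), r (m / M)) ^ 4 := by
        rw [← Finset.prod_pow, ← Finset.prod_pow, ← Nat.card_Ico M (4 * M1), ← Finset.prod_const,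
          ← Finset.prod_mul_distrib, ← Finset.prod_mul_distrib]
        refine Finset.prod_le_prod (fun _ _ => by positivity) fun m hm => ?_
        rw [Finset.mem_Ico] at hm
        have hm0 : (0 : ℝ) < m := by exact_mod_cast (show 0 < m by omega)
        have h3 := hlamM m hm.1 (by omega)
        rw [← hleq, hrdd (m / M)] at h3
        have h4 : l (2 * m) ≤ (16 * M1 / m) ^ 3 * (70 * C1 * d) ^ 2 * r (m / M) ^ 2 := by
          have h5 : (m : ℝ) * l (2 * m) ≤ (m + 1) * l (2 * m) := by nlinarith [hl0 (2 * m)]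
          have h6 : (m : ℝ) * l (2 * m) ≤
              m * ((16 * M1 / m) ^ 3 * (70 * C1 * d) ^ 2 * r (m / M) ^ 2) := by
            refine h5.trans (h3.trans (le_of_eq ?_))
            field_simp
          exact le_of_mul_le_mul_left h6 hm0
        calc l (2 * m) ^ 2 ≤ ((16 * M1 / m) ^ 3 * (70 * C1 * d) ^ 2 * r (m / M) ^ 2) ^ 2 :=
              pow_le_pow_left₀ (hl0 _) h4 2
          _ = _ := by ring
      have h3 : ∏ m ∈ Finset.Ico M (4 * M1), ((16 * M1 : ℝ) / m) ≤ Real.exp (16 * M1) :=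
        SQB_fac M (4 * M1) hM (16 * M1) (by push_cast; nlinarith)
      have h30 : 0 ≤ ∏ m ∈ Finset.Ico M (4 * M1), ((16 * M1 : ℝ) / m) :=
        Finset.prod_nonneg fun _ _ => by positivity
      have h4 : ∏ m ∈ Finset.Ico M (4 * M1), r (m / M) ≤ (G ^ D) ^ M := by
        refine (SQB_comp M (4 * M1) D hM (by omega) r hr1).trans ?_
        exact pow_le_pow_left₀ (zero_le_one.trans (SQB_one_le _ _ hr1)) hrP M
      have h40 : 0 ≤ ∏ m ∈ Finset.Ico M (4 * M1), r (m / M) := by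
        refine Finset.prod_nonneg fun m hm => ?_
        rw [Finset.mem_Ico] at hm
        exact zero_le_one.trans (hr1 _ (Finset.mem_Icc.2
          ⟨(Nat.one_le_div_iff (by omega)).2 hm.1, (Nat.div_le_self m M).trans (by omega)⟩))
      have h5 : ((8 : ℝ) * M1) ^ (4 * M) ≤ ((4 * M).factorial * Real.exp 1) ^ (16 * M1) := by
        have h6 := Real.pow_div_factorial_le_exp (8 * M1 : ℝ) (by positivity) (4 * M)
        have hf1 : (1 : ℝ) ≤ (4 * M).factorial := by exact_mod_cast Nat.succ_le_of_lt (Nat.factorial_pos _)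
        rw [div_le_iff₀ (by positivity)] at h6
        calc ((8 : ℝ) * M1) ^ (4 * M) ≤ Real.exp (8 * M1) * (4 * M).factorial := h6
          _ ≤ Real.exp 1 ^ (16 * M1) * ((4 * M).factorial : ℝ) ^ (16 * M1) := by
              refine mul_le_mul ?_ ?_ (by positivity) (by positivity)
              · rw [← Real.exp_nat_mul]
                refine Real.exp_le_exp.2 ?_
                push_cast
                nlinarith
              · exact le_self_pow₀ hf1 (by omega)
          _ = _ := by rw [mul_pow, mul_comm]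
      have h6 : (70 * C1) ^ (4 * (4 * M1 - M)) ≤ (70 * C1 + 1) ^ (16 * M1) := by
        calc (70 * C1) ^ (4 * (4 * M1 - M)) ≤ (70 * C1 + 1) ^ (4 * (4 * M1 - M)) :=
              pow_le_pow_left₀ (by positivity) (by linarith) _
          _ ≤ _ := pow_le_pow_right₀ (by linarith) (by omega)
      have h7 : ((G ^ D) ^ M) ^ 4 ≤ (G ^ (8 * M)) ^ (16 * M1) := by
        rw [← pow_mul, ← pow_mul, ← pow_mul]
        refine pow_le_pow_right₀ hG1 ?_
        calc D * (M * 4) ≤ 32 * M1 * (M * 4) := by gcongr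
          _ = 8 * M * (16 * M1) := by ring
      rw [hsplit]
      calc (∏ m ∈ Finset.range M, l (2 * m) ^ 2) * ∏ m ∈ Finset.Ico M (4 * M1), l (2 * m) ^ 2
          ≤ (8 * M1 * d) ^ (4 * M) * ((Real.exp (16 * M1)) ^ 6 *
            ((70 * C1 * d) ^ 4) ^ (4 * M1 - M) * ((G ^ D) ^ M) ^ 4) := by
            refine mul_le_mul h1 (h2.trans ?_) (Finset.prod_nonneg fun _ _ => by positivity)
              (by positivity)
            refine mul_le_mul (mul_le_mul_of_nonneg_right (pow_le_pow_left₀ h30 h3 6)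
              (by positivity)) (pow_le_pow_left₀ h40 h4 4) (by positivity) (by positivity)
        _ = (8 * M1) ^ (4 * M) * (Real.exp (16 * M1)) ^ 6 * (70 * C1) ^ (4 * (4 * M1 - M)) *
            ((G ^ D) ^ M) ^ 4 * (d ^ (4 * M) * d ^ (4 * (4 * M1 - M))) := by
            rw [mul_pow (8 * (M1 : ℝ)) d, mul_pow (70 * C1) d 4, mul_pow ((70 * C1) ^ 4),
              ← pow_mul, ← pow_mul]
            ring
        _ ≤ ((4 * M).factorial * Real.exp 1) ^ (16 * M1) * (Real.exp 6) ^ (16 * M1) *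
            (70 * C1 + 1) ^ (16 * M1) * (G ^ (8 * M)) ^ (16 * M1) *
            (d ^ (4 * M) * d ^ (4 * (4 * M1 - M))) := by
            have e1 : Real.exp (16 * M1) ^ 6 = Real.exp 6 ^ (16 * M1) := by
              rw [← Real.exp_nat_mul, ← Real.exp_nat_mul]
              congr 1
              push_cast
              ring
            rw [e1]
            gcongr
        _ = (C6 * d) ^ (16 * M1) := by
            have e2 : d ^ (4 * M) * d ^ (4 * (4 * M1 - M)) = d ^ (16 * M1) := by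
              rw [← pow_add]
              congr 1
              omega
            rw [e2, hC6]
            simp only [mul_pow]
    have hL := hleq (8 * M1 - 1) (by omega)
    rw [← hL]
    set L : ℝ := l (8 * M1 - 1) with hLd
    have hL0 : 0 ≤ L := hl0 _
    have h8 : ((d / 2) ^ 4) ^ (8 * M1) ≤ ((C6 * d) ^ 2 * L) ^ (8 * M1) := by
      calc ((d / 2) ^ 4) ^ (8 * M1) = (d / 2) ^ (2 * (16 * M1)) := by
            rw [← pow_mul]
            congr 1
            ring
        _ ≤ _ := hmain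
        _ ≤ (C6 * d) ^ (16 * M1) * L ^ (8 * M1) :=
            mul_le_mul_of_nonneg_right hP (by positivity)
        _ = ((C6 * d) ^ 2 * L) ^ (8 * M1) := by
            rw [mul_pow ((C6 * d) ^ 2), ← pow_mul]
            congr 2
            ring
    have h9 : (d / 2) ^ 4 ≤ (C6 * d) ^ 2 * L :=
      le_of_pow_le_pow_left₀ (by omega) (by positivity) h8
    have h10 : (1 / (4 * C6) * d) ^ 2 * ((C6 * d) ^ 2) ≤ L * (C6 * d) ^ 2 := by
      have : (1 / (4 * C6) * d) ^ 2 * ((C6 * d) ^ 2) = (d / 2) ^ 4 := by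
        field_simp
        ring
      rw [this]
      linarith
    exact le_of_mul_le_mul_right h10 (by positivity)
  · -- upper bound
    have hj1 : 1 ≤ M1 / M := (Nat.one_le_div_iff (by omega)).2 hMM1
    have hjD : M1 / M ≤ D := (Nat.div_le_self _ _).trans (by omega)
    have h1 := hlamM M1 hMM1 (by omega)
    set j : ℕ := M1 / M with hj
    have hDj : D ≤ 64 * M * j := by
      have h2 := Nat.div_add_mod M1 M
      have h3 := Nat.mod_lt M1 (show 0 < M by omega)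
      rw [← hj] at h2
      have h4 : M1 ≤ 2 * (M * j) := by
        have : M ≤ M * j := Nat.le_mul_of_pos_right M hj1
        omega
      calc D ≤ 32 * M1 := hDle
        _ ≤ 32 * (2 * (M * j)) := by gcongr
        _ = 64 * M * j := by ring
    have h2 : r j ^ j ≤ (G ^ (64 * M)) ^ j := by
      calc r j ^ j ≤ ∏ i ∈ Finset.Icc 1 D, r i := by
            refine SQB_up D j r hr1 (fun i hi hij => ?_) hjD hj1
            rw [hr]
            exact div_le_div_of_nonneg_right (hdd i j hi hij) hd0.le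
        _ ≤ G ^ D := hrP
        _ ≤ G ^ (64 * M * j) := pow_le_pow_right₀ hG1 hDj
        _ = (G ^ (64 * M)) ^ j := by rw [← pow_mul]
    have h3 : r j ≤ G ^ (64 * M) := le_of_pow_le_pow_left₀ (by omega) (by positivity) h2
    have hrj0 : 0 ≤ r j := zero_le_one.trans (hr1 j (Finset.mem_Icc.2 ⟨hj1, hjD⟩))
    have hlam1 := hlam0 ⟨2 * M1, by omega⟩
    have h4 : (M1 : ℝ) * lam ⟨2 * M1, by omega⟩ ≤ M1 * (4480 * C1 * dd j) ^ 2 := by
      have h5 : (M1 : ℝ) * lam ⟨2 * M1, by omega⟩ ≤ (M1 + 1) * lam ⟨2 * M1, by omega⟩ := by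
        nlinarith
      refine h5.trans (h1.trans (le_of_eq ?_))
      field_simp
      ring
    have h5 := le_of_mul_le_mul_left h4 hM1r
    refine h5.trans ?_
    refine pow_le_pow_left₀ (by rw [hrdd]; positivity) ?_ 2
    rw [hrdd j]
    calc 4480 * C1 * (d * r j) ≤ 4480 * C1 * (d * G ^ (64 * M)) := by gcongr
      _ = 4480 * C1 * G ^ (64 * M) * d := by ring

end Pool.Agent.H44.MG
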