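import Pool.Agent.H44.MG.SYS
import Pool.Agent.H44.MG.LOW
import Pool.Agent.H44.MG.RNK
import Pool.Agent.H44.MG.MUC
import Pool.Agent.H44.MG.SEL
import Pool.Agent.H44.MG.GEO
import Pool.Agent.H44.MG.LWT
import Pool.Agent.H44.MG.SQA
import Pool.Agent.H44.MG.SQB

/-!
# FNC : Theorem R2

Suppose `eRan S F (M n) ≤ ofReal (C / n) * eDet S F n` for all `n ≥ 1` (we may take `C > 0`). Put `dd n = (eDet S F n).toReal` (`n ≥ 1`),
`ofReal (dd n) = eDet S F n`. For `m ≥ M`, `j = m / M ≥ 1`, `j ≥ m / (2 M)`: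
`eRan m ≤ eRan (M j) ≤ (C / j) dd j < C1 dd j / m`, `C1 = 2 M C + 1` (`eRan` is antitone, `dd j > 0`).
Take `K = γ + 1`, `cs`, `Cs`, `D0` from `spec_bounds`; `c = cs`, `C' = Cs`: `c2 = cs dd D / 3`, `C2 = 9 Cs²/cs²`,
`c3 = 3 cs² / (16 Cs²)`. Choose `A ≥ 1` with `A cs / 192 > 16 C1 (exp K) ^ (64 M) + …`: precisely the last
step is `A c2 / (64 · 16 M1) ≤ C1 dd (M1 / M) / M1` with `dd (M1 / M) ≤ B dd D`
(`B` does not depend on `D`, as in `spec_bounds`), i.e. `A cs / 3 ≤ 1024 C1 B`; this is false if `A` is large. Take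
`W, η, ε, q` from `multi A`, `D0'` from `select`, a scale `D ≥ 16 (D0 + D0' + M + …)` from `exists_scale`,
`M1 = D / 16`, a system of length `16 M1` and size `dd D / 2` (`exists_sys`), its spectrum, and
`lower_of_multi` with `m = M1`, `P θ = Fam A η ε θ`, `hdir` from `geo_family` and `select`.
-/

namespace Pool.Agent.H44.MG

open MeasureTheory ENNReal Module

variable {X Y : Type*} [NormedAddCommGroup X] [NormedSpace ℝ X]
  [NormedAddCommGroup Y] [NormedSpace ℝ Y] {S : X →L[ℝ] Y} {F : Set X}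

theorem eRan_anti {m n : ℕ} (h : m ≤ n) : eRan S F n ≤ eRan S F m := by
  unfold eRan
  refine le_iInf fun Ω => le_iInf fun mΩ => le_iInf fun P => le_iInf fun hP => le_iInf fun L =>
    le_iInf fun φ => le_iInf fun hm => ?_
  have key : ∀ (ω : Ω) (f : X), (fun ω' (z : Fin n → ℝ) => φ ω' (fun i => z (Fin.castLE h i))) ω
      (fun i => (fun ω' (i : Fin n) => if hi : (i : ℕ) < m then L ω' ⟨i, hi⟩ else 0) ω i f) =
        φ ω (fun i => L ω i f) := by
    intro ω f
    simp
  refine iInf_le_of_le Ω <| iInf_le_of_le mΩ <| iInf_le_of_le P <| iInf_le_of_le hP <|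
    iInf_le_of_le (fun ω i => if hi : (i : ℕ) < m then L ω ⟨i, hi⟩ else 0) <|
    iInf_le_of_le (fun ω z => φ ω (fun i => z (Fin.castLE h i))) <| iInf_le_of_le ?_ ?_
  · simpa only [key] using hm
  · refine le_of_eq ?_
    simp only [key]

/-- at a good scale the values of the sequence at `D / const` and at `D` are comparable -/
theorem scale_comp (M : ℕ) (hM : 1 ≤ M) (K : ℝ) (hK : 0 ≤ K) : ∃ B : ℝ, 0 < B ∧
    ∀ (dd : ℕ → ℝ), (∀ m n, 1 ≤ m → m ≤ n → dd n ≤ dd m) → (∀ n, 1 ≤ n → 0 < dd n) →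
      ∀ (D : ℕ), 64 * M ≤ D → ∏ j ∈ Finset.Icc 1 D, dd j ≤ (Real.exp K * dd D) ^ D →
      dd (D / 16 / M) ≤ B * dd D := by
  refine ⟨Real.exp (32 * M * K), Real.exp_pos _, fun dd anti pos D hD hp => ?_⟩
  set j := D / 16 / M with hj
  have hj' : j = D / (16 * M) := by rw [hj, Nat.div_div_eq_div_mul]
  have h16 : 0 < 16 * M := by omega
  have hj1 : 1 ≤ j := by
    rw [hj', Nat.le_div_iff_mul_le h16]
    omega
  have hjD : j ≤ D := by
    rw [hj']
    exact Nat.div_le_self _ _
  have hDj : D ≤ 32 * M * j := by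
    have h1 : D < 16 * M * (j + 1) := by
      rw [hj']
      exact Nat.lt_mul_div_succ D h16
    have h2 : 16 * M * (j + 1) ≤ 32 * M * j := by
      have : M * 1 ≤ M * j := Nat.mul_le_mul_left M hj1
      nlinarith
    omega
  have hD1 : 1 ≤ D := by omega
  have hdD := pos D hD1
  have hdj := pos j hj1
  have e1 : ∏ i ∈ Finset.Icc 1 D, dd i =
      (∏ i ∈ Finset.Icc 1 j, dd i) * ∏ i ∈ Finset.Ioc j D, dd i := by
    rw [← Finset.prod_union]
    · congr 1
      ext i
      simp only [Finset.mem_Icc, Finset.mem_union, Finset.mem_Ioc]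
      omega
    · rw [Finset.disjoint_left]
      intro i hi hi'
      simp only [Finset.mem_Icc, Finset.mem_Ioc] at hi hi'
      omega
  have e2 : dd j ^ j ≤ ∏ i ∈ Finset.Icc 1 j, dd i := by
    have := Finset.prod_le_prod (s := Finset.Icc 1 j) (f := fun _ => dd j) (g := dd)
      (fun i _ => hdj.le) (fun i hi => by
        rw [Finset.mem_Icc] at hi
        exact anti i j hi.1 hi.2)
    simpa using this
  have e3 : dd D ^ (D - j) ≤ ∏ i ∈ Finset.Ioc j D, dd i := by
    have := Finset.prod_le_prod (s := Finset.Ioc j D) (f := fun _ => dd D) (g := dd)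
      (fun i _ => hdD.le) (fun i hi => by
        rw [Finset.mem_Ioc] at hi
        exact anti i D (by omega) hi.2)
    simpa using this
  have e4 : dd j ^ j * dd D ^ (D - j) ≤ Real.exp K ^ D * dd D ^ D := by
    calc dd j ^ j * dd D ^ (D - j) ≤ _ :=
          mul_le_mul e2 e3 (by positivity) (le_trans (by positivity) e2)
      _ = _ := e1.symm
      _ ≤ _ := hp
      _ = _ := mul_pow _ _ _
  have e5 : dd j ^ j ≤ Real.exp K ^ D * dd D ^ j := by
    have h1 : dd D ^ D = dd D ^ j * dd D ^ (D - j) := by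
      rw [← pow_add]
      congr 1
      omega
    rw [h1, ← mul_assoc] at e4
    exact le_of_mul_le_mul_right e4 (by positivity)
  have e6 : dd j ^ j ≤ (Real.exp (32 * M * K) * dd D) ^ j := by
    rw [mul_pow]
    refine e5.trans (mul_le_mul_of_nonneg_right ?_ (by positivity))
    rw [← Real.exp_nat_mul, ← Real.exp_nat_mul]
    apply Real.exp_le_exp.2
    have : (D : ℝ) ≤ 32 * M * j := by exact_mod_cast hDj
    nlinarith [mul_le_mul_of_nonneg_right this hK]
  exact le_of_pow_le_pow_left₀ (by omega) (by positivity) e6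

theorem FNC_sq {D : ℕ} (x : EuclideanSpace ℝ (Fin D)) : ∑ k, x k ^ 2 = ‖x‖ ^ 2 := by
  rw [EuclideanSpace.real_norm_sq_eq]

theorem no_full_gain (hF : Convex ℝ F) {c γ : ℝ} (hc : 0 < c) (hγ : 0 ≤ γ)
    (hlow : ∀ n : ℕ, 1 ≤ n → ENNReal.ofReal (c * (n : ℝ) ^ (-γ)) ≤ eDet S F n)
    (hfin : ∀ n : ℕ, 1 ≤ n → eDet S F n < ⊤) (M : ℕ) (hM : 1 ≤ M) (C : ℝ) :
    ∃ n : ℕ, 1 ≤ n ∧ ENNReal.ofReal (C / n) * eDet S F n < eRan S F (M * n) := by
  by_contra hcon
  push Not at hcon
  set C' : ℝ := max C 1 with hC'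
  have hC'1 : 1 ≤ C' := le_max_right _ _
  have hcon' : ∀ n : ℕ, 1 ≤ n → eRan S F (M * n) ≤ ENNReal.ofReal (C' / n) * eDet S F n := by
    intro n hn
    refine (hcon n hn).trans ?_
    gcongr
    exact le_max_left _ _
  set dd : ℕ → ℝ := fun n => (eDet S F n).toReal with hdd_def
  have hdd : ∀ n, 1 ≤ n → ENNReal.ofReal (dd n) = eDet S F n :=
    fun n hn => ENNReal.ofReal_toReal (hfin n hn).ne
  have hlow' : ∀ n : ℕ, 1 ≤ n → c * (n : ℝ) ^ (-γ) ≤ dd n := by
    intro n hn
    have h1 := hlow n hn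
    rw [← hdd n hn] at h1
    exact (ENNReal.ofReal_le_ofReal_iff ENNReal.toReal_nonneg).1 h1
  have hpos : ∀ n, 1 ≤ n → 0 < dd n := by
    intro n hn
    refine lt_of_lt_of_le ?_ (hlow' n hn)
    have : (0 : ℝ) < n := by exact_mod_cast hn
    positivity
  have hanti : ∀ m n, 1 ≤ m → m ≤ n → dd n ≤ dd m := fun m n hm hmn =>
    ENNReal.toReal_mono (hfin m hm).ne (eDet_anti hmn)
  have hne : F.Nonempty := by
    by_contra hemp
    rw [Set.not_nonempty_iff_eq_empty] at hemp
    have h1 := hpos 1 le_rfl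
    have h2 : eDet S F 1 = 0 := by
      rw [hemp]
      refine le_antisymm ?_ bot_le
      refine iInf_le_of_le (fun _ => 0) (iInf_le_of_le (fun _ => 0) ?_)
      simp
    rw [hdd_def] at h1
    simp [h2] at h1
  set C1 : ℝ := 2 * M * C' + 1 with hC1_def
  have hMpos : (0 : ℝ) < M := by exact_mod_cast hM
  have hC1 : 0 < C1 := by positivity
  have hran : ∀ m : ℕ, M ≤ m → eRan S F m < ENNReal.ofReal (C1 * dd (m / M) / m) := by
    intro m hm
    set j := m / M with hj
    have hj1 : 1 ≤ j := (Nat.le_div_iff_mul_le (by omega)).2 (by omega)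
    have hjm : M * j ≤ m := Nat.mul_div_le m M
    have hm2 : m ≤ 2 * M * j := by
      have h1 : m < M * (j + 1) := Nat.lt_mul_div_succ m (by omega)
      have h2 : M * 1 ≤ M * j := Nat.mul_le_mul_left M hj1
      nlinarith
    have hdj := hpos j hj1
    have hj0 : (0 : ℝ) < j := by exact_mod_cast hj1
    have hm0 : (0 : ℝ) < m := by
      have : 0 < m := by omega
      exact_mod_cast this
    calc eRan S F m ≤ eRan S F (M * j) := eRan_anti hjm
      _ ≤ ENNReal.ofReal (C' / j) * eDet S F j := hcon' j hj1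
      _ = ENNReal.ofReal (C' / j * dd j) := by
          rw [← hdd j hj1, ← ENNReal.ofReal_mul (by positivity)]
      _ < ENNReal.ofReal (C1 * dd j / m) := by
          rw [ENNReal.ofReal_lt_ofReal_iff (by positivity)]
          rw [div_mul_eq_mul_div, div_lt_div_iff₀ hj0 hm0]
          have h1 : (m : ℝ) ≤ 2 * M * j := by exact_mod_cast hm2
          have h2 : C' * dd j * m ≤ C' * dd j * (2 * M * j) :=
            mul_le_mul_of_nonneg_left h1 (by positivity)
          have h3 : 0 < dd j * j := by positivity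
          rw [hC1_def]
          nlinarith
  obtain ⟨cs, Cs, D0, hcs, hCs, hspec⟩ := spec_bounds M hM C1 (γ + 1) hC1 (by linarith)
  obtain ⟨B, hB, hcomp⟩ := scale_comp M hM (γ + 1) (by linarith)
  set A : ℝ := max 1 (3072 * C1 * B / cs + 1) with hA_def
  have hA : 1 ≤ A := le_max_left _ _
  have hA2 : 3072 * C1 * B / cs < A := lt_of_lt_of_le (lt_add_one _) (le_max_right _ _)
  obtain ⟨W, η, ε, q, hW, hη, hε, hq, hmulti⟩ := multi A hA
  obtain ⟨D0', hsel⟩ := select A η ε (9 * Cs ^ 2 / cs ^ 2) (3 * cs ^ 2 / (16 * Cs ^ 2)) hA hη hε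
    (by positivity) (by positivity) q
  obtain ⟨D, hDge, hD1, hprod⟩ := exists_scale dd hanti hpos hc hγ hlow'
    (D0 + 16 * (D0' + 1) + 64 * M + 16)
  set M1 := D / 16 with hM1_def
  have hM1 : 0 < M1 := by omega
  have h16 : 16 * M1 ≤ D := Nat.mul_div_le D 16
  have hMM1 : M ≤ M1 := by omega
  have hdD := hpos D hD1
  have hsys : ENNReal.ofReal (dd D / 2) < eDet S F (16 * M1 - 1) := by
    have h1 : 1 ≤ 16 * M1 - 1 := by omega
    rw [← hdd _ h1]
    rw [ENNReal.ofReal_lt_ofReal_iff (hpos _ h1)]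
    have := hanti (16 * M1 - 1) D h1 (by omega)
    linarith
  obtain ⟨s⟩ := exists_sys hF (D := 16 * M1) (half_pos hdD) hsys
  obtain ⟨b, lam, hSp⟩ := exists_spec s.mat
  have hcast : ((16 * M1 : ℕ) : ℝ) = 16 * (M1 : ℝ) := by push_cast; ring
  have hbounds := hspec dd hanti hpos D M1 (by omega) rfl hM1 hprod lam hSp.anti hSp.nonneg
    (by
      rw [← hSp.det, s.det_mat, ← pow_mul, mul_comm 2])
    (by
      intro k
      have := hSp.le_sq s.abs_mat_le k
      rwa [hcast] at this)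
    (by
      intro m hm hm2
      obtain ⟨K, hK1, hK2⟩ := exists_close s hF hne (by omega) (hran m hm)
      have := hSp.lam_le hm2 K hK1 hK2
      rwa [hcast] at this)
  obtain ⟨hlowl, hupl⟩ := hbounds
  have hfinal := lower_of_multi (W := W) hA hW (fun θ : Fin q → Fin (16 * M1) → ℝ => Fam A η ε θ)
    (hmulti (16 * M1) (by omega)) s hF hne (by omega) (m := M1) (c2 := cs * dd D / 3)
    (by positivity)
    (by
      intro K hK
      obtain ⟨I, θ, hI, hθ, hθ2⟩ := geo_family hM1 hSp (c := cs * dd D) (C := Cs * dd D)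
        (by positivity) (by positivity) hlowl hupl K hK
      obtain ⟨e, he, heI, hfam⟩ := hsel (16 * M1) (by omega) I (fun i k => θ i k)
        (by
          refine le_trans (le_of_eq ?_) hI
          rw [hcast]
          field_simp)
        (by
          intro i hi
          rw [FNC_sq, (hθ i hi).1]
          norm_num)
        (by
          intro x
          have h1 := hθ2 (WithLp.toLp 2 x)
          rw [← FNC_sq] at h1
          have h2 : 9 * (Cs * dd D) ^ 2 / (cs * dd D) ^ 2 = 9 * Cs ^ 2 / cs ^ 2 := by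
            field_simp
          rw [h2] at h1
          refine le_trans (le_of_eq ?_) h1
          refine Finset.sum_congr rfl fun i _ => ?_
          congr 1
          rw [PiLp.inner_apply]
          refine Finset.sum_congr rfl fun k _ => ?_
          simp [mul_comm])
      exact ⟨e, fun l => θ (e l), hfam, fun l => (hθ (e l) (heI l)).2⟩)
    (hran M1 hMM1)
  have hcomp' := hcomp dd hanti hpos D (by omega) hprod
  rw [← hM1_def] at hcomp'
  rw [hcast] at hfinal
  have hM10 : (0 : ℝ) < M1 := by exact_mod_cast hM1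
  have h1 : A * (cs * dd D / 3) / (64 * (16 * (M1 : ℝ))) ≤ C1 * (B * dd D) / M1 :=
    hfinal.trans (by gcongr)
  rw [div_le_div_iff₀ (by positivity) hM10] at h1
  have h2 : A * cs ≤ 3072 * C1 * B := by
    have h3 : (A * cs) * (dd D * M1) ≤ (3072 * C1 * B) * (dd D * M1) := by nlinarith
    exact le_of_mul_le_mul_right h3 (by positivity)
  rw [div_lt_iff₀ hcs] at hA2
  linarith

end Pool.Agent.H44.MG
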