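import Pool.Agent.H44.MG.OND

/-!
# MPA : `sgk` and `rhk` are good

`|θ| ≤ 1`, `η ≤ 1/8`, `A / η ≤ W`, `1 ≤ A`. If `|A θ| < η` then `fac = 1` and the shifts
`A θ`, `A θ / W` are at most `η` in absolute value; if `η ≤ |A θ|` then `fac false = 0`, `fac true = W` and
the shift `A θ / W` is at most `A / W ≤ η`.

* `rhk`, `ss`: `ec = (1 - 1/W) (1 + J δ δ' + …) + (1/W) (…)` with `δ = A θ`, `δ' = A θ'` (`b = false`) and
  `δ = A θ / W`, … (`b = true`): `κ = J ((1 - 1/W) + 1/W³)`, error `≤ C0 · 2η · A² (θ² + θ'²)`.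
* `ls`: `ec = (1/W) · W ∫ rh δ rh δ' dens`, `δ = A θ / W`, `δ' = A θ' / W`, so it is at most
  `1 + J A² |θ θ'| / W² + C0 · 2η · A² (θ² + θ'²)`.
* `ds`: `δ' = δ`; `dl`: `ec = (1/W) W² ∫ (rh δ)² dens ≤ W (1 + J δ² + 4 C0 |δ|³)`.
* `sgk`: the same with `sg_sg`, `κ = 0`.
-/

namespace Pool.Agent.H44.MG

open MeasureTheory

/-- the common form of `sgk` and `rhk` -/
private noncomputable def MPA_G (R : ℝ → ℝ → ℝ) (A η W θ : ℝ) (b : Bool) (x : ℝ) : ℝ :=
  fac A η W θ b * R (A * θ / (if b then W else 1)) x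

private theorem MPA_fac_small {A η W θ : ℝ} (h : |A * θ| < η) (b : Bool) :
    fac A η W θ b = 1 := by
  unfold fac
  rw [if_neg (not_le.2 h)]

private theorem MPA_fac_large {A η W θ : ℝ} (h : η ≤ |A * θ|) (b : Bool) :
    fac A η W θ b = if b then W else 0 := by
  unfold fac
  rw [if_pos h]

private theorem MPA_absAθ {A θ : ℝ} (hA : 1 ≤ A) (hθ : |θ| ≤ 1) : |A * θ| ≤ A := by
  rw [abs_mul, abs_of_nonneg (by linarith : (0:ℝ) ≤ A)]
  have : 0 ≤ |θ| := abs_nonneg θ
  nlinarith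

private theorem MPA_divW {A η W θ : ℝ} (hA : 1 ≤ A) (hη : 0 < η) (hη8 : η ≤ 1 / 8)
    (hW : A / η ≤ W) (hθ : |θ| ≤ 1) : |A * θ / W| ≤ η := by
  have hW' : A ≤ η * W := by
    rw [div_le_iff₀ hη] at hW; linarith
  have hWpos : 0 < W := by
    by_contra hc
    have : η * W ≤ 0 := mul_nonpos_of_nonneg_of_nonpos hη.le (not_lt.1 hc)
    linarith
  rw [abs_div, abs_of_pos hWpos, div_le_iff₀ hWpos]
  exact (MPA_absAθ hA hθ).trans hW'

private theorem MPA_W {A η W : ℝ} (hA : 1 ≤ A) (hη : 0 < η) (hη8 : η ≤ 1 / 8)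
    (hW : A / η ≤ W) : 8 ≤ W := by
  have : 8 ≤ A / η := by
    rw [le_div_iff₀ hη]; linarith
  linarith

private theorem MPA_divle {W y : ℝ} (hW : 1 ≤ W) : |y / W| ≤ |y| := by
  rw [abs_div, abs_of_nonneg (by linarith : (0:ℝ) ≤ W)]
  exact div_le_self (abs_nonneg y) hW

private theorem MPA_divsq {W y : ℝ} (hW : 1 ≤ W) : (y / W) ^ 2 ≤ y ^ 2 := by
  have := MPA_divle (y := y) hW
  exact sq_le_sq.2 this

private theorem MPA_ec {A η W θ θ' : ℝ} (R : ℝ → ℝ → ℝ) :
    ec W (fun b x => MPA_G R A η W θ b x * MPA_G R A η W θ' b x) =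
      (1 - 1 / W) * (fac A η W θ false * fac A η W θ' false *
        (∫ x, R (A * θ) x * R (A * θ') x * dens x)) +
      1 / W * (fac A η W θ true * fac A η W θ' true *
        (∫ x, R (A * θ / W) x * R (A * θ' / W) x * dens x)) := by
  unfold ec MPA_G
  simp only [Bool.false_eq_true, if_false, if_true, div_one]
  congr 2
  · rw [← integral_const_mul]
    congr 1
    funext x
    ring
  · rw [← integral_const_mul]
    congr 1
    funext x
    ring

private theorem MPA_ec1 {A η W θ : ℝ} (R : ℝ → ℝ → ℝ) :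
    ec W (MPA_G R A η W θ) =
      (1 - 1 / W) * (fac A η W θ false * (∫ x, R (A * θ) x * dens x)) +
      1 / W * (fac A η W θ true * (∫ x, R (A * θ / W) x * dens x)) := by
  unfold ec MPA_G
  simp only [Bool.false_eq_true, if_false, if_true, div_one]
  congr 2
  · rw [← integral_const_mul]
    congr 1
    funext x
    ring
  · rw [← integral_const_mul]
    congr 1
    funext x
    ring

private theorem MPA_good (R : ℝ → ℝ → ℝ) (J C1 C : ℝ) (hJ : 0 ≤ J) (hC1 : 0 ≤ C1)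
    (hC : 1 + J + 4 * C1 ≤ C)
    (meas : ∀ δ, Measurable (R δ)) (nonneg : ∀ δ x, 0 ≤ R δ x)
    (bd : ∀ δ, |δ| ≤ 1 / 8 → ∀ x, R δ x ≤ 200)
    (int : ∀ δ, |δ| ≤ 1 / 8 → ∫ x, R δ x * dens x = 1)
    (corr : ∀ δ δ', |δ| ≤ 1 / 8 → |δ'| ≤ 1 / 8 → ∫ x, R δ x * R δ' x * dens x ≤
      1 + J * (δ * δ') + C1 * (|δ| + |δ'|) * (δ ^ 2 + δ' ^ 2))
    {A η W : ℝ} (hA : 1 ≤ A) (hη : 0 < η) (hη8 : η ≤ 1 / 8) (hW : A / η ≤ W) :
    GoodG A η W C (J * ((1 - 1 / W) + 1 / W ^ 3)) (MPA_G R A η W) := by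
  have hW8 : 8 ≤ W := MPA_W hA hη hη8 hW
  have hW1 : 1 ≤ W := by linarith
  have hWp : 0 < W := by linarith
  have hWi : 0 < 1 / W := by positivity
  have hWi1 : 1 / W ≤ 1 := by
    rw [div_le_one hWp]; exact hW1
  have hWW : 1 / W * W = 1 := by field_simp
  have hA0 : 0 ≤ A := by linarith
  -- the correlation for shifts bounded by `η`
  have cor' : ∀ δ δ', |δ| ≤ η → |δ'| ≤ η → ∫ x, R δ x * R δ' x * dens x ≤
      1 + J * (δ * δ') + 2 * C1 * η * (δ ^ 2 + δ' ^ 2) := by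
    intro δ δ' h h'
    have := corr δ δ' (h.trans hη8) (h'.trans hη8)
    have h2 : C1 * (|δ| + |δ'|) * (δ ^ 2 + δ' ^ 2) ≤ C1 * (2 * η) * (δ ^ 2 + δ' ^ 2) := by
      apply mul_le_mul_of_nonneg_right _ (by positivity)
      apply mul_le_mul_of_nonneg_left _ hC1
      linarith
    linarith
  have hCη : 2 * C1 * η ≤ C * η := by
    apply mul_le_mul_of_nonneg_right _ hη.le
    linarith
  refine ⟨?_, ?_, ?_, ?_, ?_, ?_, ?_, ?_⟩
  · -- measurability
    intro θ b
    unfold MPA_G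
    exact (meas _).const_mul _
  · -- nonnegativity
    intro θ b x _
    unfold MPA_G
    refine mul_nonneg ?_ (nonneg _ _)
    unfold fac
    split_ifs <;> linarith
  · -- boundedness
    refine ⟨W * 200, fun θ b x hθ => ?_⟩
    have hnn : 0 ≤ MPA_G R A η W θ b x := by
      unfold MPA_G
      refine mul_nonneg ?_ (nonneg _ _)
      unfold fac
      split_ifs <;> linarith
    rw [abs_of_nonneg hnn]
    unfold MPA_G
    by_cases hs : |A * θ| < η
    · rw [MPA_fac_small hs, one_mul]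
      have h8 : |A * θ / (if b then W else 1)| ≤ 1 / 8 := by
        cases b
        · simp only [Bool.false_eq_true, if_false, div_one]
          linarith
        · simp only [if_true]
          exact (MPA_divle hW1).trans (by linarith)
      have := bd _ h8 x
      nlinarith
    · push Not at hs
      rw [MPA_fac_large hs]
      cases b
      · simp only [Bool.false_eq_true, if_false, zero_mul]
        positivity
      · simp only [if_true]
        have h8 : |A * θ / W| ≤ 1 / 8 := (MPA_divW hA hη hη8 hW hθ).trans hη8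
        have := bd _ h8 x
        exact mul_le_mul_of_nonneg_left this hWp.le
  · -- mean
    intro θ hθ
    rw [MPA_ec1]
    have h2 : ∫ x, R (A * θ / W) x * dens x = 1 :=
      int _ ((MPA_divW hA hη hη8 hW hθ).trans hη8)
    rw [h2]
    by_cases hs : |A * θ| < η
    · rw [MPA_fac_small hs, MPA_fac_small hs, int _ (by linarith)]
      ring
    · push Not at hs
      rw [MPA_fac_large hs, MPA_fac_large hs]
      simp only [Bool.false_eq_true, if_false, if_true]
      field_simp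
      ring
  · -- small, small
    intro θ θ' hθ hθ' hs hs'
    rw [MPA_ec, MPA_fac_small hs, MPA_fac_small hs, MPA_fac_small hs', MPA_fac_small hs']
    have e1 := cor' (A * θ) (A * θ') hs.le hs'.le
    have e2 := cor' (A * θ / W) (A * θ' / W) ((MPA_divle hW1).trans hs.le)
      ((MPA_divle hW1).trans hs'.le)
    have q1 : (A * θ / W) ^ 2 ≤ (A * θ) ^ 2 := MPA_divsq hW1
    have q2 : (A * θ' / W) ^ 2 ≤ (A * θ') ^ 2 := MPA_divsq hW1
    have e3 : 2 * C1 * η * ((A * θ / W) ^ 2 + (A * θ' / W) ^ 2) ≤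
        2 * C1 * η * ((A * θ) ^ 2 + (A * θ') ^ 2) :=
      mul_le_mul_of_nonneg_left (by linarith) (by positivity)
    have e4 : 2 * C1 * η * ((A * θ) ^ 2 + (A * θ') ^ 2) ≤
        C * η * ((A * θ) ^ 2 + (A * θ') ^ 2) :=
      mul_le_mul_of_nonneg_right hCη (by positivity)
    have f1 : (1 - 1 / W) * (1 * 1 * ∫ x, R (A * θ) x * R (A * θ') x * dens x) ≤
        (1 - 1 / W) * (1 + J * (A * θ * (A * θ')) + 2 * C1 * η * ((A * θ) ^ 2 + (A * θ') ^ 2)) := by
      apply mul_le_mul_of_nonneg_left _ (by linarith)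
      linarith
    have f2 : 1 / W * (1 * 1 * ∫ x, R (A * θ / W) x * R (A * θ' / W) x * dens x) ≤
        1 / W * (1 + J * (A * θ / W * (A * θ' / W)) +
          2 * C1 * η * ((A * θ) ^ 2 + (A * θ') ^ 2)) := by
      apply mul_le_mul_of_nonneg_left _ hWi.le
      linarith
    have f3 : (1 - 1 / W) * (1 + J * (A * θ * (A * θ')) +
          2 * C1 * η * ((A * θ) ^ 2 + (A * θ') ^ 2)) +
        1 / W * (1 + J * (A * θ / W * (A * θ' / W)) +
          2 * C1 * η * ((A * θ) ^ 2 + (A * θ') ^ 2)) =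
        1 + J * ((1 - 1 / W) + 1 / W ^ 3) * (A ^ 2 * (θ * θ')) +
          2 * C1 * η * ((A * θ) ^ 2 + (A * θ') ^ 2) := by
      field_simp
      ring
    have f4 : C * η * ((A * θ) ^ 2 + (A * θ') ^ 2) = C * η * (A ^ 2 * (θ ^ 2 + θ' ^ 2)) := by ring
    linarith
  · -- large, small
    intro θ θ' hθ hθ' hs hs'
    rw [MPA_ec, MPA_fac_large hs, MPA_fac_large hs, MPA_fac_small hs', MPA_fac_small hs']
    simp only [Bool.false_eq_true, if_false, if_true]
    have e2 := cor' (A * θ / W) (A * θ' / W) (MPA_divW hA hη hη8 hW hθ)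
      (MPA_divW hA hη hη8 hW hθ')
    have q1 : (A * θ / W) ^ 2 ≤ (A * θ) ^ 2 := MPA_divsq hW1
    have q2 : (A * θ' / W) ^ 2 ≤ (A * θ') ^ 2 := MPA_divsq hW1
    have e3 : 2 * C1 * η * ((A * θ / W) ^ 2 + (A * θ' / W) ^ 2) ≤
        2 * C1 * η * ((A * θ) ^ 2 + (A * θ') ^ 2) :=
      mul_le_mul_of_nonneg_left (by linarith) (by positivity)
    have e4 : 2 * C1 * η * ((A * θ) ^ 2 + (A * θ') ^ 2) ≤
        C * η * ((A * θ) ^ 2 + (A * θ') ^ 2) :=
      mul_le_mul_of_nonneg_right hCη (by positivity)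
    have e5 : J * (A * θ / W * (A * θ' / W)) ≤ C * (A ^ 2 * |θ * θ'|) := by
      have h1 : A * θ / W * (A * θ' / W) ≤ |A * θ| * |A * θ'| := by
        calc A * θ / W * (A * θ' / W) ≤ |A * θ / W * (A * θ' / W)| := le_abs_self _
          _ = |A * θ / W| * |A * θ' / W| := abs_mul _ _
          _ ≤ |A * θ| * |A * θ'| :=
            mul_le_mul (MPA_divle hW1) (MPA_divle hW1) (abs_nonneg _) (abs_nonneg _)
      have h2 : |A * θ| * |A * θ'| = A ^ 2 * |θ * θ'| := by
        rw [abs_mul, abs_mul, abs_mul, abs_of_nonneg hA0]; ring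
      rw [h2] at h1
      calc J * (A * θ / W * (A * θ' / W)) ≤ J * (A ^ 2 * |θ * θ'|) :=
            mul_le_mul_of_nonneg_left h1 hJ
        _ ≤ C * (A ^ 2 * |θ * θ'|) := by
            apply mul_le_mul_of_nonneg_right _ (by positivity)
            linarith
    have f4 : C * η * ((A * θ) ^ 2 + (A * θ') ^ 2) = C * η * (A ^ 2 * (θ ^ 2 + θ' ^ 2)) := by ring
    have f5 : (1 - 1 / W) * (0 * 1 * ∫ x, R (A * θ) x * R (A * θ') x * dens x) +
        1 / W * (W * 1 * ∫ x, R (A * θ / W) x * R (A * θ' / W) x * dens x) =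
        ∫ x, R (A * θ / W) x * R (A * θ' / W) x * dens x := by
      field_simp
      ring
    linarith
  · -- small, the square
    intro θ hθ hs
    have h0 : ec W (fun b x => MPA_G R A η W θ b x ^ 2) =
        ec W (fun b x => MPA_G R A η W θ b x * MPA_G R A η W θ b x) := by
      congr 1
      funext b x
      ring
    rw [h0, MPA_ec, MPA_fac_small hs, MPA_fac_small hs]
    have e1 := cor' (A * θ) (A * θ) hs.le hs.le
    have e2 := cor' (A * θ / W) (A * θ / W) ((MPA_divle hW1).trans hs.le)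
      ((MPA_divle hW1).trans hs.le)
    have q1 : (A * θ / W) ^ 2 ≤ (A * θ) ^ 2 := MPA_divsq hW1
    have hq : 0 ≤ (A * θ) ^ 2 := sq_nonneg _
    have hK : 0 ≤ J + 4 * C1 * η := by positivity
    have e3 : J * (A * θ / W * (A * θ / W)) + 2 * C1 * η * ((A * θ / W) ^ 2 + (A * θ / W) ^ 2) ≤
        (J + 4 * C1 * η) * (A * θ) ^ 2 := by
      calc _ = (J + 4 * C1 * η) * (A * θ / W) ^ 2 := by ring
        _ ≤ _ := mul_le_mul_of_nonneg_left q1 hK
    have e4 : (J + 4 * C1 * η) * (A * θ) ^ 2 ≤ C * (A ^ 2 * θ ^ 2) := by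
      have : (J + 4 * C1 * η) ≤ C := by nlinarith
      calc (J + 4 * C1 * η) * (A * θ) ^ 2 ≤ C * (A * θ) ^ 2 :=
            mul_le_mul_of_nonneg_right this hq
        _ = C * (A ^ 2 * θ ^ 2) := by ring
    have f1 : (1 - 1 / W) * (1 * 1 * ∫ x, R (A * θ) x * R (A * θ) x * dens x) ≤
        (1 - 1 / W) * (1 + (J + 4 * C1 * η) * (A * θ) ^ 2) := by
      apply mul_le_mul_of_nonneg_left _ (by linarith)
      have : 1 + J * (A * θ * (A * θ)) + 2 * C1 * η * ((A * θ) ^ 2 + (A * θ) ^ 2) =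
        1 + (J + 4 * C1 * η) * (A * θ) ^ 2 := by ring
      linarith
    have f2 : 1 / W * (1 * 1 * ∫ x, R (A * θ / W) x * R (A * θ / W) x * dens x) ≤
        1 / W * (1 + (J + 4 * C1 * η) * (A * θ) ^ 2) := by
      apply mul_le_mul_of_nonneg_left _ hWi.le
      linarith
    have f3 : (1 - 1 / W) * (1 + (J + 4 * C1 * η) * (A * θ) ^ 2) +
        1 / W * (1 + (J + 4 * C1 * η) * (A * θ) ^ 2) = 1 + (J + 4 * C1 * η) * (A * θ) ^ 2 := by
      ring
    linarith
  · -- large, the square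
    intro θ hθ hs
    have h0 : ec W (fun b x => MPA_G R A η W θ b x ^ 2) =
        ec W (fun b x => MPA_G R A η W θ b x * MPA_G R A η W θ b x) := by
      congr 1
      funext b x
      ring
    rw [h0, MPA_ec, MPA_fac_large hs, MPA_fac_large hs]
    simp only [Bool.false_eq_true, if_false, if_true]
    have hd := MPA_divW hA hη hη8 hW hθ
    have e2 := cor' (A * θ / W) (A * θ / W) hd hd
    have hd1 : (A * θ / W) ^ 2 ≤ 1 := by
      have : |A * θ / W| ≤ 1 := by linarith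
      have h3 := sq_le_sq.2 (by rwa [abs_one] : |A * θ / W| ≤ |(1:ℝ)|)
      simpa using h3
    have e3 : J * (A * θ / W * (A * θ / W)) + 2 * C1 * η * ((A * θ / W) ^ 2 + (A * θ / W) ^ 2) ≤
        (J + 4 * C1 * η) * 1 := by
      calc _ = (J + 4 * C1 * η) * (A * θ / W) ^ 2 := by ring
        _ ≤ _ := mul_le_mul_of_nonneg_left hd1 (by positivity)
    have e4 : 4 * C1 * η ≤ 4 * C1 := by nlinarith
    have f5 : (1 - 1 / W) * (0 * 0 * ∫ x, R (A * θ) x * R (A * θ) x * dens x) +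
        1 / W * (W * W * ∫ x, R (A * θ / W) x * R (A * θ / W) x * dens x) =
        (∫ x, R (A * θ / W) x * R (A * θ / W) x * dens x) * W := by
      field_simp
      ring
    rw [f5]
    apply mul_le_mul_of_nonneg_right _ hWp.le
    linarith

private theorem MPA_rhk (A η W : ℝ) : MPA_G rh A η W = rhk A η W := rfl
private theorem MPA_sgk (A η W : ℝ) : MPA_G sg A η W = sgk A η W := rfl

theorem good_functions : ∃ C : ℝ, 1 ≤ C ∧ ∀ A η W : ℝ, 1 ≤ A → 0 < η → η ≤ 1 / 8 → A / η ≤ W →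
    ∃ κ : ℝ, 0 ≤ κ ∧ κ ≤ C ∧ GoodG A η W C κ (rhk A η W) ∧ GoodG A η W C 0 (sgk A η W) := by
  obtain ⟨C0, J, hC0, hJ, hcorr⟩ := corr_rh
  refine ⟨1 + J + 4 * C0 + 160, by linarith, ?_⟩
  intro A η W hA hη hη8 hW
  have hW8 : 8 ≤ W := MPA_W hA hη hη8 hW
  have hWp : 0 < W := by linarith
  have h3 : 1 / W ^ 3 ≤ 1 / W := by
    apply one_div_le_one_div_of_le hWp
    nlinarith [sq_nonneg W, mul_pos hWp hWp]
  have h1 : 1 / W ≤ 1 := by
    rw [div_le_one hWp]; linarith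
  have h4 : 0 < 1 / W ^ 3 := by positivity
  refine ⟨J * ((1 - 1 / W) + 1 / W ^ 3), ?_, ?_, ?_, ?_⟩
  · apply mul_nonneg hJ
    linarith
  · have : J * ((1 - 1 / W) + 1 / W ^ 3) ≤ J * 1 := mul_le_mul_of_nonneg_left (by linarith) hJ
    linarith
  · rw [← MPA_rhk]
    refine MPA_good rh J C0 _ hJ hC0.le (by linarith) measurable_rh rh_nonneg
      (fun δ h x => rh_le h x) (fun δ h => rh_int h) (fun δ δ' h h' => ?_) hA hη hη8 hW
    have := (abs_le.1 (hcorr δ δ' h h')).2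
    linarith
  · rw [← MPA_sgk]
    have key := MPA_good sg 0 40 (1 + J + 4 * C0 + 160) le_rfl (by norm_num) (by linarith)
      measurable_sg sg_nonneg (fun δ h x => (sg_le h x).trans (by norm_num))
      (fun δ h => sg_int h) (fun δ δ' h h' => ?_) hA hη hη8 hW
    · rwa [zero_mul] at key
    · have := sg_sg h h'
      have a1 : 0 ≤ |δ| := abs_nonneg _
      have a2 : 0 ≤ |δ'| := abs_nonneg _
      have s1 : δ ^ 2 = |δ| ^ 2 := (sq_abs δ).symm
      have s2 : δ' ^ 2 = |δ'| ^ 2 := (sq_abs δ').symm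
      rw [s1, s2]
      have h5 : |δ| ^ 3 + |δ'| ^ 3 ≤ (|δ| + |δ'|) * (|δ| ^ 2 + |δ'| ^ 2) := by
        have : 0 ≤ |δ| * |δ'| ^ 2 + |δ'| * |δ| ^ 2 := by positivity
        nlinarith
      nlinarith

end Pool.Agent.H44.MG
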