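import Pool.Agent.H44.MG.ONC

/-!
# OND : differentiability in quadratic mean

`psi x = 8 x / (1 - x²)` is minus the logarithmic derivative of `dens`; `J = ∫ psi² dens` (`= 12`).

`quad`: `R x = rh δ x - 1 - δ psi x` satisfies `∫ R² dens ≤ C δ⁴` (`|δ| ≤ 1/8`). On the set `|x - δ| ≤ 1 - 2|δ|`
(so `|x| ≤ 1 - |δ|`, `1 - x² ≥ |δ|`) put `z = (2 x δ - δ²) / (1 - x²)`, `|z| ≤ 3`; then
`rh δ x = (1 + z)⁴ / gg δ`, `|(1 + z)⁴ - 1 - 4z| ≤ 27 z²`, `4 z = δ psi x - 4 δ² / (1 - x²)`, and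
`1 / gg δ - 1 ≤ 40 |δ|³ ≤ 5 δ²`, so
`|R| ≤ 256 · 5 δ² + 27 · 5 δ² / (1 - x²)² + 4 δ² / (1 - x²) ≤ 1420 δ² / (1 - x²)²` and
`R² dens ≤ 1420² · (315/256) δ⁴`. On the rest of `(-1, 1)` we have `1 - x² ≤ 6|δ|`, `rh = 0`,
`R² dens ≤ (2 + 128 δ² / (1 - x²)²) (315/256) (1 - x²)⁴ ≤ 9000 δ⁴`.

`corr`: with `rh δ - 1 = δ psi + R`, `rh δ' - 1 = δ' psi + R'` and the means `1`:
`∫ rh δ rh δ' dens - 1 - J δ δ' = δ ∫ psi R' + δ' ∫ psi R + ∫ R R'` (all with the weight `dens`),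
and Cauchy–Schwarz.
-/

namespace Pool.Agent.H44.MG

open MeasureTheory

/-- minus the logarithmic derivative of the density -/
noncomputable def psi (x : ℝ) : ℝ := 8 * x / (1 - x ^ 2)

private theorem OND_int {g : ℝ → ℝ} (hg : Measurable g) {K : ℝ} (h1 : ∀ x, |x| < 1 → |g x| ≤ K)
    (h2 : ∀ x, 1 ≤ |x| → g x = 0) : Integrable g ∧ |∫ x, g x| ≤ 2 * K := by
  have hb : ∀ x, ‖g x‖ ≤ (Set.Ioo (-1 : ℝ) 1).indicator (fun _ => K) x := by
    intro x
    rw [Real.norm_eq_abs]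
    by_cases hx : |x| < 1
    · rw [Set.indicator_of_mem (show x ∈ Set.Ioo (-1 : ℝ) 1 from abs_lt.1 hx)]
      exact h1 x hx
    · rw [Set.indicator_of_notMem (fun h : x ∈ Set.Ioo (-1 : ℝ) 1 => hx (abs_lt.2 h)),
        h2 x (not_lt.1 hx), abs_zero]
  have hi : Integrable ((Set.Ioo (-1 : ℝ) 1).indicator (fun _ => K)) := by
    rw [integrable_indicator_iff measurableSet_Ioo]
    exact integrableOn_const (by simp) (by simp)
  refine ⟨hi.mono' hg.aestronglyMeasurable (Filter.Eventually.of_forall hb), ?_⟩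
  have h3 := norm_integral_le_of_norm_le hi (Filter.Eventually.of_forall hb)
  rw [integral_indicator measurableSet_Ioo, setIntegral_const, Real.norm_eq_abs] at h3
  refine h3.trans (le_of_eq ?_)
  simp
  norm_num

private theorem OND_meas_psi : Measurable psi := by
  unfold psi
  fun_prop

private theorem OND_meas_dens : Measurable dens := continuous_dens.measurable

private theorem OND_q {x : ℝ} (hx : |x| < 1) : 0 < 1 - x ^ 2 := by
  have h := abs_lt.1 hx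
  nlinarith

private theorem OND_psi_dens {x : ℝ} (hx : |x| < 1) : psi x ^ 2 * dens x ≤ 20 := by
  have hq := OND_q hx
  have e : psi x ^ 2 * dens x = 64 * (315 / 256) * (x ^ 2 * (1 - x ^ 2)) * (1 - x ^ 2) := by
    unfold psi dens
    rw [if_pos hx]
    field_simp
    ring
  rw [e]
  have h1 : x ^ 2 * (1 - x ^ 2) ≤ 1 / 4 := by nlinarith [sq_nonneg (x ^ 2 - 1 / 2)]
  have h2 : 1 - x ^ 2 ≤ 1 := by nlinarith [sq_nonneg x]
  have h3 : x ^ 2 * (1 - x ^ 2) * (1 - x ^ 2) ≤ 1 / 4 * 1 :=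
    mul_le_mul h1 h2 hq.le (by norm_num)
  nlinarith

private theorem OND_gg {δ : ℝ} (h : |δ| ≤ 1 / 8) : 0 ≤ 1 / gg δ - 1 ∧ 1 / gg δ - 1 ≤ 5 * δ ^ 2 := by
  have hg1 := gg_le_one δ
  have hg2 := gg_half h
  have hg3 := gg_ge h
  have hg0 : 0 < gg δ := by linarith
  constructor
  · rw [sub_nonneg, le_div_iff₀ hg0]
    linarith
  · have h3 : 1 - gg δ ≤ 5 / 2 * δ ^ 2 := by
      have : |δ| ^ 3 ≤ 1 / 8 * δ ^ 2 := by
        rw [← sq_abs δ, pow_succ, mul_comm]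
        exact mul_le_mul_of_nonneg_right h (by positivity)
      linarith
    have h4 : 1 / gg δ - 1 = (1 - gg δ) / gg δ := by field_simp
    rw [h4, div_le_iff₀ hg0]
    have h5 : 5 * δ ^ 2 * (1 / 2) ≤ 5 * δ ^ 2 * gg δ :=
      mul_le_mul_of_nonneg_left hg2 (by positivity)
    linarith

private theorem OND_pow4 {a b : ℝ} (h : |a| ≤ b) : a ^ 4 ≤ b ^ 4 := by
  have h7 := pow_le_pow_left₀ (abs_nonneg a) h 4
  have h8 : |a| ^ 4 = a ^ 4 := by
    have e1 : |a| ^ 4 = (|a| ^ 2) ^ 2 := by ring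
    rw [e1, sq_abs]; ring
  rwa [h8] at h7

/-- the main case, algebraic part -/
private theorem OND_alg {z w g u : ℝ} (hz2 : |z| ≤ 2) (hw0 : 0 ≤ w) (hzz : z ^ 2 ≤ 4 * w)
    (hg0 : 0 ≤ g) (hg : g ≤ 5 * w) (hu0 : 0 ≤ u) (hu : u ≤ w) :
    |z ^ 2 * (6 + 4 * z + z ^ 2) + (1 + z) ^ 4 * g - 4 * u| ≤ 481 * w := by
  have hzl := (abs_le.1 hz2).1
  have hzu := (abs_le.1 hz2).2
  have hE1 : |z ^ 2 * (6 + 4 * z + z ^ 2)| ≤ 72 * w := by
    rw [abs_mul, abs_of_nonneg (sq_nonneg z)]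
    have h1 : |6 + 4 * z + z ^ 2| ≤ 18 := by
      rw [abs_le]
      constructor <;> nlinarith
    have h2 := mul_le_mul hzz h1 (abs_nonneg _) (by positivity)
    linarith
  have hE2 : |(1 + z) ^ 4 * g| ≤ 405 * w := by
    have h6 : |1 + z| ≤ 3 := by
      rw [abs_le]
      constructor <;> linarith
    have h5 := OND_pow4 h6
    have h9 : 0 ≤ (1 + z) ^ 4 := by positivity
    rw [abs_of_nonneg (mul_nonneg h9 hg0)]
    have := mul_le_mul h5 hg hg0 (by norm_num)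
    linarith
  have hE3 : |4 * u| ≤ 4 * w := by
    rw [abs_of_nonneg (by positivity)]
    linarith
  have a1 := abs_sub (z ^ 2 * (6 + 4 * z + z ^ 2) + (1 + z) ^ 4 * g) (4 * u)
  have a2 := abs_add_le (z ^ 2 * (6 + 4 * z + z ^ 2)) ((1 + z) ^ 4 * g)
  linarith

/-- near the end points, algebraic part -/
private theorem OND_end {δ x q : ℝ} (hq : q = 1 - x ^ 2) (hq0 : 0 < q) (hx : |x| < 1)
    (hx1 : 1 - 3 * |δ| < |x|) :
    315 / 256 * ((q + 8 * δ * x) ^ 2 * q ^ 2) ≤ 10 ^ 6 * δ ^ 4 := by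
  have hm0 : 0 ≤ |δ| := abs_nonneg δ
  have hqm : q ≤ 6 * |δ| := by
    rw [hq, ← sq_abs x]
    nlinarith [abs_nonneg x]
  have h1 : |q + 8 * δ * x| ≤ 14 * |δ| := by
    have a1 := abs_add_le q (8 * δ * x)
    rw [abs_of_pos hq0, abs_mul, abs_mul] at a1
    have a2 : |(8 : ℝ)| = 8 := abs_of_pos (by norm_num)
    rw [a2] at a1
    have a3 : 8 * |δ| * |x| ≤ 8 * |δ| * 1 := mul_le_mul_of_nonneg_left hx.le (by positivity)
    linarith
  have h2 : (q + 8 * δ * x) ^ 2 ≤ 196 * δ ^ 2 := by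
    have := pow_le_pow_left₀ (abs_nonneg _) h1 2
    rw [sq_abs, mul_pow, sq_abs] at this
    linarith
  have h3 : q ^ 2 ≤ 36 * δ ^ 2 := by
    have := pow_le_pow_left₀ hq0.le hqm 2
    rw [mul_pow, sq_abs] at this
    linarith
  have h4 := mul_le_mul h2 h3 (by positivity) (by positivity)
  have h5 : 0 ≤ δ ^ 4 := by positivity
  have h6 : 196 * δ ^ 2 * (36 * δ ^ 2) = 7056 * δ ^ 4 := by ring
  rw [h6] at h4
  linarith

private theorem OND_pt {δ : ℝ} (h : |δ| ≤ 1 / 8) {x : ℝ} (hx : |x| < 1) :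
    (rh δ x - 1 - δ * psi x) ^ 2 * dens x ≤ 10 ^ 6 * δ ^ 4 := by
  have hm0 : 0 ≤ |δ| := abs_nonneg δ
  have hm2 : |δ| ^ 2 = δ ^ 2 := sq_abs δ
  have hm4 : |δ| ^ 4 = δ ^ 4 := by
    have : |δ| ^ 4 = (|δ| ^ 2) ^ 2 := by ring
    rw [this, hm2]; ring
  have hx2 : |x| ^ 2 = x ^ 2 := sq_abs x
  have hax := abs_nonneg x
  have hq0 := OND_q hx
  have hdx : dens x = 315 / 256 * (1 - x ^ 2) ^ 4 := by unfold dens; rw [if_pos hx]
  obtain ⟨q, hq⟩ : ∃ q, q = 1 - x ^ 2 := ⟨_, rfl⟩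
  rw [← hq] at hq0 hdx
  have hq1 : q ≤ 1 := by rw [hq]; nlinarith [sq_nonneg x]
  have hpsi : psi x = 8 * x / q := by unfold psi; rw [hq]
  rw [hdx]
  by_cases hc : |x - δ| ≤ 1 - 2 * |δ|
  · -- the main case
    have hx1 : |x| ≤ 1 - |δ| := by
      have := abs_sub_abs_le_abs_sub x δ
      linarith
    have hmq : |δ| ≤ q := by
      have h1 := mul_nonneg hax (sub_nonneg.2 (le_trans hx1 (by linarith : 1 - |δ| ≤ 1)))
      have h2 : |x| * (1 - |x|) = |x| - |x| ^ 2 := by ring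
      rw [h2, hx2] at h1
      rw [hq]
      linarith
    have hxd : |x - δ| < 1 := by
      rcases hm0.eq_or_lt with h0 | h0
      · have : δ = 0 := abs_eq_zero.1 h0.symm
        rw [this, sub_zero]
        exact hx
      · linarith
    obtain ⟨z, hz⟩ : ∃ z, z = (2 * x * δ - δ ^ 2) / q := ⟨_, rfl⟩
    have hs : |2 * x * δ - δ ^ 2| ≤ 2 * |δ| := by
      have e : 2 * x * δ - δ ^ 2 = δ * (2 * x - δ) := by ring
      rw [e, abs_mul]
      have h1 : |2 * x - δ| ≤ 2 := by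
        have h2 : |2 * x - δ| ≤ |2 * x| + |δ| := abs_sub _ _
        rw [abs_mul, abs_two] at h2
        linarith
      calc |δ| * |2 * x - δ| ≤ |δ| * 2 := mul_le_mul_of_nonneg_left h1 hm0
        _ = 2 * |δ| := by ring
    have hzq : |z| ≤ 2 * (|δ| / q) := by
      rw [hz, abs_div, abs_of_pos hq0, ← mul_div_assoc]
      exact div_le_div_of_nonneg_right hs hq0.le
    have hdq : |δ| / q ≤ 1 := (div_le_one hq0).2 hmq
    have hdq0 : 0 ≤ |δ| / q := div_nonneg hm0 hq0.le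
    have hz2 : |z| ≤ 2 := by linarith
    obtain ⟨w, hw⟩ : ∃ w, w = δ ^ 2 / q ^ 2 := ⟨_, rfl⟩
    have hw0 : 0 ≤ w := by rw [hw]; positivity
    have hww : w = (|δ| / q) ^ 2 := by rw [hw, div_pow, hm2]
    have hzz : z ^ 2 ≤ 4 * w := by
      rw [hww, ← sq_abs z]
      have := pow_le_pow_left₀ (abs_nonneg z) hzq 2
      rw [mul_pow] at this
      linarith
    have hdw : δ ^ 2 ≤ w := by
      rw [hw, le_div_iff₀ (by positivity)]
      exact mul_le_of_le_one_right (sq_nonneg δ) (pow_le_one₀ hq0.le hq1)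
    have hdw1 : δ ^ 2 / q ≤ w := by
      have : q ^ 2 ≤ q := by
        rw [sq]
        exact mul_le_of_le_one_left hq0.le hq1
      rw [hw]
      exact div_le_div_of_nonneg_left (sq_nonneg δ) (by positivity) this
    -- the value of `rh`
    have hg2 := gg_half h
    have hg0 : gg δ ≠ 0 := by
      intro h0
      rw [h0] at hg2
      norm_num at hg2
    have hyz : 1 - (x - δ) ^ 2 = q * (1 + z) := by
      have e1 : q * (1 + z) = q + (2 * x * δ - δ ^ 2) := by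
        rw [hz]
        field_simp
      rw [e1, hq]
      ring
    have hrh : rh δ x = (1 + z) ^ 4 / gg δ := by
      unfold rh
      rw [if_pos hc, hdx]
      unfold dens
      rw [if_pos hxd, hyz]
      field_simp
    have hE : rh δ x - 1 - δ * psi x = z ^ 2 * (6 + 4 * z + z ^ 2) +
        (1 + z) ^ 4 * (1 / gg δ - 1) - 4 * (δ ^ 2 / q) := by
      have h1 : δ * psi x = 4 * z + 4 * (δ ^ 2 / q) := by
        rw [hpsi, hz]
        field_simp
        ring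
      rw [hrh, h1]
      ring
    obtain ⟨hG0, hG1⟩ := OND_gg h
    have hR : |rh δ x - 1 - δ * psi x| ≤ 481 * w := by
      rw [hE]
      exact OND_alg hz2 hw0 hzz hG0 (by linarith) (by positivity) hdw1
    have hR2 : (rh δ x - 1 - δ * psi x) ^ 2 ≤ 481 ^ 2 * w ^ 2 := by
      rw [← sq_abs]
      have := pow_le_pow_left₀ (abs_nonneg _) hR 2
      linarith [mul_pow (481 : ℝ) w 2]
    have hw4 : w ^ 2 * q ^ 4 = δ ^ 4 := by
      rw [hw]
      field_simp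
    have hq4 : 0 ≤ 315 / 256 * q ^ 4 := by positivity
    calc (rh δ x - 1 - δ * psi x) ^ 2 * (315 / 256 * q ^ 4)
        ≤ 481 ^ 2 * w ^ 2 * (315 / 256 * q ^ 4) := mul_le_mul_of_nonneg_right hR2 hq4
      _ = 481 ^ 2 * (315 / 256) * (w ^ 2 * q ^ 4) := by ring
      _ = 481 ^ 2 * (315 / 256) * δ ^ 4 := by rw [hw4]
      _ ≤ 10 ^ 6 * δ ^ 4 := by
        have : 0 ≤ δ ^ 4 := by positivity
        linarith
  · -- near the end points
    have hrh : rh δ x = 0 := by unfold rh; rw [if_neg hc]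
    push Not at hc
    have hx1 : 1 - 3 * |δ| < |x| := by
      have := abs_sub x δ
      linarith
    have e : (rh δ x - 1 - δ * psi x) ^ 2 * (315 / 256 * q ^ 4) =
        315 / 256 * ((q + 8 * δ * x) ^ 2 * q ^ 2) := by
      rw [hrh, hpsi]
      field_simp
      ring
    rw [e]
    exact OND_end hq hq0 hx hx1

private theorem OND_abs {a b : ℝ} (hb : 0 ≤ b) (h : a ^ 2 ≤ b ^ 2) : |a| ≤ b :=
  abs_le_of_sq_le_sq h hb

theorem psi_sq : Integrable (fun x => psi x ^ 2 * dens x) ∧ ∫ x, psi x ^ 2 * dens x ≤ 40 := by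
  have h := OND_int (g := fun x => psi x ^ 2 * dens x) (K := 20)
    ((OND_meas_psi.pow_const 2).mul OND_meas_dens) (fun x hx => by
      rw [abs_of_nonneg (mul_nonneg (sq_nonneg _) (dens_nonneg x))]
      exact OND_psi_dens hx) (fun x hx => by simp [dens_zero hx])
  exact ⟨h.1, (le_abs_self _).trans (h.2.trans (by norm_num))⟩

private theorem OND_measR (δ : ℝ) : Measurable (fun x => rh δ x - 1 - δ * psi x) :=
  ((measurable_rh δ).sub_const 1).sub (OND_meas_psi.const_mul δ)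

theorem quad {δ : ℝ} (h : |δ| ≤ 1 / 8) :
    Integrable (fun x => (rh δ x - 1 - δ * psi x) ^ 2 * dens x) ∧
      ∫ x, (rh δ x - 1 - δ * psi x) ^ 2 * dens x ≤ 10 ^ 7 * δ ^ 4 := by
  have h1 := OND_int (g := fun x => (rh δ x - 1 - δ * psi x) ^ 2 * dens x) (K := 10 ^ 6 * δ ^ 4)
    (((OND_measR δ).pow_const 2).mul OND_meas_dens) (fun x hx => by
      rw [abs_of_nonneg (mul_nonneg (sq_nonneg _) (dens_nonneg x))]
      exact OND_pt h hx) (fun x hx => by simp [dens_zero hx])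
  refine ⟨h1.1, (le_abs_self _).trans (h1.2.trans ?_)⟩
  have : 0 ≤ δ ^ 4 := by positivity
  linarith

private theorem OND_psiR {δ : ℝ} (h : |δ| ≤ 1 / 8) :
    Integrable (fun x => psi x * (rh δ x - 1 - δ * psi x) * dens x) ∧
      |∫ x, psi x * (rh δ x - 1 - δ * psi x) * dens x| ≤ 10 ^ 4 * δ ^ 2 := by
  have h1 := OND_int (g := fun x => psi x * (rh δ x - 1 - δ * psi x) * dens x)
    (K := 5 * 10 ^ 3 * δ ^ 2)
    ((OND_meas_psi.mul (OND_measR δ)).mul OND_meas_dens) (fun x hx => by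
      refine OND_abs (by positivity) ?_
      have e : (psi x * (rh δ x - 1 - δ * psi x) * dens x) ^ 2 =
        (psi x ^ 2 * dens x) * ((rh δ x - 1 - δ * psi x) ^ 2 * dens x) := by ring
      rw [e]
      have h2 := mul_le_mul (OND_psi_dens hx) (OND_pt h hx)
        (mul_nonneg (sq_nonneg _) (dens_nonneg x)) (by norm_num)
      have : 0 ≤ δ ^ 4 := by positivity
      nlinarith) (fun x hx => by simp [dens_zero hx])
  refine ⟨h1.1, h1.2.trans (le_of_eq ?_)⟩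
  ring

private theorem OND_RR {δ δ' : ℝ} (h : |δ| ≤ 1 / 8) (h' : |δ'| ≤ 1 / 8) :
    Integrable (fun x => (rh δ x - 1 - δ * psi x) * (rh δ' x - 1 - δ' * psi x) * dens x) ∧
      |∫ x, (rh δ x - 1 - δ * psi x) * (rh δ' x - 1 - δ' * psi x) * dens x| ≤
        2 * (10 ^ 6 * (δ ^ 2 * δ' ^ 2)) := by
  refine OND_int (g := fun x => (rh δ x - 1 - δ * psi x) * (rh δ' x - 1 - δ' * psi x) * dens x)
    (((OND_measR δ).mul (OND_measR δ')).mul OND_meas_dens) (fun x hx => by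
      refine OND_abs (by positivity) ?_
      have e : ((rh δ x - 1 - δ * psi x) * (rh δ' x - 1 - δ' * psi x) * dens x) ^ 2 =
        ((rh δ x - 1 - δ * psi x) ^ 2 * dens x) * ((rh δ' x - 1 - δ' * psi x) ^ 2 * dens x) := by
        ring
      rw [e]
      have h2 := mul_le_mul (OND_pt h hx) (OND_pt h' hx)
        (mul_nonneg (sq_nonneg _) (dens_nonneg x)) (by positivity)
      refine h2.trans (le_of_eq ?_)
      ring) (fun x hx => by simp [dens_zero hx])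

private theorem OND_rhd {δ : ℝ} (h : |δ| ≤ 1 / 8) : Integrable (fun x => rh δ x * dens x) :=
  (OND_int (g := fun x => rh δ x * dens x) (K := 400) ((measurable_rh δ).mul OND_meas_dens)
    (fun x _ => by
      rw [abs_of_nonneg (mul_nonneg (rh_nonneg δ x) (dens_nonneg x))]
      have := mul_le_mul (rh_le h x) (dens_le x) (dens_nonneg x) (by norm_num)
      linarith) (fun x hx => by simp [dens_zero hx])).1

private theorem OND_split {δ δ' : ℝ} (h : |δ| ≤ 1 / 8) (h' : |δ'| ≤ 1 / 8) :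
    ∫ x, rh δ x * rh δ' x * dens x =
      (δ * δ') * (∫ x, psi x ^ 2 * dens x) +
      (δ * (∫ x, psi x * (rh δ' x - 1 - δ' * psi x) * dens x) +
      (δ' * (∫ x, psi x * (rh δ x - 1 - δ * psi x) * dens x) +
      ((∫ x, (rh δ x - 1 - δ * psi x) * (rh δ' x - 1 - δ' * psi x) * dens x) +
      ((∫ x, rh δ x * dens x) + ((∫ x, rh δ' x * dens x) - ∫ x, dens x))))) := by
  obtain ⟨i1, b1⟩ := OND_psiR h
  obtain ⟨i2, b2⟩ := OND_psiR h'
  obtain ⟨i3, b3⟩ := OND_RR h h'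
  have i4 := OND_rhd h
  have i5 := OND_rhd h'
  have i6 := psi_sq.1
  have i7 := integrable_dens
  have j5 := i5.sub i7
  have j4 := i4.add j5
  have j3 := i3.add j4
  have j2 := (i1.const_mul δ').add j3
  have j1 := (i2.const_mul δ).add j2
  have e5 := integral_sub i5 i7
  have e4 := integral_add i4 j5
  have e3 := integral_add i3 j4
  have e2 := integral_add (i1.const_mul δ') j3
  have e1 := integral_add (i2.const_mul δ) j2
  have e0 := integral_add (i6.const_mul (δ * δ')) j1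
  simp only [Pi.add_apply, Pi.sub_apply] at e0 e1 e2 e3 e4 e5
  rw [integral_const_mul] at e0 e1 e2
  rw [← e5, ← e4, ← e3, ← e2, ← e1, ← e0]
  refine integral_congr_ae (Filter.Eventually.of_forall fun x => ?_)
  beta_reduce
  ring

theorem corr_rh : ∃ C0 J : ℝ, 0 < C0 ∧ 0 ≤ J ∧ ∀ δ δ' : ℝ, |δ| ≤ 1 / 8 → |δ'| ≤ 1 / 8 →
    |(∫ x, rh δ x * rh δ' x * dens x) - 1 - J * (δ * δ')| ≤
      C0 * (|δ| + |δ'|) * (δ ^ 2 + δ' ^ 2) := by
  refine ⟨3 * 10 ^ 6, ∫ x, psi x ^ 2 * dens x, by norm_num,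
    integral_nonneg fun x => mul_nonneg (sq_nonneg _) (dens_nonneg x), ?_⟩
  intro δ δ' h h'
  obtain ⟨i1, b1⟩ := OND_psiR h
  obtain ⟨i2, b2⟩ := OND_psiR h'
  obtain ⟨i3, b3⟩ := OND_RR h h'
  rw [OND_split h h', rh_int h, rh_int h', integral_dens]
  generalize (∫ x, psi x ^ 2 * dens x) = J
  generalize (∫ x, psi x * (rh δ' x - 1 - δ' * psi x) * dens x) = X at *
  generalize (∫ x, psi x * (rh δ x - 1 - δ * psi x) * dens x) = Y at *
  generalize (∫ x, (rh δ x - 1 - δ * psi x) * (rh δ' x - 1 - δ' * psi x) * dens x) = Z at *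
  have e2 : δ * δ' * J + (δ * X + (δ' * Y + (Z + (1 + (1 - 1))))) - 1 - J * (δ * δ') =
      δ * X + δ' * Y + Z := by ring
  rw [e2]
  have a1 := abs_add_le (δ * X + δ' * Y) Z
  have a2 := abs_add_le (δ * X) (δ' * Y)
  rw [abs_mul δ, abs_mul δ'] at a2
  have c1 := mul_le_mul_of_nonneg_left b2 (abs_nonneg δ)
  have c2 := mul_le_mul_of_nonneg_left b1 (abs_nonneg δ')
  have p1 : 0 ≤ |δ| := abs_nonneg δ
  have p2 : 0 ≤ |δ'| := abs_nonneg δ'
  have q1 : δ ^ 2 ≤ |δ| := by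
    rw [← sq_abs, sq]
    exact mul_le_of_le_one_left p1 (by linarith)
  have c3 : δ ^ 2 * δ' ^ 2 ≤ |δ| * δ' ^ 2 := mul_le_mul_of_nonneg_right q1 (sq_nonneg _)
  have c4 : 0 ≤ |δ| * δ ^ 2 := by positivity
  have c5 : 0 ≤ |δ'| * δ' ^ 2 := by positivity
  have c6 : 0 ≤ |δ| * δ' ^ 2 := by positivity
  have c7 : 0 ≤ |δ'| * δ ^ 2 := by positivity
  have e3 : 3 * 10 ^ 6 * (|δ| + |δ'|) * (δ ^ 2 + δ' ^ 2) =
    3 * 10 ^ 6 * (|δ| * δ ^ 2) + 3 * 10 ^ 6 * (|δ| * δ' ^ 2) + 3 * 10 ^ 6 * (|δ'| * δ ^ 2) +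
      3 * 10 ^ 6 * (|δ'| * δ' ^ 2) := by ring
  have c1' : |δ| * |X| ≤ 10 ^ 4 * (|δ| * δ' ^ 2) := by linarith
  have c2' : |δ'| * |Y| ≤ 10 ^ 4 * (|δ'| * δ ^ 2) := by linarith
  rw [e3]
  linarith

end Pool.Agent.H44.MG
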