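import Pool.Agent.H44.MG.Defs

/-!
# PTM : elementary facts on the matrix and the test points of a system

`pt_mem`: `pt = (1 - ∑ w) c0 + ∑ k ((w k + ξ k) / 2) f k + ((w k - ξ k) / 2) g k` is a convex combination.
-/

namespace Pool.Agent.H44.MG

open MeasureTheory ENNReal

variable {X Y : Type*} [NormedAddCommGroup X] [NormedSpace ℝ X]
  [NormedAddCommGroup Y] [NormedSpace ℝ Y] {S : X →L[ℝ] Y} {F : Set X} {D : ℕ} {d : ℝ}

/-- lower triangular with diagonal `d` -/
theorem Sys.det_mat (s : Sys S F D d) : s.mat.det = d ^ D := by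
  have h : s.mat.IsLowerTriangular := fun i j hij => s.tri i j hij
  rw [Matrix.det_of_isLowerTriangular _ h]
  calc ∏ i, s.mat i i = ∏ _i : Fin D, d := Finset.prod_congr rfl fun k _ => s.diag k
    _ = d ^ D := by simp

theorem Sys.abs_mat_le (s : Sys S F D d) (i k : Fin D) : |s.mat i k| ≤ d := by
  have h1 : |s.y i (S (s.f k - s.g k))| ≤ ‖s.y i‖ * ‖S (s.f k - s.g k)‖ := (s.y i).le_opNorm _
  have h2 : ‖s.y i‖ * ‖S (s.f k - s.g k)‖ ≤ 1 * d :=
    mul_le_mul (s.hy i) (s.bd k) (norm_nonneg _) zero_le_one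
  calc |s.mat i k| = |s.y i (S (s.f k - s.g k))| := rfl
    _ ≤ d := by linarith

theorem Sys.pt_mem (s : Sys S F D d) (hF : Convex ℝ F) {c0 : X} (hc : c0 ∈ F)
    {w ξ : Fin D → ℝ} (hw : ∑ k, w k ≤ 1) (hξ : ∀ k, |ξ k| ≤ w k) : s.pt c0 w ξ ∈ F := by
  set wt : Option (Fin D × Bool) → ℝ := fun o => match o with
    | none => 1 - ∑ k, w k
    | some (k, true) => (w k + ξ k) / 2
    | some (k, false) => (w k - ξ k) / 2 with hwt
  set z : Option (Fin D × Bool) → X := fun o => match o with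
    | none => c0
    | some (k, true) => s.f k
    | some (k, false) => s.g k with hz
  have h := hF.sum_mem (t := Finset.univ) (w := wt) (z := z) ?_ ?_ ?_
  · convert h using 1
    rw [Fintype.sum_option, Fintype.sum_prod_type]
    simp only [Fintype.sum_bool, hwt, hz, Sys.pt]
    rw [add_assoc, ← Finset.sum_add_distrib]
    congr 1
    refine Finset.sum_congr rfl fun k _ => ?_
    module
  · rintro (_ | ⟨k, _ | _⟩) _
    · simp only [hwt]
      linarith
    · have := abs_le.1 (hξ k)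
      simp only [hwt]
      linarith
    · have := abs_le.1 (hξ k)
      simp only [hwt]
      linarith
  · rw [Fintype.sum_option, Fintype.sum_prod_type]
    simp only [Fintype.sum_bool, hwt]
    have : ∀ k, (w k + ξ k) / 2 + (w k - ξ k) / 2 = w k := fun k => by ring
    simp only [this]
    ring
  · rintro (_ | ⟨k, _ | _⟩) _
    · exact hc
    · exact s.hg k
    · exact s.hf k

theorem Sys.continuous_pt (s : Sys S F D d) (c0 : X) (w : Fin D → ℝ) :
    Continuous fun ξ : Fin D → ℝ => s.pt c0 w ξ := by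
  unfold Sys.pt
  fun_prop

private theorem PTM_pt_add (s : Sys S F D d) (c0 : X) (w ξ v : Fin D → ℝ) :
    s.pt c0 w (ξ + v) = s.pt c0 w ξ + ∑ k, (v k / 2) • (s.f k - s.g k) := by
  unfold Sys.pt
  rw [add_assoc _ _ (∑ k, (v k / 2) • (s.f k - s.g k)), ← Finset.sum_add_distrib]
  congr 1
  refine Finset.sum_congr rfl fun k _ => ?_
  rw [Pi.add_apply]
  module

/-- the values of `y i ∘ S` under a change of `ξ` -/
theorem Sys.val_add (s : Sys S F D d) (c0 : X) (w ξ v : Fin D → ℝ) (i : Fin D) :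
    s.y i (S (s.pt c0 w (ξ + v))) = s.y i (S (s.pt c0 w ξ)) + (∑ k, s.mat i k * v k) / 2 := by
  rw [PTM_pt_add, map_add, map_add, map_sum, map_sum, Finset.sum_div]
  congr 1
  refine Finset.sum_congr rfl fun k _ => ?_
  rw [map_smul, map_smul, Sys.mat, Matrix.of_apply, smul_eq_mul]
  ring

/-- the values of a functional under a change of `ξ` -/
theorem Sys.info_add (s : Sys S F D d) (c0 : X) (w ξ v : Fin D → ℝ) (N : X →L[ℝ] ℝ) :
    N (s.pt c0 w (ξ + v)) = N (s.pt c0 w ξ) + (∑ k, N (s.f k - s.g k) * v k) / 2 := by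
  rw [PTM_pt_add, map_add, map_sum, Finset.sum_div]
  congr 1
  refine Finset.sum_congr rfl fun k _ => ?_
  rw [map_smul, smul_eq_mul]
  ring

/-- If the information does not change then the sum of the two errors is at least the difference of
the two values of `y i ∘ S`. -/
theorem Sys.two_err (s : Sys S F D d) (c0 : X) (w ξ v : Fin D → ℝ) (i : Fin D) {m : ℕ}
    (N : Fin m → (X →L[ℝ] ℝ)) (φ : (Fin m → ℝ) → Y)
    (hN : ∀ j, ∑ k, N j (s.f k - s.g k) * v k = 0) :
    |∑ k, s.mat i k * v k| / 2 ≤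
      ‖S (s.pt c0 w ξ) - φ (fun j => N j (s.pt c0 w ξ))‖ +
      ‖S (s.pt c0 w (ξ + v)) - φ (fun j => N j (s.pt c0 w (ξ + v)))‖ := by
  have h1 : (fun j => N j (s.pt c0 w (ξ + v))) = fun j => N j (s.pt c0 w ξ) := by
    funext j
    rw [s.info_add, hN, zero_div, add_zero]
  rw [h1]
  set a := φ (fun j => N j (s.pt c0 w ξ)) with ha
  have h2 : (∑ k, s.mat i k * v k) / 2 = s.y i (S (s.pt c0 w (ξ + v)) - S (s.pt c0 w ξ)) := by
    rw [map_sub, s.val_add]
    ring
  have h3 : |s.y i (S (s.pt c0 w (ξ + v)) - S (s.pt c0 w ξ))| ≤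
      ‖s.y i‖ * ‖S (s.pt c0 w (ξ + v)) - S (s.pt c0 w ξ)‖ := (s.y i).le_opNorm _
  have h4 : ‖s.y i‖ * ‖S (s.pt c0 w (ξ + v)) - S (s.pt c0 w ξ)‖ ≤
      1 * ‖S (s.pt c0 w (ξ + v)) - S (s.pt c0 w ξ)‖ :=
    mul_le_mul_of_nonneg_right (s.hy i) (norm_nonneg _)
  have h5 : ‖S (s.pt c0 w (ξ + v)) - S (s.pt c0 w ξ)‖ ≤
      ‖S (s.pt c0 w (ξ + v)) - a‖ + ‖S (s.pt c0 w ξ) - a‖ := by
    rw [← norm_sub_rev a (S (s.pt c0 w ξ))]
    exact norm_sub_le_norm_sub_add_norm_sub _ _ _
  rw [← abs_two (α := ℝ), ← abs_div, h2]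
  linarith

theorem abs_clip_le (x : ℝ) : |clip x| ≤ 1 := by
  rw [clip, abs_le]
  exact ⟨le_max_left _ _, max_le (by norm_num) (min_le_left _ _)⟩

theorem clip_of_abs_le {x : ℝ} (h : |x| ≤ 1) : clip x = x := by
  rw [abs_le] at h
  rw [clip, min_eq_right h.2, max_eq_right h.1]

theorem continuous_clip : Continuous clip := by
  unfold clip
  fun_prop

end Pool.Agent.H44.MG
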