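import Pool.Agent.H44.MG.Defs

/-!
# SPC : singular values

Spectral theorem for the symmetric matrix `Tᵀ T` with decreasing eigenvalues
(`LinearMap.IsSymmetric.eigenvectorBasis`, `LinearMap.IsSymmetric.eigenvalues` are sorted, or
`Matrix.IsHermitian.eigenvalues₀`). `Spec T b lam` collects the facts that are used.
-/

namespace Pool.Agent.H44.MG

open Module

private theorem SPC_inner_row {D : ℕ} (T : Matrix (Fin D) (Fin D) ℝ) (i : Fin D)
    (x : EuclideanSpace ℝ (Fin D)) : inner ℝ (row T i) x = (T.mulVec x.ofLp) i := by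
  simp [row, Matrix.mulVec, dotProduct, PiLp.inner_apply, mul_comm]

private theorem SPC_quad {D : ℕ} (T : Matrix (Fin D) (Fin D) ℝ)
    (x : EuclideanSpace ℝ (Fin D)) :
    ∑ i, inner ℝ (row T i) x ^ 2
      = inner ℝ x (Matrix.toEuclideanLin (T.transpose * T) x) := by
  have h1 : inner ℝ x (Matrix.toEuclideanLin (T.transpose * T) x)
      = dotProduct (T.mulVec x.ofLp) (T.mulVec x.ofLp) := by
    have h2 : inner ℝ x (Matrix.toEuclideanLin (T.transpose * T) x)
        = dotProduct x.ofLp ((T.transpose * T).mulVec x.ofLp) := by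
      rw [PiLp.inner_apply, Matrix.toLpLin_apply]
      simp only [RCLike.inner_apply, conj_trivial, dotProduct]
      exact Finset.sum_congr rfl fun i _ => mul_comm _ _
    rw [h2, ← Matrix.mulVec_mulVec, Matrix.dotProduct_mulVec, Matrix.vecMul_transpose]
  rw [h1, dotProduct]
  refine Finset.sum_congr rfl fun i _ => ?_
  rw [SPC_inner_row]; ring

private theorem SPC_eig {D : ℕ} (b : OrthonormalBasis (Fin D) ℝ (EuclideanSpace ℝ (Fin D)))
    (L : EuclideanSpace ℝ (Fin D) →ₗ[ℝ] EuclideanSpace ℝ (Fin D)) (lam : Fin D → ℝ)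
    (hL : ∀ x i, b.repr (L x) i = lam i * b.repr x i) (x : EuclideanSpace ℝ (Fin D)) :
    inner ℝ x (L x) = ∑ k, lam k * inner ℝ (b k) x ^ 2 := by
  rw [← b.sum_inner_mul_inner x (L x)]
  refine Finset.sum_congr rfl fun k _ => ?_
  have := hL x k
  rw [OrthonormalBasis.repr_apply_apply, OrthonormalBasis.repr_apply_apply] at this
  rw [this, real_inner_comm]
  ring

private theorem SPC_single {D : ℕ} {T : Matrix (Fin D) (Fin D) ℝ}
    {b : OrthonormalBasis (Fin D) ℝ (EuclideanSpace ℝ (Fin D))} {lam : Fin D → ℝ}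
    (h : ∀ x : EuclideanSpace ℝ (Fin D),
      ∑ i, inner ℝ (row T i) x ^ 2 = ∑ k, lam k * inner ℝ (b k) x ^ 2) (k : Fin D) :
    ∑ i, inner ℝ (row T i) (b k) ^ 2 = lam k := by
  rw [h (b k), Finset.sum_eq_single k]
  · simp
  · intro j _ hj
    rw [orthonormal_iff_ite.1 b.orthonormal j k, if_neg hj]; simp
  · intro hk; exact absurd (Finset.mem_univ k) hk

/-- `b` is an orthonormal basis of right singular vectors of `T`, `lam` are the squares of the
singular values in decreasing order. -/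
structure Spec {D : ℕ} (T : Matrix (Fin D) (Fin D) ℝ)
    (b : OrthonormalBasis (Fin D) ℝ (EuclideanSpace ℝ (Fin D))) (lam : Fin D → ℝ) : Prop where
  anti : Antitone lam
  nonneg : ∀ k, 0 ≤ lam k
  sq : ∀ x : EuclideanSpace ℝ (Fin D),
    ∑ i, inner ℝ (row T i) x ^ 2 = ∑ k, lam k * inner ℝ (b k) x ^ 2
  det : T.det ^ 2 = ∏ k, lam k

theorem exists_spec {D : ℕ} (T : Matrix (Fin D) (Fin D) ℝ) :
    ∃ (b : OrthonormalBasis (Fin D) ℝ (EuclideanSpace ℝ (Fin D))) (lam : Fin D → ℝ),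
      Spec T b lam := by
  classical
  have hn : finrank ℝ (EuclideanSpace ℝ (Fin D)) = D := by simp
  have hH : (T.transpose * T).IsHermitian := by
    have := Matrix.isHermitian_conjTranspose_mul_self T
    rwa [Matrix.conjTranspose_eq_transpose_of_trivial] at this
  have hS : (Matrix.toEuclideanLin (T.transpose * T)).IsSymmetric :=
    Matrix.isSymmetric_toEuclideanLin_iff.2 hH
  have hsq : ∀ x : EuclideanSpace ℝ (Fin D),
      ∑ i, inner ℝ (row T i) x ^ 2
        = ∑ k, hS.eigenvalues hn k * inner ℝ (hS.eigenvectorBasis hn k) x ^ 2 := by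
    intro x
    rw [SPC_quad]
    exact SPC_eig _ _ _ (fun x i => hS.eigenvectorBasis_apply_self_apply hn x i) x
  refine ⟨hS.eigenvectorBasis hn, hS.eigenvalues hn, hS.eigenvalues_antitone hn, ?_, hsq, ?_⟩
  · intro k
    rw [← SPC_single hsq k]
    exact Finset.sum_nonneg fun i _ => sq_nonneg _
  · have h1 := hS.det_eq_prod_eigenvalues hn
    have h2 : LinearMap.det (Matrix.toEuclideanLin (T.transpose * T)) = T.det ^ 2 := by
      rw [Matrix.toEuclideanLin_eq_toLin_orthonormal, LinearMap.det_toLin, Matrix.det_mul,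
        Matrix.det_transpose, sq]
    rw [← h2, h1]; rfl

/-- `lam k ≤ ∑ lam = ∑ i ‖row T i‖²` (apply `sq` to `x = b k`). -/
theorem Spec.le_sq {D : ℕ} {T : Matrix (Fin D) (Fin D) ℝ}
    {b : OrthonormalBasis (Fin D) ℝ (EuclideanSpace ℝ (Fin D))} {lam : Fin D → ℝ}
    (h : Spec T b lam) {d : ℝ} (hd : ∀ i k, |T i k| ≤ d) (k : Fin D) :
    lam k ≤ (D * d) ^ 2 := by
  rw [← SPC_single h.sq k]
  have h1 : ∀ i, inner ℝ (row T i) (b k) ^ 2 ≤ D * d ^ 2 := by
    intro i
    have h2 : |inner ℝ (row T i) (b k)| ≤ ‖row T i‖ * ‖b k‖ := abs_real_inner_le_norm _ _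
    rw [b.orthonormal.1 k, mul_one] at h2
    have h3 : ‖row T i‖ ^ 2 ≤ D * d ^ 2 := by
      rw [EuclideanSpace.norm_sq_eq]
      calc ∑ j, ‖(row T i).ofLp j‖ ^ 2 ≤ ∑ _j : Fin D, d ^ 2 := by
            refine Finset.sum_le_sum fun j _ => ?_
            have : ‖(row T i).ofLp j‖ ≤ d := by
              simpa [row] using hd i j
            exact pow_le_pow_left₀ (norm_nonneg _) this 2
        _ = D * d ^ 2 := by simp
    calc inner ℝ (row T i) (b k) ^ 2 = |inner ℝ (row T i) (b k)| ^ 2 := (sq_abs _).symm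
      _ ≤ ‖row T i‖ ^ 2 := pow_le_pow_left₀ (abs_nonneg _) h2 2
      _ ≤ _ := h3
  calc ∑ i, inner ℝ (row T i) (b k) ^ 2 ≤ ∑ _i : Fin D, (D : ℝ) * d ^ 2 :=
        Finset.sum_le_sum fun i _ => h1 i
    _ = (D * d) ^ 2 := by simp; ring

end Pool.Agent.H44.MG
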