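import Pool.Agent.H44.MG.Defs

/-!
# SYS : existence of triangular systems

`eDet` is antitone (`eDet_anti`: use the additional functionals `0`, or ignore values).

`exists_pair`: let `L` be `n` functionals with `ENNReal.ofReal d < eDet S F n`. For `φ z = S (f_z)`, where
`f_z ∈ F` is chosen with `L f_z = z` if such a point exists, the worst case error of `(L, φ)` is
`> d`, so there is `f ∈ F` with `‖S f - S f_z‖ > d`, `z = L f`. Replace `g = f_z` by
`f + t (g - f)`, `t = d / ‖S (f - g)‖` (convexity).

`exists_sys`: build the system by induction on its length `j ≤ D`; in the step from `j` to `j + 1`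
(`j ≤ D - 1`) apply `exists_pair` to the functionals `y i ∘ S`, `i < j`, and let `y j` be a norming
functional of `S (f - g)` (`exists_dual_vector`).
-/

namespace Pool.Agent.H44.MG

open MeasureTheory ENNReal

variable {X Y : Type*} [NormedAddCommGroup X] [NormedSpace ℝ X]
  [NormedAddCommGroup Y] [NormedSpace ℝ Y] {S : X →L[ℝ] Y} {F : Set X}

theorem eDet_anti {m n : ℕ} (h : m ≤ n) : eDet S F n ≤ eDet S F m := by
  refine le_iInf₂ fun L φ => ?_
  refine iInf₂_le_of_le (fun i : Fin n => if hi : i.1 < m then L ⟨i.1, hi⟩ else 0)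
    (fun v => φ (fun i => v (Fin.castLE h i))) ?_
  apply le_of_eq
  have key : ∀ f : X, (fun i : Fin m => (if hi : ((Fin.castLE h i : Fin n) : ℕ) < m then
      L ⟨((Fin.castLE h i : Fin n) : ℕ), hi⟩ else 0) f) = fun i => L i f := by
    intro f
    funext i
    simp
  simp only [key]

theorem exists_pair (hF : Convex ℝ F) {n : ℕ} (L : Fin n → (X →L[ℝ] ℝ)) {d : ℝ} (hd : 0 < d)
    (h : ENNReal.ofReal d < eDet S F n) :
    ∃ f ∈ F, ∃ g ∈ F, (∀ i, L i f = L i g) ∧ ‖S (f - g)‖ = d := by
  classical
  set φ : (Fin n → ℝ) → Y := fun z =>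
    if hz : ∃ f ∈ F, (fun i => L i f) = z then S hz.choose else 0 with hφ
  have h1 : ENNReal.ofReal d < ⨆ f ∈ F, ‖S f - φ (fun i => L i f)‖ₑ := by
    refine lt_of_lt_of_le h ?_
    unfold eDet
    exact iInf_le_of_le L (iInf_le _ φ)
  obtain ⟨f, h2⟩ := lt_iSup_iff.1 h1
  obtain ⟨hf, h2⟩ := lt_iSup_iff.1 h2
  have hex : ∃ f' ∈ F, (fun i => L i f') = (fun i => L i f) := ⟨f, hf, rfl⟩
  obtain ⟨hg, hLg⟩ := hex.choose_spec
  set g := hex.choose with hgdef
  have hφf : φ (fun i => L i f) = S g := by
    simp only [hφ]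
    rw [dif_pos hex]
  rw [hφf, ← ofReal_norm, ENNReal.ofReal_lt_ofReal_iff_of_nonneg hd.le] at h2
  set c := ‖S f - S g‖ with hc
  have hc0 : 0 < c := hd.trans h2
  have ht : d / c ≤ 1 := (div_le_one hc0).2 h2.le
  have ht0 : 0 ≤ d / c := by positivity
  refine ⟨(1 - d / c) • g + (d / c) • f, ?_, g, hg, ?_, ?_⟩
  · exact hF hg hf (by linarith) ht0 (by ring)
  · intro i
    have hi : L i g = L i f := congrFun hLg i
    simp only [map_add, map_smul, smul_eq_mul, hi]
    ring
  · have : (1 - d / c) • g + (d / c) • f - g = (d / c) • (f - g) := by module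
    rw [this, map_smul, norm_smul, map_sub, ← hc, Real.norm_of_nonneg ht0]
    field_simp

theorem exists_sys (hF : Convex ℝ F) {D : ℕ} {d : ℝ} (hd : 0 < d)
    (h : ENNReal.ofReal d < eDet S F (D - 1)) : Nonempty (Sys S F D d) := by
  induction D with
  | zero =>
    exact ⟨{ f := Fin.elim0, g := Fin.elim0, y := Fin.elim0, hf := fun k => k.elim0,
             hg := fun k => k.elim0, hy := fun k => k.elim0, tri := fun k => k.elim0,
             diag := fun k => k.elim0, bd := fun k => k.elim0 }⟩
  | succ D ih =>
    rw [Nat.add_sub_cancel] at h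
    obtain ⟨s⟩ := ih (lt_of_lt_of_le h (eDet_anti (Nat.sub_le D 1)))
    obtain ⟨f, hf, g, hg, hL, hn⟩ := exists_pair hF (fun i => (s.y i).comp S) hd h
    have hne : ‖S (f - g)‖ ≠ 0 := by
      rw [hn]
      exact hd.ne'
    obtain ⟨y, hy1, hy2⟩ := exists_dual_vector ℝ (S (f - g)) hne
    refine ⟨{ f := Fin.snoc (α := fun _ => X) s.f f, g := Fin.snoc (α := fun _ => X) s.g g,
              y := Fin.snoc (α := fun _ => (Y →L[ℝ] ℝ)) s.y y,
              hf := ?_, hg := ?_, hy := ?_, tri := ?_, diag := ?_, bd := ?_ }⟩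
    · intro k
      refine Fin.lastCases ?_ (fun k => ?_) k
      · simpa using hf
      · simpa using s.hf k
    · intro k
      refine Fin.lastCases ?_ (fun k => ?_) k
      · simpa using hg
      · simpa using s.hg k
    · intro k
      refine Fin.lastCases ?_ (fun k => ?_) k
      · simpa using hy1.le
      · simpa using s.hy k
    · intro i k
      refine Fin.lastCases ?_ (fun i => ?_) i
      · intro hik
        exact absurd hik (not_lt.2 (Fin.le_last k))
      · refine Fin.lastCases ?_ (fun k => ?_) k
        · intro _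
          have := hL i
          simp only [ContinuousLinearMap.comp_apply] at this
          simp only [Fin.snoc_castSucc, Fin.snoc_last, map_sub]
          rw [this, sub_self]
        · intro hik
          simp only [Fin.snoc_castSucc]
          exact s.tri i k (Fin.castSucc_lt_castSucc_iff.1 hik)
    · intro k
      refine Fin.lastCases ?_ (fun k => ?_) k
      · simp only [Fin.snoc_last]
        rw [hy2, hn]
        rfl
      · simp only [Fin.snoc_castSucc]
        exact s.diag k
    · intro k
      refine Fin.lastCases ?_ (fun k => ?_) k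
      · simp only [Fin.snoc_last]
        exact hn.le
      · simp only [Fin.snoc_castSucc]
        exact s.bd k

end Pool.Agent.H44.MG
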